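import Pool.Agent.Helper29.FT.Geo

/-!
# Exclusion of lines
-/

open Finset Pointwise

set_option linter.unusedSectionVars false

namespace Pool.Agent.Helper29.FT

section General

variable {V : Type*} [DecidableEq V] {P : Finset V} {B : Finset (Finset V)} {α s t μ : ℕ}

theorem alpha_ge_two (hS : IsSPG P B α s t μ) {a : V} (ha : a ∈ P) {l : Finset V}
    (hl : l ∈ B) (hal : a ∉ l) {x y : V} (hx : x ∈ l) (hy : y ∈ l) (hxy : x ≠ y)
    (hax : Coll B a x) (hay : Coll B a y) : 2 ≤ α := by
  have h1 : 1 < #{b ∈ l | Coll B a b} := by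
    rw [one_lt_card]
    exact ⟨x, mem_filter.mpr ⟨hx, hax⟩, y, mem_filter.mpr ⟨hy, hay⟩, hxy⟩
  rcases hS.antiflag' ha hl hal with h | h
  · omega
  · omega

theorem alpha_eq_one (hS : IsSPG P B α s t μ) {a : V} (ha : a ∈ P) {l : Finset V}
    (hl : l ∈ B) (hal : a ∉ l) {x : V} (hx : x ∈ l)
    (hax : Coll B a x) (huniq : ∀ y ∈ l, Coll B a y → y = x) : α = 1 := by
  have h1 : #{b ∈ l | Coll B a b} = 1 := by
    rw [card_eq_one]
    refine ⟨x, ?_⟩
    ext y
    rw [mem_filter, mem_singleton]
    constructor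
    · rintro ⟨h1, h2⟩
      exact huniq y h1 h2
    · rintro rfl
      exact ⟨hx, hax⟩
  rcases hS.antiflag' ha hl hal with h | h
  · omega
  · omega

theorem no_triangle (hS : IsSPG P B α s t μ) (hs : s = 1) (hNL : NonLinear P B) {a b c : V}
    (hab : Coll B a b) (hbc : Coll B b c) (hac : Coll B a c) : False := by
  have h2 : 2 ≤ α := by
    obtain ⟨hne, m, hm, ham, hbm⟩ := hab
    have hm2 : m = {a, b} := by
      symm
      apply eq_of_subset_of_card_le
      · intro x hx
        rw [mem_insert, mem_singleton] at hx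
        rcases hx with rfl | rfl
        · exact ham
        · exact hbm
      · rw [hS.line_card m hm, card_pair hne, hs]
    have hcm : c ∉ m := by
      rw [hm2, mem_insert, mem_singleton]
      rintro (rfl | rfl)
      · exact hac.1 rfl
      · exact hbc.1 rfl
    exact alpha_ge_two hS (coll_mem hS hac).2 hm hcm ham hbm hne hac.symm hbc.symm
  obtain ⟨x, hx, y, hy, hxy, hn⟩ := hNL
  obtain ⟨z, hz, hxz, hyz⟩ := hS.exists_common hx hy hxy hn
  obtain ⟨hne, m, hm, hxm, hzm⟩ := id hxz
  have hm2 : m = {x, z} := by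
    symm
    apply eq_of_subset_of_card_le
    · intro w hw
      rw [mem_insert, mem_singleton] at hw
      rcases hw with rfl | rfl
      · exact hxm
      · exact hzm
    · rw [hS.line_card m hm, card_pair hne, hs]
  have hym : y ∉ m := by
    intro h
    exact hn ⟨hxy, m, hm, hxm, h⟩
  have h1 := alpha_eq_one hS hy hm hym hzm hyz (by
    intro w hw hyw
    rw [hm2, mem_insert, mem_singleton] at hw
    rcases hw with rfl | rfl
    · exact absurd hyw.symm hn
    · rfl)
  omega

end General

/-- three sets with a prescribed Venn diagram -/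
theorem exists_triple {n : ℕ} (w : Bool × Bool × Bool → ℕ) (hw : ∑ c, w c = n) :
    ∃ a b d : Finset (Fin n), ∀ c, #{x | col3 a b d x = c} = w c := by
  have hcard : Fintype.card (Fin n) = Fintype.card (Σ c, Fin (w c)) := by
    rw [Fintype.card_fin, Fintype.card_sigma]
    simp only [Fintype.card_fin]
    exact hw.symm
  let e : Fin n ≃ Σ c, Fin (w c) := Fintype.equivOfCardEq hcard
  refine ⟨univ.filter (fun x => (e x).1.1 = true), univ.filter (fun x => (e x).1.2.1 = true),
    univ.filter (fun x => (e x).1.2.2 = true), ?_⟩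
  intro c
  have h1 : ∀ x, col3 (univ.filter (fun x => (e x).1.1 = true))
      (univ.filter (fun x => (e x).1.2.1 = true))
      (univ.filter (fun x => (e x).1.2.2 = true)) x = (e x).1 := by
    intro x
    simp [col3]
  simp only [h1]
  have h2 : #{x | (e x).1 = c} = #({y : Σ c, Fin (w c) | y.1 = c} : Finset _) := by
    apply card_bij (fun x _ => e x)
    · intro x hx
      simpa using hx
    · intro x _ y _ h
      exact e.injective h
    · intro y hy
      exact ⟨e.symm y, by simpa using hy, by simp⟩
  rw [h2]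
  have h3 : #({y : Σ c, Fin (w c) | y.1 = c} : Finset _) = #(univ : Finset (Fin (w c))) := by
    symm
    apply card_bij (fun i _ => (⟨c, i⟩ : Σ c, Fin (w c)))
    · intro i _
      simp
    · intro i _ j _ h
      simpa using h
    · rintro ⟨c', i⟩ hy
      simp only [mem_filter, mem_univ, true_and] at hy
      subst hy
      exact ⟨i, mem_univ _, rfl⟩
  rw [h3, card_univ, Fintype.card_fin]

section Sub

variable {n k : ℕ} {α s t μ : ℕ} {B : Finset (Finset (Finset (Fin n)))}
  {G : Subgroup (Equiv.Perm (Fin n))}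

/-- Kneser type counting -/
theorem kneser_count (hS : IsSPG (Pts n k) B α s t μ)
    (hc : ∀ a b : Finset (Fin n), #a = k → #b = k → (Coll B a b ↔ #(a ∩ b) = 0))
    {a c : Finset (Fin n)} (ha : #a = k) (hck : #c = k) (hac : a ≠ c) {j : ℕ}
    (hj : #(a ∩ c) = j) (hj1 : 1 ≤ j) : μ = (n - (2 * k - j)).choose k := by
  have hnc : ¬ Coll B a c := by
    rw [hc a c ha hck]
    omega
  rw [← hS.noncoll a (mem_pts ha) c (mem_pts hck) hac hnc]
  have h1 : {d ∈ Pts n k | Coll B a d ∧ Coll B c d} = powersetCard k (a ∪ c)ᶜ := by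
    ext d
    simp only [mem_filter, mem_powersetCard]
    constructor
    · rintro ⟨⟨-, hd⟩, h1, h2⟩
      rw [hc a d ha hd, card_eq_zero, ← disjoint_iff_inter_eq_empty] at h1
      rw [hc c d hck hd, card_eq_zero, ← disjoint_iff_inter_eq_empty] at h2
      refine ⟨?_, hd⟩
      intro x hx
      rw [mem_compl, mem_union, not_or]
      exact ⟨fun h => disjoint_left.mp h1 h hx, fun h => disjoint_left.mp h2 h hx⟩
    · rintro ⟨hsub, hd⟩
      refine ⟨⟨subset_univ _, hd⟩, ?_, ?_⟩
      · rw [hc a d ha hd, card_eq_zero, ← disjoint_iff_inter_eq_empty, disjoint_left]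
        intro x hx hx'
        have := hsub hx'
        rw [mem_compl, mem_union, not_or] at this
        exact this.1 hx
      · rw [hc c d hck hd, card_eq_zero, ← disjoint_iff_inter_eq_empty, disjoint_left]
        intro x hx hx'
        have := hsub hx'
        rw [mem_compl, mem_union, not_or] at this
        exact this.2 hx
  rw [h1, card_powersetCard, card_compl, Fintype.card_fin]
  congr 2
  have := card_union_add_card_inter a c
  omega

/-- if collinearity is the Johnson graph, then `k = 2` -/
theorem johnson_excl (hk2 : 2 ≤ k) (hkn : 2 * k ≤ n) (hS : IsSPG (Pts n k) B α s t μ)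
    (hc : ∀ a b : Finset (Fin n), #a = k → #b = k → (Coll B a b ↔ #(a ∩ b) = k - 1)) :
    k = 2 := by
  by_contra hk
  obtain ⟨a, c, ha, hck, hac⟩ := exists_inter (Ω := Fin n) (k := k) (j := k - 3)
    (by rw [Fintype.card_fin]; exact hkn) (by omega)
  have hne : a ≠ c := by
    rintro rfl
    rw [inter_self] at hac
    omega
  have hnc : ¬ Coll B a c := by
    rw [hc a c ha hck]
    omega
  obtain ⟨b, hb, hab, hcb⟩ := hS.exists_common (mem_pts ha) (mem_pts hck) hne hnc
  have hbk : #b = k := (mem_powersetCard.mp hb).2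
  rw [hc a b ha hbk] at hab
  rw [hc c b hck hbk] at hcb
  obtain ⟨ca, cc, cb, cn⟩ := card_col3 a c b
  obtain ⟨cac, cab, ccb⟩ := card_col3_inter a c b
  omega

end Sub

end Pool.Agent.Helper29.FT
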