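import Pool.Agent.Helper29.FT.Excl3

/-!
# The classification (necessity)
-/

open Finset Pointwise

set_option linter.unusedSectionVars false

namespace Pool.Agent.Helper29.FT

/-- the points on the line `x` of the dual of the complete graph -/
def star (n : ℕ) (x : Fin n) : Finset (Finset (Fin n)) := {a ∈ Pts n 2 | x ∈ a}

/-- the dual of the complete graph: the lines are the stars -/
def stars (n : ℕ) : Finset (Finset (Finset (Fin n))) := univ.image (star n)

/-- `U_{2,3}(n)`: the lines are the triangles -/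
def triangles (n : ℕ) : Finset (Finset (Finset (Fin n))) :=
  (powersetCard 3 univ).image (powersetCard 2)

/-- the sets of `m` mutually disjoint pairs -/
def matchings (n m : ℕ) : Finset (Finset (Finset (Fin n))) :=
  {l ∈ powersetCard m (Pts n 2) | ∀ a ∈ l, ∀ b ∈ l, a ≠ b → Disjoint a b}

section

variable {n k : ℕ} {α s t μ : ℕ} {B : Finset (Finset (Finset (Fin n)))}
  {G : Subgroup (Equiv.Perm (Fin n))}

/-- the line set is the orbit of one line -/
theorem mem_iff_orbit (hS : IsSPG (Pts n k) B α s t μ)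
    (hF : FlagTransitive G B) {l : Finset (Finset (Fin n))} (hl : l ∈ B)
    (m : Finset (Finset (Fin n))) : m ∈ B ↔ ∃ g ∈ G, m = g • l := by
  constructor
  · intro hm
    obtain ⟨g, hg, h⟩ := line_orbit hS hF hl hm
    exact ⟨g, hg, h.symm⟩
  · rintro ⟨g, hg, rfl⟩
    exact hF.aut g hg l hl

theorem smul_powersetCard (g : Equiv.Perm (Fin n)) (j : ℕ) (Y : Finset (Fin n)) :
    g • powersetCard j Y = powersetCard j (g • Y) := by
  ext a
  rw [mem_smul_L, mem_powersetCard, mem_powersetCard, card_smul_finset]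
  have : g⁻¹ • a ⊆ Y ↔ a ⊆ g • Y := by
    constructor
    · intro h
      have := smul_finset_subset_smul_finset (a := g) h
      rwa [smul_inv_smul] at this
    · intro h
      have := smul_finset_subset_smul_finset (a := g⁻¹) h
      rwa [inv_smul_smul] at this
  rw [this]

theorem smul_star (g : Equiv.Perm (Fin n)) (x : Fin n) : g • star n x = star n (g x) := by
  ext a
  rw [mem_smul_L, star, star, mem_filter, mem_filter, mem_powersetCard, mem_powersetCard,
    card_smul_finset]
  have : x ∈ g⁻¹ • a ↔ g x ∈ a := by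
    constructor
    · intro h
      have := smul_mem_smul_finset (a := g) h
      rwa [smul_inv_smul] at this
    · intro h
      have := smul_mem_smul_finset (a := g⁻¹) h
      rwa [← Equiv.Perm.smul_def, inv_smul_smul] at this
  rw [this]
  simp

theorem case_stars (hn : 5 ≤ n) (hG : alternatingGroup (Fin n) ≤ G)
    (hS : IsSPG (Pts n 2) B α s t μ) (hF : FlagTransitive G B)
    {l : Finset (Finset (Fin n))} (hl : l ∈ B) {x : Fin n} (hx : l = star n x) :
    B = stars n := by
  subst hx
  ext m
  rw [mem_iff_orbit hS hF hl, stars, mem_image]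
  constructor
  · rintro ⟨g, -, rfl⟩
    exact ⟨g x, mem_univ _, (smul_star g x).symm⟩
  · rintro ⟨y, -, rfl⟩
    obtain ⟨g, hg, h1, -⟩ := pair_transitive (by rw [Fintype.card_fin]; exact hn)
      {x} {x} {y} {y} rfl rfl (by simp)
    refine ⟨g, hG hg, ?_⟩
    rw [smul_star]
    have h2 : g • x ∈ g • ({x} : Finset (Fin n)) := smul_mem_smul_finset (mem_singleton_self x)
    rw [h1, mem_singleton] at h2
    rw [← h2]
    rfl

theorem case_triangles (hn : 5 ≤ n) (hG : alternatingGroup (Fin n) ≤ G)
    (hS : IsSPG (Pts n 2) B α s t μ) (hF : FlagTransitive G B)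
    {Y : Finset (Fin n)} (hY : #Y = 3) (hl : powersetCard 2 Y ∈ B) : B = triangles n := by
  ext m
  rw [mem_iff_orbit hS hF hl, triangles, mem_image]
  constructor
  · rintro ⟨g, -, rfl⟩
    refine ⟨g • Y, ?_, (smul_powersetCard g 2 Y).symm⟩
    rw [mem_powersetCard, card_smul_finset]
    exact ⟨subset_univ _, hY⟩
  · rintro ⟨Z, hZ, rfl⟩
    rw [mem_powersetCard] at hZ
    obtain ⟨g, hg, h1, -⟩ := pair_transitive (by rw [Fintype.card_fin]; exact hn)
      Y Y Z Z (hY.trans hZ.2.symm) (hY.trans hZ.2.symm)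
      (by rw [inter_self, inter_self]; exact hY.trans hZ.2.symm)
    refine ⟨g, hG hg, ?_⟩
    rw [smul_powersetCard, h1]

theorem smul_matching (g : Equiv.Perm (Fin n)) {m : ℕ} {l : Finset (Finset (Fin n))}
    (hl : l ∈ matchings n m) : g • l ∈ matchings n m := by
  rw [matchings, mem_filter, mem_powersetCard] at hl ⊢
  refine ⟨⟨?_, ?_⟩, ?_⟩
  · intro a ha
    rw [mem_smul_L] at ha
    have := hl.1.1 ha
    rw [mem_powersetCard, card_smul_finset] at this
    rw [mem_powersetCard]
    exact ⟨subset_univ _, this.2⟩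
  · rw [card_smul_finset]
    exact hl.1.2
  · intro a ha b hb hab
    rw [mem_smul_L] at ha hb
    have := hl.2 _ ha _ hb (fun h => hab (smul_left_cancel _ h))
    rw [disjoint_iff_inter_eq_empty, ← card_eq_zero, card_smul_inter] at this
    rw [disjoint_iff_inter_eq_empty, ← card_eq_zero]
    exact this

end

theorem case_petersen {n : ℕ} {α s t μ : ℕ} {B : Finset (Finset (Finset (Fin n)))}
    (hS : IsSPG (Pts n 2) B α s t μ) (hs : s = 1)
    (hc : ∀ a b : Finset (Fin n), #a = 2 → #b = 2 → (Coll B a b ↔ #(a ∩ b) = 0)) :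
    B = matchings n 2 := by
  ext m
  rw [matchings, mem_filter, mem_powersetCard]
  constructor
  · intro hm
    refine ⟨⟨hS.lines_sub m hm, by rw [hS.line_card m hm, hs]⟩, ?_⟩
    intro a ha b hb hab
    have h1 := (hc a b (card_of_mem hS hm ha) (card_of_mem hS hm hb)).mp ⟨hab, m, hm, ha, hb⟩
    rwa [card_eq_zero, ← disjoint_iff_inter_eq_empty] at h1
  · rintro ⟨⟨h1, h2⟩, h3⟩
    obtain ⟨a, b, hab, rfl⟩ := card_eq_two.mp h2
    have ha : #a = 2 := (mem_powersetCard.mp (h1 (by simp))).2
    have hb : #b = 2 := (mem_powersetCard.mp (h1 (by simp))).2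
    have h4 := h3 a (by simp) b (by simp) hab
    rw [disjoint_iff_inter_eq_empty, ← card_eq_zero] at h4
    obtain ⟨-, l, hl, hal, hbl⟩ := (hc a b ha hb).mpr h4
    have h5 : l = {a, b} := by
      symm
      apply eq_of_subset_of_card_le
      · intro x hx
        rw [mem_insert, mem_singleton] at hx
        rcases hx with rfl | rfl
        · exact hal
        · exact hbl
      · rw [hS.line_card l hl, card_pair hab, hs]
    rw [← h5]
    exact hl

theorem case_w2 {n : ℕ} (hn6 : n = 6) {α s t μ : ℕ} {B : Finset (Finset (Finset (Fin n)))}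
    {G : Subgroup (Equiv.Perm (Fin n))} (hG : alternatingGroup (Fin n) ≤ G)
    (hS : IsSPG (Pts n 2) B α s t μ) (hF : FlagTransitive G B) {l : Finset (Finset (Fin n))}
    (hl : l ∈ B) (h4 : IsT4 2 l) : B = matchings n 3 := by
  obtain ⟨A, X, Y, Z, dAX, dAY, dAZ, dXY, dXZ, dYZ, hU, cY, cZ, hk, rfl⟩ := h4
  have hncard : #A + #X + #Y + #Z = n := by
    have h1 : #(A ∪ X ∪ Y ∪ Z) = n := by rw [hU, card_univ, Fintype.card_fin]
    rw [card_union_of_disjoint, card_union_of_disjoint, card_union_of_disjoint dAX] at h1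
    · exact h1
    · rw [disjoint_union_left]
      exact ⟨dAY, dXY⟩
    · rw [disjoint_union_left, disjoint_union_left]
      exact ⟨⟨dAZ, dXZ⟩, dYZ⟩
  have hA : A = ∅ := by
    rw [← card_eq_zero]
    omega
  subst hA
  rw [card_empty] at hk hncard
  simp only [empty_union] at hl hU
  have hmatch : ({X, Y, Z} : Finset (Finset (Fin n))) ∈ matchings n 3 := by
    have n1 : X ≠ Y := by
      rintro rfl
      rw [disjoint_self_iff_empty] at dXY
      rw [dXY, card_empty] at hk
      omega
    have n2 : X ≠ Z := by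
      rintro rfl
      rw [disjoint_self_iff_empty] at dXZ
      rw [dXZ, card_empty] at hk
      omega
    have n3 : Y ≠ Z := by
      rintro rfl
      rw [disjoint_self_iff_empty] at dYZ
      rw [dYZ, card_empty] at cY
      omega
    rw [matchings, mem_filter, mem_powersetCard]
    refine ⟨⟨?_, ?_⟩, ?_⟩
    · intro a ha
      rw [mem_insert, mem_insert, mem_singleton] at ha
      rw [mem_powersetCard]
      refine ⟨subset_univ _, ?_⟩
      rcases ha with rfl | rfl | rfl <;> omega
    · rw [card_insert_of_notMem (by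
        rw [mem_insert, mem_singleton, not_or]
        exact ⟨n1, n2⟩), card_pair n3]
    · intro a ha b hb hab
      rw [mem_insert, mem_insert, mem_singleton] at ha hb
      rcases ha with rfl | rfl | rfl <;> rcases hb with rfl | rfl | rfl
      · exact absurd rfl hab
      · exact dXY
      · exact dXZ
      · exact dXY.symm
      · exact absurd rfl hab
      · exact dYZ
      · exact dXZ.symm
      · exact dYZ.symm
      · exact absurd rfl hab
  ext m
  rw [mem_iff_orbit hS hF hl]
  constructor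
  · rintro ⟨g, -, rfl⟩
    exact smul_matching g hmatch
  · intro hm
    rw [matchings, mem_filter, mem_powersetCard] at hm
    obtain ⟨⟨h1, h2⟩, h3⟩ := hm
    obtain ⟨a, b, c, hab, hac, hbc, rfl⟩ := card_eq_three.mp h2
    have ha : #a = 2 := (mem_powersetCard.mp (h1 (by simp))).2
    have hb : #b = 2 := (mem_powersetCard.mp (h1 (by simp))).2
    have hc : #c = 2 := (mem_powersetCard.mp (h1 (by simp))).2
    have dab := h3 a (by simp) b (by simp) hab
    have dac := h3 a (by simp) c (by simp) hac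
    have dbc := h3 b (by simp) c (by simp) hbc
    obtain ⟨g, hg, g1, g2⟩ := pair_transitive (by rw [Fintype.card_fin]; omega)
      X Y a b (by omega) (by omega) (by
        rw [disjoint_iff_inter_eq_empty.mp dXY, disjoint_iff_inter_eq_empty.mp dab])
    refine ⟨g, hG hg, ?_⟩
    have hZ : Z = (X ∪ Y)ᶜ := by
      ext z
      rw [mem_compl, mem_union, not_or]
      constructor
      · intro h
        exact ⟨fun h' => disjoint_left.mp dXZ h' h, fun h' => disjoint_left.mp dYZ h' h⟩
      · rintro ⟨h5, h6⟩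
        have : z ∈ X ∪ Y ∪ Z := by rw [hU]; exact mem_univ _
        rw [mem_union, mem_union] at this
        tauto
    have hcc : c = (a ∪ b)ᶜ := by
      apply eq_of_subset_of_card_le
      · intro z hz
        rw [mem_compl, mem_union, not_or]
        exact ⟨fun h' => disjoint_left.mp dac h' hz, fun h' => disjoint_left.mp dbc h' hz⟩
      · rw [card_compl, Fintype.card_fin, card_union_of_disjoint dab]
        omega
    have g3 : g • Z = c := by
      rw [hZ, hcc, ← g1, ← g2, ← smul_finset_union]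
      rw [smul_eq_iff]
      intro z
      rw [mem_compl, mem_compl, mem_smul_perm]
    rw [smul_finset_insert, smul_finset_insert, smul_finset_singleton, g1, g2, g3]

/-- The classification, necessity. -/
theorem necessity {n k : ℕ} {α s t μ : ℕ} {B : Finset (Finset (Finset (Fin n)))}
    {G : Subgroup (Equiv.Perm (Fin n))} (hn : 5 ≤ n) (hk1 : 1 ≤ k) (hkn : 2 * k ≤ n)
    (hG : alternatingGroup (Fin n) ≤ G) (hS : IsSPG (Pts n k) B α s t μ)
    (hF : FlagTransitive G B) (hNL : NonLinear (Pts n k) B) :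
    (k = 2 ∧ B = stars n) ∨ (k = 2 ∧ B = triangles n) ∨
    (n = 5 ∧ k = 2 ∧ B = matchings n 2) ∨ (n = 6 ∧ k = 2 ∧ B = matchings n 3) ∨
    (n = 7 ∧ k = 3 ∧ G = alternatingGroup (Fin n) ∧
      ∃ L, IsFano L ∧ ∀ m, m ∈ B ↔ ∃ g ∈ alternatingGroup (Fin n), m = g • L) := by
  obtain ⟨a0, ha0, b0, hb0, hab0, hnc0⟩ := id hNL
  obtain ⟨l, hl, ha0l⟩ := hS.exists_line ha0
  have hlk : ∀ a ∈ l, #a = k := fun a ha => card_of_mem hS hl ha
  rcases Nat.lt_or_ge k 2 with hk | hk2
  · -- k = 1
    exfalso
    obtain rfl : k = 1 := by omega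
    obtain ⟨j, hj, hNC⟩ := exists_NC hn hG hS hF hNL
    have h1 : 1 < #l := by
      rw [hS.line_card l hl]
      have := hS.s_pos
      omega
    obtain ⟨a, ha, b, hb, hab⟩ := one_lt_card.mp h1
    have h2 := hNC a b ⟨hab, l, hl, ha, hb⟩
    have h3 := inter_card_lt (hlk a ha) (hlk b hb) hab
    omega
  by_cases hs1 : s = 1
  · obtain ⟨h1, h2, h3⟩ := s1_class hn hk2 hkn hG hS hF hNL hs1
    subst h2
    exact Or.inr (Or.inr (Or.inl ⟨h1, rfl, case_petersen hS hs1 h3⟩))
  have hs2 : 2 ≤ s := by
    have := hS.s_pos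
    omega
  have h63 : ¬ (n = 6 ∧ k = 3) := by
    rintro ⟨rfl, rfl⟩
    exact n63_excl hG hS hF hNL hs2
  obtain ⟨j, hj, hNC⟩ := exists_NC hn hG hS hF hNL
  have hNC' : ∃ j < k, ∀ a ∈ l, ∀ b ∈ l, a ≠ b → #(a ∩ b) ≠ j :=
    ⟨j, hj, fun a ha b hb hab => hNC a b ⟨hab, l, hl, ha, hb⟩⟩
  rcases line_types hn hk2 hkn l hlk (by rw [hS.line_card l hl]; omega) (line_pl hG hS hF hl)
    hNC' h63 (line_hom hF hl) with h | h | h | h | h
  · -- stars
    obtain ⟨K, hK, hKl⟩ := h
    have hconst : ∀ a ∈ l, ∀ b ∈ l, a ≠ b → #(a ∩ b) = k - 1 := by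
      intro a ha b hb hab
      obtain ⟨z, hz, rfl⟩ := (hKl a).mp ha
      obtain ⟨w, hw, rfl⟩ := (hKl b).mp hb
      have h1 := inter_card_lt (hlk _ ha) (hlk _ hb) hab
      have h2 : K ⊆ insert z K ∩ insert w K :=
        subset_inter (subset_insert _ _) (subset_insert _ _)
      have h3 := card_le_card h2
      omega
    have hk : k = 2 := johnson_excl hk2 hkn hS
      (fun a b ha hb => coll_iff hn hG hS hF hl hconst ha hb)
    subst hk
    obtain ⟨x, hx⟩ := card_eq_one.mp (show #K = 1 from hK)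
    subst hx
    left
    refine ⟨rfl, case_stars hn hG hS hF hl (x := x) ?_⟩
    ext e
    rw [hKl, star, mem_filter, mem_powersetCard]
    constructor
    · rintro ⟨z, hz, rfl⟩
      rw [mem_singleton] at hz
      refine ⟨⟨subset_univ _, card_pair hz⟩, by simp⟩
    · rintro ⟨⟨-, h1⟩, h2⟩
      obtain ⟨y, z, hyz, rfl⟩ := card_eq_two.mp h1
      rw [mem_insert, mem_singleton] at h2
      rcases h2 with rfl | rfl
      · exact ⟨z, by rw [mem_singleton]; exact hyz.symm, pair_comm _ _⟩
      · exact ⟨y, by rw [mem_singleton]; exact hyz, rfl⟩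
  · -- subsets of a (k+1)-set
    obtain ⟨Y, hY, rfl⟩ := h
    have hconst : ∀ a ∈ powersetCard k Y, ∀ b ∈ powersetCard k Y, a ≠ b →
        #(a ∩ b) = k - 1 := by
      intro a ha b hb hab
      have h1 := inter_card_lt (hlk _ ha) (hlk _ hb) hab
      rw [mem_powersetCard] at ha hb
      have h2 := card_union_add_card_inter a b
      have h3 := card_le_card (union_subset ha.1 hb.1)
      omega
    have hk : k = 2 := johnson_excl hk2 hkn hS
      (fun a b ha hb => coll_iff hn hG hS hF hl hconst ha hb)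
    subst hk
    exact Or.inr (Or.inl ⟨rfl, case_triangles hn hG hS hF hY hl⟩)
  · -- blown up triangles
    obtain ⟨Y, hY, rfl⟩ := t3_excl hn hk2 hkn hG hS hF hl h
    have hconst : ∀ a ∈ powersetCard k Y, ∀ b ∈ powersetCard k Y, a ≠ b →
        #(a ∩ b) = k - 1 := by
      intro a ha b hb hab
      have h1 := inter_card_lt (hlk _ ha) (hlk _ hb) hab
      rw [mem_powersetCard] at ha hb
      have h2 := card_union_add_card_inter a b
      have h3 := card_le_card (union_subset ha.1 hb.1)
      omega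
    have hk : k = 2 := johnson_excl hk2 hkn hS
      (fun a b ha hb => coll_iff hn hG hS hF hl hconst ha hb)
    subst hk
    exact Or.inr (Or.inl ⟨rfl, case_triangles hn hG hS hF hY hl⟩)
  · -- sunflowers
    obtain ⟨h6, hk⟩ := t4_excl hn hk2 hkn hG hS hF hl h
    subst hk
    exact Or.inr (Or.inr (Or.inr (Or.inl ⟨h6, rfl, case_w2 h6 hG hS hF hl h⟩)))
  · -- Fano planes
    obtain ⟨rfl, rfl, hf⟩ := h
    have hGA := fano_group hG hS hF hl hf
    refine Or.inr (Or.inr (Or.inr (Or.inr ⟨rfl, rfl, hGA, l, hf, ?_⟩)))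
    intro m
    rw [mem_iff_orbit hS hF hl, hGA]

end Pool.Agent.Helper29.FT
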