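import Pool.Agent.Helper29.FT.Defs

/-!
# Permutations with prescribed images of sets, even if needed
-/

open Finset Pointwise

namespace Pool.Agent.Helper29.FT

variable {Ω : Type*} [Fintype Ω] [DecidableEq Ω]

theorem exists_perm_of_fiber {κ : Type*} [DecidableEq κ] (f f' : Ω → κ)
    (h : ∀ c, #{x | f x = c} = #{x | f' x = c}) :
    ∃ σ : Equiv.Perm Ω, ∀ x, f' (σ x) = f x := by
  have h' : ∀ c, Nonempty ({x // f x = c} ≃ {x // f' x = c}) := by
    intro c
    rw [← Fintype.card_eq]
    rw [Fintype.card_subtype, Fintype.card_subtype]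
    exact h c
  exact ⟨Equiv.ofFiberEquiv (fun c => (h' c).some), fun x => Equiv.ofFiberEquiv_map _ x⟩

theorem exists_even_perm_of_fiber {κ : Type*} [DecidableEq κ] (f f' : Ω → κ)
    (h : ∀ c, #{x | f x = c} = #{x | f' x = c}) (h2 : ∃ x y, x ≠ y ∧ f x = f y) :
    ∃ σ ∈ alternatingGroup Ω, ∀ x, f' (σ x) = f x := by
  obtain ⟨σ, hσ⟩ := exists_perm_of_fiber f f' h
  obtain ⟨x, y, hxy, hf⟩ := h2
  rcases Int.units_eq_one_or (Equiv.Perm.sign σ) with hs | hs
  · exact ⟨σ, Equiv.Perm.mem_alternatingGroup.mpr hs, hσ⟩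
  · refine ⟨σ * Equiv.swap x y, ?_, ?_⟩
    · rw [Equiv.Perm.mem_alternatingGroup, map_mul, hs, Equiv.Perm.sign_swap hxy]
      decide
    · intro z
      rw [Equiv.Perm.mul_apply, hσ]
      rcases eq_or_ne z x with rfl | hzx
      · rw [Equiv.swap_apply_left, hf]
      · rcases eq_or_ne z y with rfl | hzy
        · rw [Equiv.swap_apply_right, hf]
        · rw [Equiv.swap_apply_of_ne_of_ne hzx hzy]

theorem smul_eq_iff (g : Equiv.Perm Ω) (a b : Finset Ω) :
    g • a = b ↔ ∀ x, (g x ∈ b ↔ x ∈ a) := by
  constructor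
  · rintro rfl x
    have : g x = g • x := rfl
    rw [this, Finset.smul_mem_smul_finset_iff]
  · intro h
    ext y
    obtain ⟨x, rfl⟩ := g.surjective y
    have : g x = g • x := rfl
    rw [h, this, Finset.smul_mem_smul_finset_iff]

theorem mem_smul_perm (g : Equiv.Perm Ω) (a : Finset Ω) (x : Ω) :
    g x ∈ g • a ↔ x ∈ a := by
  have : g x = g • x := rfl
  rw [this, Finset.smul_mem_smul_finset_iff]

/-- Membership of `x` in the swap image. -/
theorem mem_swap_smul (x y : Ω) (a : Finset Ω) (z : Ω) :
    z ∈ Equiv.swap x y • a ↔ Equiv.swap x y z ∈ a := by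
  conv_lhs => rw [← Equiv.swap_apply_self x y z]
  rw [mem_smul_perm]

/-- cell cards from intersection cards -/
theorem card_cell (a b : Finset Ω) (c : Bool × Bool) :
    #{x | ((decide (x ∈ a), decide (x ∈ b)) : Bool × Bool) = c} =
      if c.1 then (if c.2 then #(a ∩ b) else #a - #(a ∩ b))
      else (if c.2 then #b - #(a ∩ b) else (Fintype.card Ω + #(a ∩ b)) - (#a + #b)) := by
  obtain ⟨c1, c2⟩ := c
  have e1 : #(a \ b) = #a - #(a ∩ b) := by
    have := Finset.card_sdiff_add_card_inter a b
    omega
  have e2 : #(b \ a) = #b - #(a ∩ b) := by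
    have := Finset.card_sdiff_add_card_inter b a
    rw [inter_comm] at this
    omega
  have e3 : #(a ∪ b)ᶜ = (Fintype.card Ω + #(a ∩ b)) - (#a + #b) := by
    rw [card_compl]
    have := card_union_add_card_inter a b
    omega
  cases c1 <;> cases c2
  · simp only [Bool.false_eq_true, if_false]
    rw [← e3]
    congr 1
    ext x
    simp
  · simp only [Bool.false_eq_true, if_false, if_true]
    rw [← e2]
    congr 1
    ext x
    simp [and_comm]
  · simp only [Bool.false_eq_true, if_false, if_true]
    rw [← e1]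
    congr 1
    ext x
    simp
  · simp only [if_true]
    congr 1
    ext x
    simp

theorem exists_same_cell (hn : 5 ≤ Fintype.card Ω) (a b : Finset Ω) :
    ∃ x y, x ≠ y ∧ ((decide (x ∈ a), decide (x ∈ b)) : Bool × Bool) =
      (decide (y ∈ a), decide (y ∈ b)) := by
  by_contra hcon
  push Not at hcon
  have hinj : Function.Injective
      (fun x : Ω => ((decide (x ∈ a), decide (x ∈ b)) : Bool × Bool)) := by
    intro x y hxy
    by_contra hne
    exact hcon x y hne hxy
  have := Fintype.card_le_of_injective _ hinj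
  simp at this
  omega

/-- Alternating groups are transitive on pairs of `k`-sets with given intersection size. -/
theorem pair_transitive (hn : 5 ≤ Fintype.card Ω) (a b a' b' : Finset Ω)
    (ha : #a = #a') (hb : #b = #b') (hab : #(a ∩ b) = #(a' ∩ b')) :
    ∃ g ∈ alternatingGroup Ω, g • a = a' ∧ g • b = b' := by
  obtain ⟨σ, hσ, h⟩ := exists_even_perm_of_fiber
    (fun x : Ω => ((decide (x ∈ a), decide (x ∈ b)) : Bool × Bool))
    (fun x : Ω => ((decide (x ∈ a'), decide (x ∈ b')) : Bool × Bool))
    (by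
      intro c
      rw [card_cell, card_cell, ha, hb, hab])
    (exists_same_cell hn a b)
  refine ⟨σ, hσ, ?_, ?_⟩
  · rw [smul_eq_iff]
    intro x
    have := h x
    simp only [Prod.mk.injEq, decide_eq_decide] at this
    exact this.1
  · rw [smul_eq_iff]
    intro x
    have := h x
    simp only [Prod.mk.injEq, decide_eq_decide] at this
    exact this.2

end Pool.Agent.Helper29.FT
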