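import Pool.Agent.Helper29.FT.Classify

/-!
# The examples: construction lemma and the two infinite families
-/

open Finset Pointwise

set_option linter.unusedSectionVars false

namespace Pool.Agent.Helper29.FT

section General

variable {V : Type*} [DecidableEq V] {P : Finset V} {B : Finset (Finset V)}

theorem card_coll_of
    (htwo : ∀ l ∈ B, ∀ m ∈ B, ∀ a b, a ≠ b → a ∈ l → b ∈ l → a ∈ m → b ∈ m → l = m)
    {a : V} {l : Finset V} (hl : l ∈ B)
    (hal : a ∉ l) : #{m ∈ B | a ∈ m ∧ (m ∩ l).Nonempty} = #{b ∈ l | Coll B a b} := by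
  symm
  have hex : ∀ b ∈ ({b ∈ l | Coll B a b} : Finset V), ∃ m ∈ B, a ∈ m ∧ b ∈ m := by
    intro b hb
    rw [mem_filter] at hb
    obtain ⟨-, m, hm, ham, hbm⟩ := hb.2
    exact ⟨m, hm, ham, hbm⟩
  choose! f hf using hex
  apply card_bij (fun b _ => f b)
  · intro b hb
    have h1 := hf b hb
    rw [mem_filter] at hb ⊢
    exact ⟨h1.1, h1.2.1, b, mem_inter.mpr ⟨h1.2.2, hb.1⟩⟩
  · intro b hb b' hb' heq
    have h1 := hf b hb
    have h2 := hf b' hb'
    rw [mem_filter] at hb hb'
    by_contra hne
    have heq' : f b = f b' := heq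
    have h3 := htwo (f b) h1.1 l hl b b' hne h1.2.2 (by rw [heq']; exact h2.2.2)
      hb.1 hb'.1
    rw [h3] at h1
    exact hal h1.2.1
  · intro m hm
    rw [mem_filter] at hm
    obtain ⟨hmB, ham, b, hb⟩ := hm
    rw [mem_inter] at hb
    have hab : a ≠ b := by
      rintro rfl
      exact hal hb.2
    have hmem : b ∈ ({b ∈ l | Coll B a b} : Finset V) := by
      rw [mem_filter]
      exact ⟨hb.2, hab, m, hmB, ham, hb.1⟩
    refine ⟨b, hmem, ?_⟩
    have h1 := hf b hmem
    exact htwo (f b) h1.1 m hmB a b hab h1.2.1 h1.2.2 ham hb.1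

end General

/-- construction of semipartial geometries on `k`-subsets -/
theorem mk_spg {n k : ℕ} {B : Finset (Finset (Finset (Fin n)))} {j s t α μ : ℕ}
    (hs : 1 ≤ s) (ht : 1 ≤ t) (hα : 1 ≤ α) (hμ : 0 < μ)
    (hsub : ∀ l ∈ B, ∀ a ∈ l, #a = k) (hcard : ∀ l ∈ B, #l = s + 1)
    (htwo : ∀ l ∈ B, ∀ m ∈ B, ∀ a b, a ≠ b → a ∈ l → b ∈ l → a ∈ m → b ∈ m → l = m)
    (hcoll : ∀ a b : Finset (Fin n), #a = k → #b = k → (Coll B a b ↔ #(a ∩ b) = j))
    (hnbr : ∀ a : Finset (Fin n), #a = k → #{b ∈ Pts n k | #(a ∩ b) = j} = s * (t + 1))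
    (hanti : ∀ a : Finset (Fin n), #a = k → ∀ l ∈ B, a ∉ l →
      #{b ∈ l | #(a ∩ b) = j} = 0 ∨ #{b ∈ l | #(a ∩ b) = j} = α)
    (hnon : ∀ a b : Finset (Fin n), #a = k → #b = k → a ≠ b → #(a ∩ b) ≠ j →
      #{c ∈ Pts n k | #(a ∩ c) = j ∧ #(b ∩ c) = j} = μ) :
    IsSPG (Pts n k) B α s t μ where
  s_pos := hs
  t_pos := ht
  α_pos := hα
  μ_pos := hμ
  lines_sub := fun l hl a ha => mem_pts (hsub l hl a ha)
  two_points := htwo
  point_deg := by
    intro a ha
    have hak : #a = k := (mem_powersetCard.mp ha).2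
    have h1 : {b ∈ Pts n k | #(a ∩ b) = j} =
        ({l ∈ B | a ∈ l} : Finset _).biUnion (fun l => l.erase a) := by
      ext b
      rw [mem_filter, mem_biUnion]
      constructor
      · rintro ⟨hb, hab⟩
        obtain ⟨hne, l, hl, hal, hbl⟩ := (hcoll a b hak (mem_powersetCard.mp hb).2).mpr hab
        exact ⟨l, mem_filter.mpr ⟨hl, hal⟩, mem_erase.mpr ⟨hne.symm, hbl⟩⟩
      · rintro ⟨l, hl, hb⟩
        rw [mem_filter] at hl
        rw [mem_erase] at hb
        have hbk := hsub l hl.1 b hb.2
        exact ⟨mem_pts hbk, (hcoll a b hak hbk).mp ⟨hb.1.symm, l, hl.1, hl.2, hb.2⟩⟩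
    have h2 := hnbr a hak
    rw [h1, card_biUnion] at h2
    · have h3 : ∀ l ∈ ({l ∈ B | a ∈ l} : Finset _), #(l.erase a) = s := by
        intro l hl
        rw [mem_filter] at hl
        rw [card_erase_of_mem hl.2, hcard l hl.1]
        rfl
      rw [sum_congr rfl h3, sum_const, smul_eq_mul, mul_comm] at h2
      exact Nat.eq_of_mul_eq_mul_left (by omega) h2
    · intro l hl m hm hlm
      rw [Finset.mem_coe, mem_filter] at hl hm
      rw [Function.onFun, disjoint_left]
      intro b hb hb'
      rw [mem_erase] at hb hb'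
      exact hlm (htwo l hl.1 m hm.1 a b hb.1.symm hl.2 hb.2 hm.2 hb'.2)
  line_card := hcard
  antiflag := by
    intro a ha l hl hal
    have hak : #a = k := (mem_powersetCard.mp ha).2
    rw [card_coll_of htwo hl hal]
    have h1 : {b ∈ l | Coll B a b} = {b ∈ l | #(a ∩ b) = j} := by
      apply filter_congr
      intro b hb
      exact hcoll a b hak (hsub l hl b hb)
    rw [h1]
    exact hanti a hak l hl hal
  noncoll := by
    intro a ha b hb hab hn
    have hak : #a = k := (mem_powersetCard.mp ha).2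
    have hbk : #b = k := (mem_powersetCard.mp hb).2
    rw [hcoll a b hak hbk] at hn
    rw [← hnon a b hak hbk hab hn]
    congr 1
    apply filter_congr
    intro c hc
    have hck : #c = k := (mem_powersetCard.mp hc).2
    rw [hcoll a c hak hck, hcoll b c hbk hck]

/-- pairs with one element in each of two disjoint sets -/
theorem count_pair {n : ℕ} {S T : Finset (Fin n)} (hST : Disjoint S T) :
    #{c ∈ Pts n 2 | #(S ∩ c) = 1 ∧ #(T ∩ c) = 1} = #S * #T := by
  rw [← card_product]
  symm
  have hne : ∀ u ∈ S, ∀ v ∈ T, u ≠ v := fun u hu v hv h => disjoint_left.mp hST hu (h ▸ hv)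
  have hS : ∀ u ∈ S, ∀ v ∈ T, S ∩ {u, v} = {u} := by
    intro u hu v hv
    ext x
    simp only [mem_inter, mem_insert, mem_singleton]
    constructor
    · rintro ⟨hx, rfl | rfl⟩
      · rfl
      · exact absurd hv (disjoint_left.mp hST hx)
    · rintro rfl
      exact ⟨hu, Or.inl rfl⟩
  have hT : ∀ u ∈ S, ∀ v ∈ T, T ∩ {u, v} = {v} := by
    intro u hu v hv
    ext x
    simp only [mem_inter, mem_insert, mem_singleton]
    constructor
    · rintro ⟨hx, rfl | rfl⟩
      · exact absurd hx (disjoint_left.mp hST hu)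
      · rfl
    · rintro rfl
      exact ⟨hv, Or.inr rfl⟩
  apply card_bij (fun p _ => ({p.1, p.2} : Finset (Fin n)))
  · rintro ⟨u, v⟩ hp
    rw [mem_product] at hp
    rw [mem_filter, mem_powersetCard, hS u hp.1 v hp.2, hT u hp.1 v hp.2]
    exact ⟨⟨subset_univ _, card_pair (hne u hp.1 v hp.2)⟩, card_singleton _, card_singleton _⟩
  · rintro ⟨u, v⟩ hp ⟨u', v'⟩ hp' heq
    rw [mem_product] at hp hp'
    have heq' : ({u, v} : Finset (Fin n)) = {u', v'} := heq
    have h1 := hS u hp.1 v hp.2
    have h2 := hT u hp.1 v hp.2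
    rw [heq', hS u' hp'.1 v' hp'.2] at h1
    rw [heq', hT u' hp'.1 v' hp'.2] at h2
    rw [singleton_inj] at h1 h2
    rw [h1, h2]
  · intro c hc
    rw [mem_filter, mem_powersetCard] at hc
    obtain ⟨⟨-, h2⟩, h3, h4⟩ := hc
    obtain ⟨u, hu⟩ := card_eq_one.mp h3
    obtain ⟨v, hv⟩ := card_eq_one.mp h4
    have huS : u ∈ S ∩ c := by rw [hu]; exact mem_singleton_self u
    have hvT : v ∈ T ∩ c := by rw [hv]; exact mem_singleton_self v
    rw [mem_inter] at huS hvT
    refine ⟨(u, v), mem_product.mpr ⟨huS.1, hvT.1⟩, ?_⟩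
    apply eq_of_subset_of_card_le
    · intro x hx
      simp only [mem_insert, mem_singleton] at hx
      rcases hx with rfl | rfl
      · exact huS.2
      · exact hvT.2
    · rw [h2]
      exact (card_pair (hne u huS.1 v hvT.1)).ge

theorem inter_one_compl {n : ℕ} (a c : Finset (Fin n)) (hc : #c = 2) :
    #(a ∩ c) = 1 ↔ #(a ∩ c) = 1 ∧ #(aᶜ ∩ c) = 1 := by
  have h1 := card_sdiff_add_card_inter c a
  have h2 : c \ a = aᶜ ∩ c := by
    ext x
    simp only [mem_sdiff, mem_inter, mem_compl]
    tauto
  rw [h2, inter_comm c a] at h1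
  omega

theorem nbr_pair {n : ℕ} {a : Finset (Fin n)} (ha : #a = 2) :
    #{b ∈ Pts n 2 | #(a ∩ b) = 1} = 2 * (n - 2) := by
  have h1 : {b ∈ Pts n 2 | #(a ∩ b) = 1} = {c ∈ Pts n 2 | #(a ∩ c) = 1 ∧ #(aᶜ ∩ c) = 1} := by
    apply filter_congr
    intro c hc
    exact inter_one_compl a c (mem_powersetCard.mp hc).2
  rw [h1, count_pair disjoint_compl_right, card_compl, Fintype.card_fin, ha]

theorem common_pair {n : ℕ} {a b : Finset (Fin n)} (ha : #a = 2) (hb : #b = 2) (hab : a ≠ b)
    (h : #(a ∩ b) ≠ 1) : #{c ∈ Pts n 2 | #(a ∩ c) = 1 ∧ #(b ∩ c) = 1} = 4 := by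
  have h1 := inter_card_lt ha hb hab
  have h2 : #(a ∩ b) = 0 := by omega
  rw [card_eq_zero, ← disjoint_iff_inter_eq_empty] at h2
  rw [count_pair h2, ha, hb]

theorem star_card {n : ℕ} (x : Fin n) : #(star n x) = n - 1 := by
  have h1 : star n x = {c ∈ Pts n 2 | #({x} ∩ c) = 1 ∧ #({x}ᶜ ∩ c) = 1} := by
    ext c
    rw [star, mem_filter, mem_filter]
    constructor
    · rintro ⟨hc, hx⟩
      have h2 : #({x} ∩ c) = 1 := by
        rw [singleton_inter_of_mem hx, card_singleton]
      exact ⟨hc, (inter_one_compl {x} c (mem_powersetCard.mp hc).2).mp h2⟩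
    · rintro ⟨hc, h2, -⟩
      refine ⟨hc, ?_⟩
      by_contra hx
      rw [singleton_inter_of_notMem hx, card_empty] at h2
      omega
  rw [h1, count_pair disjoint_compl_right, card_compl, Fintype.card_fin, card_singleton]
  omega

/-- the dual of the complete graph is a semipartial geometry -/
theorem stars_spg {n : ℕ} (hn : 5 ≤ n) : IsSPG (Pts n 2) (stars n) 2 (n - 2) 1 4 := by
  have htwo : ∀ l ∈ stars n, ∀ m ∈ stars n, ∀ a b, a ≠ b → a ∈ l → b ∈ l → a ∈ m → b ∈ m →
      l = m := by
    intro l hl m hm a b hab hal hbl ham hbm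
    rw [stars, mem_image] at hl hm
    obtain ⟨x, -, rfl⟩ := hl
    obtain ⟨y, -, rfl⟩ := hm
    rw [star, mem_filter, mem_powersetCard] at hal hbl ham hbm
    have h1 := inter_card_lt hal.1.2 hbl.1.2 hab
    have h2 : #(a ∩ b) ≤ 1 := by omega
    rw [card_le_one] at h2
    rw [h2 x (mem_inter.mpr ⟨hal.2, hbl.2⟩) y (mem_inter.mpr ⟨ham.2, hbm.2⟩)]
  apply mk_spg (j := 1) (by omega) le_rfl (by norm_num) (by norm_num)
  · intro l hl a ha
    rw [stars, mem_image] at hl
    obtain ⟨x, -, rfl⟩ := hl
    rw [star, mem_filter, mem_powersetCard] at ha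
    exact ha.1.2
  · intro l hl
    rw [stars, mem_image] at hl
    obtain ⟨x, -, rfl⟩ := hl
    rw [star_card]
    omega
  · exact htwo
  · intro a b ha hb
    constructor
    · rintro ⟨hab, l, hl, hal, hbl⟩
      rw [stars, mem_image] at hl
      obtain ⟨x, -, rfl⟩ := hl
      rw [star, mem_filter] at hal hbl
      have h1 := inter_card_lt ha hb hab
      have h2 : 0 < #(a ∩ b) := card_pos.mpr ⟨x, mem_inter.mpr ⟨hal.2, hbl.2⟩⟩
      omega
    · intro h
      have h0 : 0 < #(a ∩ b) := by omega
      obtain ⟨x, hx⟩ := card_pos.mp h0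
      rw [mem_inter] at hx
      refine ⟨ne_of_inter_lt ha (by omega), star n x, mem_image.mpr ⟨x, mem_univ _, rfl⟩, ?_, ?_⟩
      · rw [star, mem_filter]
        exact ⟨mem_pts ha, hx.1⟩
      · rw [star, mem_filter]
        exact ⟨mem_pts hb, hx.2⟩
  · intro a ha
    rw [nbr_pair ha]
    ring
  · intro a ha l hl hal
    right
    rw [stars, mem_image] at hl
    obtain ⟨x, -, rfl⟩ := hl
    have hxa : x ∉ a := by
      intro h
      apply hal
      rw [star, mem_filter]
      exact ⟨mem_pts ha, h⟩
    have h1 : {b ∈ star n x | #(a ∩ b) = 1} = {c ∈ Pts n 2 | #({x} ∩ c) = 1 ∧ #(a ∩ c) = 1} := by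
      ext c
      rw [mem_filter, mem_filter, star, mem_filter]
      constructor
      · rintro ⟨⟨hc, hx⟩, h⟩
        exact ⟨hc, by rw [singleton_inter_of_mem hx, card_singleton], h⟩
      · rintro ⟨hc, h2, h⟩
        refine ⟨⟨hc, ?_⟩, h⟩
        by_contra hx
        rw [singleton_inter_of_notMem hx, card_empty] at h2
        omega
    rw [h1, count_pair (by rw [disjoint_singleton_left]; exact hxa), card_singleton, ha]
  · intro a b ha hb hab h
    exact common_pair ha hb hab h

/-- `U_{2,3}(n)` is a semipartial geometry -/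
theorem triangles_spg {n : ℕ} (hn : 5 ≤ n) : IsSPG (Pts n 2) (triangles n) 2 2 (n - 3) 4 := by
  have hunion : ∀ T a b : Finset (Fin n), #T = 3 → #a = 2 → #b = 2 → a ≠ b → a ⊆ T → b ⊆ T →
      a ∪ b = T := by
    intro T a b hT ha hb hab haT hbT
    apply eq_of_subset_of_card_le (union_subset haT hbT)
    have h1 := inter_card_lt ha hb hab
    have h2 := card_union_add_card_inter a b
    omega
  apply mk_spg (j := 1) (by norm_num) (by omega) (by norm_num) (by norm_num)
  · intro l hl a ha
    rw [triangles, mem_image] at hl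
    obtain ⟨T, -, rfl⟩ := hl
    exact (mem_powersetCard.mp ha).2
  · intro l hl
    rw [triangles, mem_image] at hl
    obtain ⟨T, hT, rfl⟩ := hl
    rw [mem_powersetCard] at hT
    rw [card_powersetCard, hT.2]
    decide
  · intro l hl m hm a b hab hal hbl ham hbm
    rw [triangles, mem_image] at hl hm
    obtain ⟨T, hT, rfl⟩ := hl
    obtain ⟨T', hT', rfl⟩ := hm
    rw [mem_powersetCard] at hT hT' hal hbl ham hbm
    rw [← hunion T a b hT.2 hal.2 hbl.2 hab hal.1 hbl.1,
      ← hunion T' a b hT'.2 hal.2 hbl.2 hab ham.1 hbm.1]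
  · intro a b ha hb
    constructor
    · rintro ⟨hab, l, hl, hal, hbl⟩
      rw [triangles, mem_image] at hl
      obtain ⟨T, hT, rfl⟩ := hl
      rw [mem_powersetCard] at hT hal hbl
      have h1 := hunion T a b hT.2 ha hb hab hal.1 hbl.1
      have h2 := card_union_add_card_inter a b
      rw [h1] at h2
      omega
    · intro h
      have h2 := card_union_add_card_inter a b
      refine ⟨ne_of_inter_lt ha (by omega), powersetCard 2 (a ∪ b), ?_, ?_, ?_⟩
      · rw [triangles, mem_image]
        refine ⟨a ∪ b, ?_, rfl⟩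
        rw [mem_powersetCard]
        exact ⟨subset_univ _, by omega⟩
      · rw [mem_powersetCard]
        exact ⟨subset_union_left, ha⟩
      · rw [mem_powersetCard]
        exact ⟨subset_union_right, hb⟩
  · intro a ha
    rw [nbr_pair ha]
    congr 1
    omega
  · intro a ha l hl hal
    rw [triangles, mem_image] at hl
    obtain ⟨T, hT, rfl⟩ := hl
    rw [mem_powersetCard] at hT hal
    have haT : ¬ a ⊆ T := fun h => hal ⟨h, ha⟩
    have h1 : #(a ∩ T) < 2 := by
      by_contra h
      push Not at h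
      apply haT
      have h2 : a ∩ T = a := eq_of_subset_of_card_le inter_subset_left (by omega)
      rw [← h2]
      exact inter_subset_right
    by_cases h0 : #(a ∩ T) = 0
    · left
      rw [card_eq_zero, filter_eq_empty_iff]
      intro b hb hab
      rw [mem_powersetCard] at hb
      have h2 : #(a ∩ b) ≤ #(a ∩ T) := card_le_card (inter_subset_inter_left hb.1)
      omega
    · right
      have h2 : #(a ∩ T) = 1 := by omega
      obtain ⟨u, hu⟩ := card_eq_one.mp h2
      have huT : u ∈ a ∩ T := by rw [hu]; exact mem_singleton_self u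
      rw [mem_inter] at huT
      have h3 : {b ∈ powersetCard 2 T | #(a ∩ b) = 1} =
          {c ∈ Pts n 2 | #({u} ∩ c) = 1 ∧ #(T.erase u ∩ c) = 1} := by
        ext c
        rw [mem_filter, mem_filter, mem_powersetCard, mem_powersetCard]
        constructor
        · rintro ⟨⟨hcT, hc⟩, h⟩
          have huc : u ∈ c := by
            by_contra huc
            have : a ∩ c = ∅ := by
              rw [← disjoint_iff_inter_eq_empty, disjoint_left]
              intro x hx hxc
              have h4 : x ∈ a ∩ T := mem_inter.mpr ⟨hx, hcT hxc⟩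
              rw [hu, mem_singleton] at h4
              exact huc (h4 ▸ hxc)
            rw [this, card_empty] at h
            omega
          refine ⟨⟨subset_univ _, hc⟩, by rw [singleton_inter_of_mem huc, card_singleton], ?_⟩
          have h5 : T.erase u ∩ c = c.erase u := by
            ext x
            simp only [mem_inter, mem_erase]
            constructor
            · rintro ⟨⟨h6, -⟩, h7⟩
              exact ⟨h6, h7⟩
            · rintro ⟨h6, h7⟩
              exact ⟨⟨h6, hcT h7⟩, h7⟩
          rw [h5, card_erase_of_mem huc, hc]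
        · rintro ⟨⟨-, hc⟩, h4, h5⟩
          have huc : u ∈ c := by
            by_contra huc
            rw [singleton_inter_of_notMem huc, card_empty] at h4
            omega
          obtain ⟨v, hv⟩ := card_eq_one.mp h5
          have hvc : v ∈ T.erase u ∩ c := by rw [hv]; exact mem_singleton_self v
          rw [mem_inter, mem_erase] at hvc
          have hceq : c = {u, v} := by
            symm
            apply eq_of_subset_of_card_le
            · intro x hx
              rw [mem_insert, mem_singleton] at hx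
              rcases hx with rfl | rfl
              · exact huc
              · exact hvc.2
            · rw [hc, card_pair hvc.1.1.symm]
          have hcT : c ⊆ T := by
            rw [hceq]
            intro x hx
            rw [mem_insert, mem_singleton] at hx
            rcases hx with rfl | rfl
            · exact huT.2
            · exact hvc.1.2
          refine ⟨⟨hcT, hc⟩, ?_⟩
          have h6 : a ∩ c = {u} := by
            apply Finset.Subset.antisymm
            · rw [← hu]
              exact inter_subset_inter_left hcT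
            · rw [singleton_subset_iff, mem_inter]
              exact ⟨huT.1, huc⟩
          rw [h6, card_singleton]
      rw [h3, count_pair (by rw [disjoint_singleton_left]; simp), card_singleton,
        card_erase_of_mem huT.2, hT.2]
  · intro a b ha hb hab h
    exact common_pair ha hb hab h

end Pool.Agent.Helper29.FT
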