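import Pool.Agent.Helper29.FT.Conv

/-!
# The examples: flag-transitivity, and the Petersen graph and the generalized quadrangle
-/

open Finset Pointwise

set_option linter.unusedSectionVars false

namespace Pool.Agent.Helper29.FT

section

variable {n : ℕ} {G : Subgroup (Equiv.Perm (Fin n))}

theorem stars_flag (hn : 5 ≤ n) (hG : alternatingGroup (Fin n) ≤ G) :
    FlagTransitive G (stars n) where
  aut := by
    intro g _ l hl
    rw [stars, mem_image] at hl
    obtain ⟨x, -, rfl⟩ := hl
    rw [smul_star, stars, mem_image]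
    exact ⟨g x, mem_univ _, rfl⟩
  flag := by
    intro l hl a ha m hm b hb
    rw [stars, mem_image] at hl hm
    obtain ⟨x, -, rfl⟩ := hl
    obtain ⟨y, -, rfl⟩ := hm
    rw [star, mem_filter, mem_powersetCard] at ha hb
    obtain ⟨g, hg, h1, h2⟩ := pair_transitive (by rw [Fintype.card_fin]; exact hn)
      {x} a {y} b rfl (ha.1.2.trans hb.1.2.symm)
      (by rw [singleton_inter_of_mem ha.2, singleton_inter_of_mem hb.2, card_singleton,
        card_singleton])
    refine ⟨g, hG hg, h2, ?_⟩
    have h3 : g • x ∈ g • ({x} : Finset (Fin n)) := smul_mem_smul_finset (mem_singleton_self x)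
    rw [h1, mem_singleton] at h3
    rw [smul_star, ← h3]
    rfl

theorem triangles_flag (hn : 5 ≤ n) (hG : alternatingGroup (Fin n) ≤ G) :
    FlagTransitive G (triangles n) where
  aut := by
    intro g _ l hl
    rw [triangles, mem_image] at hl
    obtain ⟨T, hT, rfl⟩ := hl
    rw [mem_powersetCard] at hT
    rw [smul_powersetCard, triangles, mem_image]
    refine ⟨g • T, ?_, rfl⟩
    rw [mem_powersetCard, card_smul_finset]
    exact ⟨subset_univ _, hT.2⟩
  flag := by
    intro l hl a ha m hm b hb
    rw [triangles, mem_image] at hl hm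
    obtain ⟨T, hT, rfl⟩ := hl
    obtain ⟨S, hS, rfl⟩ := hm
    rw [mem_powersetCard] at hT hS ha hb
    obtain ⟨g, hg, h1, h2⟩ := pair_transitive (by rw [Fintype.card_fin]; exact hn)
      T a S b (hT.2.trans hS.2.symm) (ha.2.trans hb.2.symm)
      (by rw [inter_eq_right.mpr ha.1, inter_eq_right.mpr hb.1, ha.2, hb.2])
    exact ⟨g, hG hg, h2, by rw [smul_powersetCard, h1]⟩

theorem mem_matchings {m : ℕ} {l : Finset (Finset (Fin n))} :
    l ∈ matchings n m ↔ (∀ a ∈ l, #a = 2) ∧ #l = m ∧
      ∀ a ∈ l, ∀ b ∈ l, a ≠ b → Disjoint a b := by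
  rw [matchings, mem_filter, mem_powersetCard]
  constructor
  · rintro ⟨⟨h1, h2⟩, h3⟩
    exact ⟨fun a ha => (mem_powersetCard.mp (h1 ha)).2, h2, h3⟩
  · rintro ⟨h1, h2, h3⟩
    exact ⟨⟨fun a ha => mem_pts (h1 a ha), h2⟩, h3⟩

theorem nonlinear_of {B : Finset (Finset (Finset (Fin n)))} {k j j' : ℕ} (hkn : 2 * k ≤ n)
    (hj : j' < k) (hjj : j' ≠ j)
    (hcoll : ∀ a b : Finset (Fin n), #a = k → #b = k → (Coll B a b ↔ #(a ∩ b) = j)) :
    NonLinear (Pts n k) B := by
  obtain ⟨a, b, ha, hb, hab⟩ := exists_inter (Ω := Fin n) (k := k) (j := j')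
    (by rw [Fintype.card_fin]; exact hkn) hj.le
  refine ⟨a, mem_pts ha, b, mem_pts hb, ne_of_inter_lt ha (by omega), ?_⟩
  rw [hcoll a b ha hb, hab]
  exact hjj

theorem stars_nonlinear (hn : 5 ≤ n) : NonLinear (Pts n 2) (stars n) := by
  obtain ⟨a, b, ha, hb, hab⟩ := exists_inter (Ω := Fin n) (k := 2) (j := 0)
    (by rw [Fintype.card_fin]; omega) (by norm_num)
  refine ⟨a, mem_pts ha, b, mem_pts hb, ne_of_inter_lt ha (by omega), ?_⟩
  rintro ⟨-, l, hl, hal, hbl⟩
  rw [stars, mem_image] at hl
  obtain ⟨x, -, rfl⟩ := hl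
  rw [star, mem_filter] at hal hbl
  have : 0 < #(a ∩ b) := card_pos.mpr ⟨x, mem_inter.mpr ⟨hal.2, hbl.2⟩⟩
  omega

theorem triangles_nonlinear (hn : 5 ≤ n) : NonLinear (Pts n 2) (triangles n) := by
  obtain ⟨a, b, ha, hb, hab⟩ := exists_inter (Ω := Fin n) (k := 2) (j := 0)
    (by rw [Fintype.card_fin]; omega) (by norm_num)
  refine ⟨a, mem_pts ha, b, mem_pts hb, ne_of_inter_lt ha (by omega), ?_⟩
  rintro ⟨-, l, hl, hal, hbl⟩
  rw [triangles, mem_image] at hl
  obtain ⟨T, hT, rfl⟩ := hl
  rw [mem_powersetCard] at hT hal hbl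
  have h1 := card_le_card (union_subset hal.1 hbl.1)
  have h2 := card_union_add_card_inter a b
  omega

/-- counting sets disjoint from two sets -/
theorem disj_count {a b : Finset (Fin n)} :
    #{c ∈ Pts n 2 | #(a ∩ c) = 0 ∧ #(b ∩ c) = 0} = (n - #(a ∪ b)).choose 2 := by
  have h1 : {c ∈ Pts n 2 | #(a ∩ c) = 0 ∧ #(b ∩ c) = 0} = powersetCard 2 (a ∪ b)ᶜ := by
    ext d
    simp only [mem_filter, mem_powersetCard]
    constructor
    · rintro ⟨⟨-, hd⟩, h1, h2⟩
      rw [card_eq_zero, ← disjoint_iff_inter_eq_empty] at h1 h2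
      refine ⟨?_, hd⟩
      intro x hx
      rw [mem_compl, mem_union, not_or]
      exact ⟨fun h => disjoint_left.mp h1 h hx, fun h => disjoint_left.mp h2 h hx⟩
    · rintro ⟨hsub, hd⟩
      refine ⟨⟨subset_univ _, hd⟩, ?_, ?_⟩
      · rw [card_eq_zero, ← disjoint_iff_inter_eq_empty, disjoint_left]
        intro x hx hx'
        have := hsub hx'
        rw [mem_compl, mem_union, not_or] at this
        exact this.1 hx
      · rw [card_eq_zero, ← disjoint_iff_inter_eq_empty, disjoint_left]
        intro x hx hx'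
        have := hsub hx'
        rw [mem_compl, mem_union, not_or] at this
        exact this.2 hx
  rw [h1, card_powersetCard, card_compl, Fintype.card_fin]

/-! ### The Petersen graph -/

theorem petersen_coll (a b : Finset (Fin n)) (ha : #a = 2) (hb : #b = 2) :
    Coll (matchings n 2) a b ↔ #(a ∩ b) = 0 := by
  constructor
  · rintro ⟨hab, l, hl, hal, hbl⟩
    rw [mem_matchings] at hl
    rw [card_eq_zero, ← disjoint_iff_inter_eq_empty]
    exact hl.2.2 a hal b hbl hab
  · intro h
    have hab : a ≠ b := ne_of_inter_lt ha (by omega)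
    rw [card_eq_zero, ← disjoint_iff_inter_eq_empty] at h
    refine ⟨hab, {a, b}, ?_, by simp, by simp⟩
    rw [mem_matchings]
    refine ⟨?_, card_pair hab, ?_⟩
    · intro c hc
      rw [mem_insert, mem_singleton] at hc
      rcases hc with rfl | rfl
      · exact ha
      · exact hb
    · intro c hc d hd hcd
      rw [mem_insert, mem_singleton] at hc hd
      rcases hc with rfl | rfl <;> rcases hd with rfl | rfl
      · exact absurd rfl hcd
      · exact h
      · exact h.symm
      · exact absurd rfl hcd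

theorem petersen_spg (hn : n = 5) : IsSPG (Pts n 2) (matchings n 2) 1 1 2 1 := by
  apply mk_spg (j := 0) le_rfl (by norm_num) le_rfl (by norm_num)
  · intro l hl
    exact (mem_matchings.mp hl).1
  · intro l hl
    exact (mem_matchings.mp hl).2.1
  · intro l hl m hm a b hab hal hbl ham hbm
    have h1 : ∀ l ∈ matchings n 2, a ∈ l → b ∈ l → l = {a, b} := by
      intro l hl hal hbl
      symm
      apply eq_of_subset_of_card_le
      · intro x hx
        rw [mem_insert, mem_singleton] at hx
        rcases hx with rfl | rfl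
        · exact hal
        · exact hbl
      · rw [(mem_matchings.mp hl).2.1, card_pair hab]
    rw [h1 l hl hal hbl, h1 m hm ham hbm]
  · exact petersen_coll
  · intro a ha
    have h1 : {b ∈ Pts n 2 | #(a ∩ b) = 0} =
        {b ∈ Pts n 2 | #(a ∩ b) = 0 ∧ #(a ∩ b) = 0} := by
      apply filter_congr
      intro b _
      simp
    rw [h1, disj_count, union_self, ha, hn]
    decide
  · intro a ha l hl hal
    rw [mem_matchings] at hl
    have h1 : #{b ∈ l | #(a ∩ b) = 0} ≤ 1 := by
      rw [card_le_one]
      intro b hb c hc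
      rw [mem_filter] at hb hc
      by_contra hbc
      have h2 := hl.2.2 b hb.1 c hc.1 hbc
      have h3 := hl.1 b hb.1
      have h4 := hl.1 c hc.1
      have h5 := hb.2
      have h6 := hc.2
      rw [card_eq_zero, ← disjoint_iff_inter_eq_empty] at h5 h6
      have h7 : #(a ∪ (b ∪ c)) = 6 := by
        rw [card_union_of_disjoint, card_union_of_disjoint h2, ha, h3, h4]
        rw [disjoint_union_right]
        exact ⟨h5, h6⟩
      have h8 := card_le_univ (a ∪ (b ∪ c))
      rw [Fintype.card_fin] at h8
      omega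
    omega
  · intro a b ha hb hab h
    rw [disj_count]
    have h1 := inter_card_lt ha hb hab
    have h2 := card_union_add_card_inter a b
    have h3 : #(a ∪ b) = 3 := by omega
    rw [h3, hn]
    decide

theorem petersen_flag (hn : n = 5) (hG : alternatingGroup (Fin n) ≤ G) :
    FlagTransitive G (matchings n 2) where
  aut := fun g _ l hl => smul_matching g hl
  flag := by
    have key : ∀ l ∈ matchings n 2, ∀ a ∈ l, ∃ b, l = {a, b} ∧ #a = 2 ∧ #b = 2 ∧
        #(a ∩ b) = 0 := by
      intro l hl a ha
      rw [mem_matchings] at hl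
      have h1 : 1 < #l := by omega
      obtain ⟨b, hb, hba⟩ := exists_mem_ne h1 a
      refine ⟨b, ?_, hl.1 a ha, hl.1 b hb, ?_⟩
      · symm
        apply eq_of_subset_of_card_le
        · intro x hx
          rw [mem_insert, mem_singleton] at hx
          rcases hx with rfl | rfl
          · exact ha
          · exact hb
        · rw [hl.2.1, card_pair hba.symm]
      · rw [card_eq_zero, ← disjoint_iff_inter_eq_empty]
        exact hl.2.2 a ha b hb hba.symm
    intro l hl a ha m hm b hb
    obtain ⟨a', h1, h2, h3, h4⟩ := key l hl a ha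
    obtain ⟨b', k1, k2, k3, k4⟩ := key m hm b hb
    obtain ⟨g, hg, g1, g2⟩ := pair_transitive (by rw [Fintype.card_fin]; omega)
      a a' b b' (h2.trans k2.symm) (h3.trans k3.symm) (h4.trans k4.symm)
    refine ⟨g, hG hg, g1, ?_⟩
    rw [h1, k1, smul_finset_insert, smul_finset_singleton, g1, g2]

/-! ### The generalized quadrangle of order two -/

theorem w2_third (hn : n = 6) {a b : Finset (Fin n)} (ha : #a = 2) (hb : #b = 2)
    (hab : Disjoint a b) : #(a ∪ b)ᶜ = 2 := by
  rw [card_compl, Fintype.card_fin, card_union_of_disjoint hab]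
  omega

theorem w2_line (hn : n = 6) {a b : Finset (Fin n)} (hab : a ≠ b)
    {l : Finset (Finset (Fin n))} (hl : l ∈ matchings n 3) (hal : a ∈ l) (hbl : b ∈ l) :
    l = {a, b, (a ∪ b)ᶜ} := by
  rw [mem_matchings] at hl
  have ha := hl.1 a hal
  have hb := hl.1 b hbl
  have hdis := hl.2.2 a hal b hbl hab
  obtain ⟨c, hc, hca, hcb⟩ : ∃ c ∈ l, c ≠ a ∧ c ≠ b := by
    by_contra hcon
    push Not at hcon
    have : l ⊆ {a, b} := by
      intro e he
      rw [mem_insert, mem_singleton]
      by_cases h : e = a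
      · exact Or.inl h
      · exact Or.inr (hcon e he h)
    have h1 := card_le_card this
    have h2 := Finset.card_le_two (a := a) (b := b)
    omega
  have h1 := hl.2.2 a hal c hc hca.symm
  have h2 := hl.2.2 b hbl c hc hcb.symm
  have hceq : c = (a ∪ b)ᶜ := by
    apply eq_of_subset_of_card_le
    · intro x hx
      rw [mem_compl, mem_union, not_or]
      exact ⟨fun h => disjoint_left.mp h1 h hx, fun h => disjoint_left.mp h2 h hx⟩
    · rw [w2_third hn ha hb hdis, hl.1 c hc]
  symm
  apply eq_of_subset_of_card_le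
  · intro x hx
    rw [mem_insert, mem_insert, mem_singleton] at hx
    rcases hx with rfl | rfl | rfl
    · exact hal
    · exact hbl
    · rw [← hceq]
      exact hc
  · rw [hl.2.1, ← hceq, card_insert_of_notMem (by
      rw [mem_insert, mem_singleton, not_or]
      exact ⟨hab, hca.symm⟩), card_pair hcb.symm]

theorem w2_coll (hn : n = 6) (a b : Finset (Fin n)) (ha : #a = 2) (hb : #b = 2) :
    Coll (matchings n 3) a b ↔ #(a ∩ b) = 0 := by
  constructor
  · rintro ⟨hab, l, hl, hal, hbl⟩
    rw [mem_matchings] at hl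
    rw [card_eq_zero, ← disjoint_iff_inter_eq_empty]
    exact hl.2.2 a hal b hbl hab
  · intro h
    have hab : a ≠ b := ne_of_inter_lt ha (by omega)
    rw [card_eq_zero, ← disjoint_iff_inter_eq_empty] at h
    have hc := w2_third hn ha hb h
    have d1 : Disjoint a (a ∪ b)ᶜ :=
      disjoint_of_subset_left subset_union_left disjoint_compl_right
    have d2 : Disjoint b (a ∪ b)ᶜ :=
      disjoint_of_subset_left subset_union_right disjoint_compl_right
    have n1 : a ≠ (a ∪ b)ᶜ := by
      intro h1
      rw [← h1, disjoint_self_iff_empty] at d1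
      rw [d1, card_empty] at ha
      omega
    have n2 : b ≠ (a ∪ b)ᶜ := by
      intro h1
      rw [← h1, disjoint_self_iff_empty] at d2
      rw [d2, card_empty] at hb
      omega
    refine ⟨hab, {a, b, (a ∪ b)ᶜ}, ?_, by simp, by simp⟩
    rw [mem_matchings]
    refine ⟨?_, ?_, ?_⟩
    · intro c hc'
      rw [mem_insert, mem_insert, mem_singleton] at hc'
      rcases hc' with rfl | rfl | rfl
      · exact ha
      · exact hb
      · exact hc
    · rw [card_insert_of_notMem (by
        rw [mem_insert, mem_singleton, not_or]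
        exact ⟨hab, n1⟩), card_pair n2]
    · intro c hc' d hd hcd
      rw [mem_insert, mem_insert, mem_singleton] at hc' hd
      rcases hc' with rfl | rfl | rfl <;> rcases hd with rfl | rfl | rfl
      · exact absurd rfl hcd
      · exact h
      · exact d1
      · exact h.symm
      · exact absurd rfl hcd
      · exact d2
      · exact d1.symm
      · exact d2.symm
      · exact absurd rfl hcd

theorem w2_spg (hn : n = 6) : IsSPG (Pts n 2) (matchings n 3) 1 2 2 3 := by
  apply mk_spg (j := 0) (by norm_num) (by norm_num) le_rfl (by norm_num)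
  · intro l hl
    exact (mem_matchings.mp hl).1
  · intro l hl
    exact (mem_matchings.mp hl).2.1
  · intro l hl m hm a b hab hal hbl ham hbm
    rw [w2_line hn hab hl hal hbl, w2_line hn hab hm ham hbm]
  · exact w2_coll hn
  · intro a ha
    have h1 : {b ∈ Pts n 2 | #(a ∩ b) = 0} =
        {b ∈ Pts n 2 | #(a ∩ b) = 0 ∧ #(a ∩ b) = 0} := by
      apply filter_congr
      intro b _
      simp
    rw [h1, disj_count, union_self, ha, hn]
    decide
  · intro a ha l hl hal
    have h1 : #{b ∈ l | #(a ∩ b) = 0} ≤ 1 := by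
      rw [card_le_one]
      intro b hb c hc
      rw [mem_filter] at hb hc
      by_contra hbc
      have hlbc := w2_line hn hbc hl hb.1 hc.1
      rw [mem_matchings] at hl
      have h3 := hl.1 b hb.1
      have h4 := hl.1 c hc.1
      have h2 := hl.2.2 b hb.1 c hc.1 hbc
      have h5 := hb.2
      have h6 := hc.2
      rw [card_eq_zero, ← disjoint_iff_inter_eq_empty] at h5 h6
      apply hal
      rw [hlbc, mem_insert, mem_insert, mem_singleton]
      right; right
      apply eq_of_subset_of_card_le
      · intro x hx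
        rw [mem_compl, mem_union, not_or]
        exact ⟨disjoint_left.mp h5 hx, disjoint_left.mp h6 hx⟩
      · rw [w2_third hn h3 h4 h2, ha]
    omega
  · intro a b ha hb hab h
    rw [disj_count]
    have h1 := inter_card_lt ha hb hab
    have h2 := card_union_add_card_inter a b
    have h3 : #(a ∪ b) = 3 := by omega
    rw [h3, hn]
    decide

theorem w2_flag (hn : n = 6) (hG : alternatingGroup (Fin n) ≤ G) :
    FlagTransitive G (matchings n 3) where
  aut := fun g _ l hl => smul_matching g hl
  flag := by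
    have key : ∀ l ∈ matchings n 3, ∀ a ∈ l, ∃ b, l = {a, b, (a ∪ b)ᶜ} ∧ #a = 2 ∧ #b = 2 ∧
        #(a ∩ b) = 0 := by
      intro l hl a ha
      have hl' := mem_matchings.mp hl
      have h1 : 1 < #l := by omega
      obtain ⟨b, hb, hba⟩ := exists_mem_ne h1 a
      refine ⟨b, w2_line hn hba.symm hl ha hb, hl'.1 a ha, hl'.1 b hb, ?_⟩
      rw [card_eq_zero, ← disjoint_iff_inter_eq_empty]
      exact hl'.2.2 a ha b hb hba.symm
    intro l hl a ha m hm b hb
    obtain ⟨a', h1, h2, h3, h4⟩ := key l hl a ha
    obtain ⟨b', k1, k2, k3, k4⟩ := key m hm b hb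
    obtain ⟨g, hg, g1, g2⟩ := pair_transitive (by rw [Fintype.card_fin]; omega)
      a a' b b' (h2.trans k2.symm) (h3.trans k3.symm) (h4.trans k4.symm)
    refine ⟨g, hG hg, g1, ?_⟩
    have g3 : g • (a ∪ a')ᶜ = (b ∪ b')ᶜ := by
      rw [← g1, ← g2, ← smul_finset_union, smul_eq_iff]
      intro z
      rw [mem_compl, mem_compl, mem_smul_perm]
    rw [h1, k1, smul_finset_insert, smul_finset_insert, smul_finset_singleton, g1, g2, g3]

end

end Pool.Agent.Helper29.FT
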