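import Mathlib

/-!
# Semipartial geometries and flag-transitive groups: definitions
(MP_cc38df_co)
-/

open Finset Pointwise

namespace Pool.Agent.Helper29.FT

/-- Two points are collinear: they are distinct and some line contains both. -/
def Coll {V : Type*} (B : Finset (Finset V)) (a b : V) : Prop :=
  a ≠ b ∧ ∃ l ∈ B, a ∈ l ∧ b ∈ l

instance {V : Type*} [DecidableEq V] (B : Finset (Finset V)) (a b : V) :
    Decidable (Coll B a b) := by
  unfold Coll
  infer_instance

/-- `(P, B)` is a semipartial geometry with parameters `(α, s, t, μ)`. -/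
structure IsSPG {V : Type*} [DecidableEq V] (P : Finset V) (B : Finset (Finset V))
    (α s t μ : ℕ) : Prop where
  s_pos : 1 ≤ s
  t_pos : 1 ≤ t
  α_pos : 1 ≤ α
  μ_pos : 0 < μ
  lines_sub : ∀ l ∈ B, l ⊆ P
  two_points : ∀ l ∈ B, ∀ m ∈ B, ∀ a b, a ≠ b → a ∈ l → b ∈ l → a ∈ m → b ∈ m → l = m
  point_deg : ∀ a ∈ P, #{l ∈ B | a ∈ l} = t + 1
  line_card : ∀ l ∈ B, #l = s + 1
  antiflag : ∀ a ∈ P, ∀ l ∈ B, a ∉ l →
    #{m ∈ B | a ∈ m ∧ (m ∩ l).Nonempty} = 0 ∨ #{m ∈ B | a ∈ m ∧ (m ∩ l).Nonempty} = α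
  noncoll : ∀ a ∈ P, ∀ b ∈ P, a ≠ b → ¬ Coll B a b →
    #{c ∈ P | Coll B a c ∧ Coll B b c} = μ

/-- The permutation group `G` on `Ω` acts (through its action on subsets of `Ω`) as a
flag-transitive group of automorphisms of the incidence structure whose points are certain
subsets of `Ω` and whose line set is `B`. -/
structure FlagTransitive {Ω : Type*} [DecidableEq Ω] (G : Subgroup (Equiv.Perm Ω))
    (B : Finset (Finset (Finset Ω))) : Prop where
  aut : ∀ g ∈ G, ∀ l ∈ B, g • l ∈ B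
  flag : ∀ l ∈ B, ∀ a ∈ l, ∀ m ∈ B, ∀ b ∈ m, ∃ g ∈ G, g • a = b ∧ g • l = m

/-- The points: all `k`-subsets of `Fin n`. -/
abbrev Pts (n k : ℕ) : Finset (Finset (Fin n)) := powersetCard k univ

/-- The geometry `B` is proper (not a linear space): some two points are not collinear. -/
def NonLinear {V : Type*} (P : Finset V) (B : Finset (Finset V)) : Prop :=
  ∃ a ∈ P, ∃ b ∈ P, a ≠ b ∧ ¬ Coll B a b

end Pool.Agent.Helper29.FT
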