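import Pool.Agent.Helper29.FT.Excl

/-!
# Exclusion of the blown up triangles and sunflowers
-/

open Finset Pointwise

set_option linter.unusedSectionVars false

namespace Pool.Agent.Helper29.FT

section Sub

variable {n k : ℕ} {α s t μ : ℕ} {B : Finset (Finset (Finset (Fin n)))}
  {G : Subgroup (Equiv.Perm (Fin n))}

theorem inter_union_union {A B C : Finset (Fin n)} (hBC : Disjoint B C) :
    (A ∪ B) ∩ (A ∪ C) = A := by
  ext x
  simp only [mem_inter, mem_union]
  constructor
  · rintro ⟨h1, h2⟩
    rcases h1 with h1 | h1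
    · exact h1
    · rcases h2 with h2 | h2
      · exact h2
      · exact absurd h2 (disjoint_left.mp hBC h1)
  · intro h
    exact ⟨Or.inl h, Or.inl h⟩

/-- blown up triangles occur only for `k = 2` -/
theorem t3_excl (hn : 5 ≤ n) (hk2 : 2 ≤ k) (hkn : 2 * k ≤ n)
    (hG : alternatingGroup (Fin n) ≤ G) (hS : IsSPG (Pts n k) B α s t μ)
    (hF : FlagTransitive G B) {l : Finset (Finset (Fin n))} (hl : l ∈ B) (h3 : IsT3 k l) :
    ∃ Y : Finset (Fin n), #Y = k + 1 ∧ l = powersetCard k Y := by
  obtain ⟨X, Y, Z, dXY, dXZ, dYZ, cY, cZ, hk, rfl⟩ := h3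
  have e1 : (X ∪ Y) ∩ (X ∪ Z) = X := inter_union_union dYZ
  have e2 : (X ∪ Y) ∩ (Y ∪ Z) = Y := by
    rw [union_comm X Y]
    exact inter_union_union dXZ
  have e3 : (X ∪ Z) ∩ (Y ∪ Z) = Z := by
    rw [union_comm X Z, union_comm Y Z]
    exact inter_union_union dXY
  by_cases hX : #X = 1
  · -- k = 2
    refine ⟨X ∪ Y ∪ Z, ?_, ?_⟩
    · rw [card_union_of_disjoint, card_union_of_disjoint dXY]
      · omega
      · rw [disjoint_union_left]
        exact ⟨dXZ, dYZ⟩
    · apply eq_of_subset_of_card_le
      · intro f hf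
        rw [mem_insert, mem_insert, mem_singleton] at hf
        rw [mem_powersetCard]
        rcases hf with rfl | rfl | rfl
        · refine ⟨subset_union_left, ?_⟩
          rw [card_union_of_disjoint dXY]
          omega
        · refine ⟨?_, ?_⟩
          · intro x hx
            simp only [mem_union] at hx ⊢
            tauto
          · rw [card_union_of_disjoint dXZ]
            omega
        · refine ⟨?_, ?_⟩
          · intro x hx
            simp only [mem_union] at hx ⊢
            tauto
          · rw [card_union_of_disjoint dYZ]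
            omega
      · have hYne : Y.Nonempty := by rw [← card_pos]; omega
        have hXne : X.Nonempty := by rw [← card_pos]; omega
        have hZne : Z.Nonempty := by rw [← card_pos]; omega
        have n1 : X ∪ Y ≠ X ∪ Z := by
          intro h
          rw [h, inter_self] at e1
          obtain ⟨z, hz⟩ := hZne
          have : z ∈ X := by rw [← e1]; exact mem_union_right _ hz
          exact disjoint_left.mp dXZ this hz
        have n2 : X ∪ Y ≠ Y ∪ Z := by
          intro h
          rw [← h, inter_self] at e2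
          obtain ⟨z, hz⟩ := hXne
          have : z ∈ Y := by rw [← e2]; exact mem_union_left _ hz
          exact disjoint_left.mp dXY hz this
        have n3 : X ∪ Z ≠ Y ∪ Z := by
          intro h
          rw [← h, inter_self] at e3
          obtain ⟨z, hz⟩ := hXne
          have : z ∈ Z := by rw [← e3]; exact mem_union_left _ hz
          exact disjoint_left.mp dXZ hz this
        rw [card_insert_of_notMem (by
          rw [mem_insert, mem_singleton, not_or]
          exact ⟨n1, n2⟩), card_pair n3, card_powersetCard, card_union_of_disjoint,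
          card_union_of_disjoint dXY, cY, cZ, hX, hk, hX]
        · decide
        · rw [disjoint_union_left]
          exact ⟨dXZ, dYZ⟩
  · exfalso
    have hi : 2 ≤ #X := by omega
    have hconst : ∀ a ∈ ({X ∪ Y, X ∪ Z, Y ∪ Z} : Finset (Finset (Fin n))),
        ∀ b ∈ ({X ∪ Y, X ∪ Z, Y ∪ Z} : Finset (Finset (Fin n))), a ≠ b → #(a ∩ b) = #X := by
      intro a ha b hb hab
      rw [mem_insert, mem_insert, mem_singleton] at ha hb
      rcases ha with rfl | rfl | rfl <;> rcases hb with rfl | rfl | rfl
      · exact absurd rfl hab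
      · rw [e1]
      · rw [e2, cY]
      · rw [inter_comm, e1]
      · exact absurd rfl hab
      · rw [e3, cZ]
      · rw [inter_comm, e2, cY]
      · rw [inter_comm, e3, cZ]
      · exact absurd rfl hab
    have hcoll : ∀ {a b : Finset (Fin n)}, #a = k → #b = k → (Coll B a b ↔ #(a ∩ b) = #X) :=
      fun ha hb => coll_iff hn hG hS hF hl hconst ha hb
    -- the outside
    set W : Finset (Fin n) := (X ∪ Y ∪ Z)ᶜ with hW
    have hWc : #X ≤ #W := by
      rw [hW, card_compl, Fintype.card_fin, card_union_of_disjoint, card_union_of_disjoint dXY]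
      · omega
      · rw [disjoint_union_left]
        exact ⟨dXZ, dYZ⟩
    have dXW : Disjoint X W := by
      rw [disjoint_left]
      intro x hx hx'
      rw [hW, mem_compl] at hx'
      exact hx' (mem_union_left _ (mem_union_left _ hx))
    have dYW : Disjoint Y W := by
      rw [disjoint_left]
      intro x hx hx'
      rw [hW, mem_compl] at hx'
      exact hx' (mem_union_left _ (mem_union_right _ hx))
    have dZW : Disjoint Z W := by
      rw [disjoint_left]
      intro x hx hx'
      rw [hW, mem_compl] at hx'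
      exact hx' (mem_union_right _ hx)
    obtain ⟨W1, hW1, cW1⟩ := exists_subset_card_eq hWc
    obtain ⟨X1, hX1, cX1⟩ := exists_subset_card_eq (s := X) (n := 1) (by omega)
    obtain ⟨Y1, hY1, cY1⟩ := exists_subset_card_eq (s := Y) (n := #X - 1) (by omega)
    have dXW1 : Disjoint X W1 := disjoint_of_subset_right hW1 dXW
    have dYW1 : Disjoint Y W1 := disjoint_of_subset_right hW1 dYW
    have dZW1 : Disjoint Z W1 := disjoint_of_subset_right hW1 dZW
    -- first point
    have c1k : #(X ∪ W1) = k := by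
      rw [card_union_of_disjoint dXW1]
      omega
    have i1 : (X ∪ W1) ∩ (X ∪ Y) = X := inter_union_union dYW1.symm
    have i2 : (X ∪ W1) ∩ (X ∪ Z) = X := inter_union_union dZW1.symm
    have i3 : (X ∪ W1) ∩ (Y ∪ Z) = ∅ := by
      rw [← disjoint_iff_inter_eq_empty, disjoint_union_left, disjoint_union_right,
        disjoint_union_right]
      exact ⟨⟨dXY, dXZ⟩, dYW1.symm, dZW1.symm⟩
    have cXY : #(X ∪ Y) = k := by rw [card_union_of_disjoint dXY]; omega
    have cXZ : #(X ∪ Z) = k := by rw [card_union_of_disjoint dXZ]; omega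
    have cYZ : #(Y ∪ Z) = k := by rw [card_union_of_disjoint dYZ]; omega
    have k1 : Coll B (X ∪ W1) (X ∪ Y) := by rw [hcoll c1k cXY, i1]
    have k2 : Coll B (X ∪ W1) (X ∪ Z) := by rw [hcoll c1k cXZ, i2]
    have n1 : X ∪ Y ≠ X ∪ Z := by
      intro h
      rw [h, inter_self] at e1
      rw [e1] at cXZ
      omega
    have hnot1 : X ∪ W1 ∉ ({X ∪ Y, X ∪ Z, Y ∪ Z} : Finset (Finset (Fin n))) := by
      rw [mem_insert, mem_insert, mem_singleton]
      rintro (h | h | h)
      · rw [h, inter_self] at i1
        rw [i1] at cXY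
        omega
      · rw [h, inter_self] at i2
        rw [i2] at cXZ
        omega
      · rw [h, inter_self] at i3
        rw [i3, card_empty] at cYZ
        omega
    have hα2 : 2 ≤ α := alpha_ge_two hS (mem_pts c1k) hl hnot1 (x := X ∪ Y) (y := X ∪ Z)
      (by simp) (by simp) n1 k1 k2
    -- second point
    have dX1Y1 : Disjoint X1 Y1 := disjoint_of_subset_left hX1 (disjoint_of_subset_right hY1 dXY)
    have dXYW : Disjoint (X1 ∪ Y1) W1 := by
      rw [disjoint_union_left]
      exact ⟨disjoint_of_subset_left hX1 dXW1, disjoint_of_subset_left hY1 dYW1⟩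
    set c2 : Finset (Fin n) := X1 ∪ Y1 ∪ W1 with hc2
    have c2k : #c2 = k := by
      rw [hc2, card_union_of_disjoint dXYW, card_union_of_disjoint dX1Y1]
      omega
    have j1 : c2 ∩ (X ∪ Y) = X1 ∪ Y1 := by
      ext x
      simp only [hc2, mem_inter, mem_union]
      constructor
      · rintro ⟨(h | h), h'⟩
        · exact h
        · rcases h' with h' | h'
          · exact absurd h (disjoint_left.mp dXW1 h')
          · exact absurd h (disjoint_left.mp dYW1 h')
      · rintro (h | h)
        · exact ⟨Or.inl (Or.inl h), Or.inl (hX1 h)⟩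
        · exact ⟨Or.inl (Or.inr h), Or.inr (hY1 h)⟩
    have j2 : c2 ∩ (X ∪ Z) = X1 := by
      ext x
      simp only [hc2, mem_inter, mem_union]
      constructor
      · rintro ⟨((h | h) | h), h'⟩
        · exact h
        · rcases h' with h' | h'
          · exact absurd (hY1 h) (disjoint_left.mp dXY h')
          · exact absurd h' (disjoint_left.mp dYZ (hY1 h))
        · rcases h' with h' | h'
          · exact absurd h (disjoint_left.mp dXW1 h')
          · exact absurd h (disjoint_left.mp dZW1 h')
      · intro h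
        exact ⟨Or.inl (Or.inl h), Or.inl (hX1 h)⟩
    have j3 : c2 ∩ (Y ∪ Z) = Y1 := by
      ext x
      simp only [hc2, mem_inter, mem_union]
      constructor
      · rintro ⟨((h | h) | h), h'⟩
        · rcases h' with h' | h'
          · exact absurd h' (disjoint_left.mp dXY (hX1 h))
          · exact absurd h' (disjoint_left.mp dXZ (hX1 h))
        · exact h
        · rcases h' with h' | h'
          · exact absurd h (disjoint_left.mp dYW1 h')
          · exact absurd h (disjoint_left.mp dZW1 h')
      · intro h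
        exact ⟨Or.inl (Or.inr h), Or.inl (hY1 h)⟩
    have m1 : Coll B c2 (X ∪ Y) := by
      rw [hcoll c2k cXY, j1, card_union_of_disjoint dX1Y1]
      omega
    have m2 : ¬ Coll B c2 (X ∪ Z) := by
      rw [hcoll c2k cXZ, j2]
      omega
    have m3 : ¬ Coll B c2 (Y ∪ Z) := by
      rw [hcoll c2k cYZ, j3]
      omega
    have hnot2 : c2 ∉ ({X ∪ Y, X ∪ Z, Y ∪ Z} : Finset (Finset (Fin n))) := by
      rw [mem_insert, mem_insert, mem_singleton]
      rintro (h | h | h)
      · exact m1.1 h
      · rw [h, inter_self] at j2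
        rw [j2] at cXZ
        omega
      · rw [h, inter_self] at j3
        rw [j3] at cYZ
        omega
    have hα1 : α = 1 := alpha_eq_one hS (mem_pts c2k) hl hnot2 (x := X ∪ Y) (by simp) m1 (by
      intro y hy hcy
      rw [mem_insert, mem_insert, mem_singleton] at hy
      rcases hy with rfl | rfl | rfl
      · rfl
      · exact absurd hcy m2
      · exact absurd hcy m3)
    omega

theorem choose_two_lt {k : ℕ} (hk : 1 ≤ k) : k + 1 < (k + 2).choose k := by
  obtain ⟨m, rfl⟩ : ∃ m, k = m + 1 := ⟨k - 1, by omega⟩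
  have h7 : (m + 2 + 1).choose (m + 1) = (m + 2).choose m + (m + 2).choose (m + 1) :=
    Nat.choose_succ_succ' (m + 2) m
  have h8 : 0 < (m + 2).choose m := Nat.choose_pos (by omega)
  have h9 : (m + 2).choose (m + 1) = m + 2 := Nat.choose_succ_self_right (m + 1)
  rw [show m + 1 + 2 = m + 2 + 1 by omega, h7, h9]
  omega

/-- sunflowers with a kernel do not occur -/
theorem t4_kernel (hn : 5 ≤ n) (hk2 : 2 ≤ k) (hkn : 2 * k ≤ n)
    (hS : IsSPG (Pts n k) B α s t μ) {A X Y Z : Finset (Fin n)}
    (dAX : Disjoint A X) (dAY : Disjoint A Y) (dAZ : Disjoint A Z) (dXY : Disjoint X Y)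
    (dXZ : Disjoint X Z) (dYZ : Disjoint Y Z) (hncard : #A + #X + #Y + #Z = n) (cY : #Y = #X)
    (cZ : #Z = #X) (hk : k = #A + #X)
    (hl : ({A ∪ X, A ∪ Y, A ∪ Z} : Finset (Finset (Fin n))) ∈ B)
    (hcoll : ∀ {a b : Finset (Fin n)}, #a = k → #b = k → (Coll B a b ↔ #(a ∩ b) = #A))
    (hA0 : #A ≠ 0) : False := by
  have e1 : (A ∪ X) ∩ (A ∪ Y) = A := inter_union_union dXY
  have cAX : #(A ∪ X) = k := by rw [card_union_of_disjoint dAX]; omega
  have cAY : #(A ∪ Y) = k := by rw [card_union_of_disjoint dAY]; omega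
  have cAZ : #(A ∪ Z) = k := by rw [card_union_of_disjoint dAZ]; omega
  have hA1 : 1 ≤ #A := by omega
  have hi2 : 2 ≤ #X := by omega
  have dAXc : ∀ x, x ∈ A → x ∉ X := fun x h => disjoint_left.mp dAX h
  have dAYc : ∀ x, x ∈ A → x ∉ Y := fun x h => disjoint_left.mp dAY h
  have dAZc : ∀ x, x ∈ A → x ∉ Z := fun x h => disjoint_left.mp dAZ h
  have dXYc : ∀ x, x ∈ X → x ∉ Y := fun x h => disjoint_left.mp dXY h
  have dXZc : ∀ x, x ∈ X → x ∉ Z := fun x h => disjoint_left.mp dXZ h
  have dYZc : ∀ x, x ∈ Y → x ∉ Z := fun x h => disjoint_left.mp dYZ h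
  obtain ⟨A2, hA2, cA2⟩ := exists_subset_card_eq (s := A) (n := #A - 1) (by omega)
  obtain ⟨X1, hX1, cX1⟩ := exists_subset_card_eq (s := X) (n := 1) (by omega)
  obtain ⟨Y1, hY1, cY1⟩ := exists_subset_card_eq (s := Y) (n := 1) (by omega)
  obtain ⟨Z1, hZ1, cZ1⟩ := exists_subset_card_eq (s := Z) (n := #X - 1) (by omega)
  have dAY1 : Disjoint A Y1 := disjoint_of_subset_right hY1 dAY
  have dAZ1 : Disjoint A Z1 := disjoint_of_subset_right hZ1 dAZ
  have dY1Z1 : Disjoint Y1 Z1 := disjoint_of_subset_left hY1 (disjoint_of_subset_right hZ1 dYZ)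
  have dX1Y1 : Disjoint X1 Y1 := disjoint_of_subset_left hX1 (disjoint_of_subset_right hY1 dXY)
  have dX1Z1 : Disjoint X1 Z1 := disjoint_of_subset_left hX1 (disjoint_of_subset_right hZ1 dXZ)
  have dA2X1 : Disjoint A2 X1 := disjoint_of_subset_left hA2 (disjoint_of_subset_right hX1 dAX)
  have dA2Y1 : Disjoint A2 Y1 := disjoint_of_subset_left hA2 dAY1
  have dA2Z1 : Disjoint A2 Z1 := disjoint_of_subset_left hA2 dAZ1
  -- first point: collinear with exactly one point of the line
  set c1 : Finset (Fin n) := A ∪ Y1 ∪ Z1 with hc1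
  have c1k : #c1 = k := by
    rw [hc1, card_union_of_disjoint, card_union_of_disjoint dAY1]
    · omega
    · rw [disjoint_union_left]
      exact ⟨dAZ1, dY1Z1⟩
  have i1 : c1 ∩ (A ∪ X) = A := by
    ext x
    simp only [hc1, mem_inter, mem_union]
    constructor
    · rintro ⟨((h | h) | h), h'⟩
      · exact h
      · rcases h' with h' | h'
        · exact h'
        · exact absurd (hY1 h) (dXYc x h')
      · rcases h' with h' | h'
        · exact h'
        · exact absurd (hZ1 h) (dXZc x h')
    · intro h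
      exact ⟨Or.inl (Or.inl h), Or.inl h⟩
  have i2 : c1 ∩ (A ∪ Y) = A ∪ Y1 := by
    ext x
    simp only [hc1, mem_inter, mem_union]
    constructor
    · rintro ⟨(h | h), h'⟩
      · exact h
      · rcases h' with h' | h'
        · exact Or.inl h'
        · exact absurd (hZ1 h) (dYZc x h')
    · rintro (h | h)
      · exact ⟨Or.inl (Or.inl h), Or.inl h⟩
      · exact ⟨Or.inl (Or.inr h), Or.inr (hY1 h)⟩
  have i3 : c1 ∩ (A ∪ Z) = A ∪ Z1 := by
    ext x
    simp only [hc1, mem_inter, mem_union]
    constructor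
    · rintro ⟨((h | h) | h), h'⟩
      · exact Or.inl h
      · rcases h' with h' | h'
        · exact Or.inl h'
        · exact absurd h' (dYZc x (hY1 h))
      · exact Or.inr h
    · rintro (h | h)
      · exact ⟨Or.inl (Or.inl h), Or.inl h⟩
      · exact ⟨Or.inr h, Or.inr (hZ1 h)⟩
  have k1 : Coll B c1 (A ∪ X) := by rw [hcoll c1k cAX, i1]
  have k2 : ¬ Coll B c1 (A ∪ Y) := by
    rw [hcoll c1k cAY, i2, card_union_of_disjoint dAY1]
    omega
  have k3 : ¬ Coll B c1 (A ∪ Z) := by
    rw [hcoll c1k cAZ, i3, card_union_of_disjoint dAZ1]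
    omega
  have hnot1 : c1 ∉ ({A ∪ X, A ∪ Y, A ∪ Z} : Finset (Finset (Fin n))) := by
    rw [mem_insert, mem_insert, mem_singleton]
    rintro (h | h | h)
    · exact k1.1 h
    · rw [h, inter_self] at i2
      have := congrArg Finset.card i2
      rw [cAY, card_union_of_disjoint dAY1] at this
      omega
    · rw [h, inter_self] at i3
      have := congrArg Finset.card i3
      rw [cAZ, card_union_of_disjoint dAZ1] at this
      omega
  have hα1 : α = 1 := alpha_eq_one hS (mem_pts c1k) hl hnot1 (x := A ∪ X) (by simp) k1 (by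
    intro y hy hcy
    rw [mem_insert, mem_insert, mem_singleton] at hy
    rcases hy with rfl | rfl | rfl
    · rfl
    · exact absurd hcy k2
    · exact absurd hcy k3)
  -- second point: collinear with two points of the line
  set c2 : Finset (Fin n) := A2 ∪ X1 ∪ Y1 ∪ Z1 with hc2
  have c2k : #c2 = k := by
    rw [hc2, card_union_of_disjoint, card_union_of_disjoint, card_union_of_disjoint dA2X1]
    · omega
    · rw [disjoint_union_left]
      exact ⟨dA2Y1, dX1Y1⟩
    · rw [disjoint_union_left, disjoint_union_left]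
      exact ⟨⟨dA2Z1, dX1Z1⟩, dY1Z1⟩
  have j1 : c2 ∩ (A ∪ X) = A2 ∪ X1 := by
    ext x
    simp only [hc2, mem_inter, mem_union]
    constructor
    · rintro ⟨((h | h) | h), h'⟩
      · exact h
      · rcases h' with h' | h'
        · exact absurd (hY1 h) (dAYc x h')
        · exact absurd (hY1 h) (dXYc x h')
      · rcases h' with h' | h'
        · exact absurd (hZ1 h) (dAZc x h')
        · exact absurd (hZ1 h) (dXZc x h')
    · rintro (h | h)
      · exact ⟨Or.inl (Or.inl (Or.inl h)), Or.inl (hA2 h)⟩
      · exact ⟨Or.inl (Or.inl (Or.inr h)), Or.inr (hX1 h)⟩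
  have j2 : c2 ∩ (A ∪ Y) = A2 ∪ Y1 := by
    ext x
    simp only [hc2, mem_inter, mem_union]
    constructor
    · rintro ⟨(((h | h) | h) | h), h'⟩
      · exact Or.inl h
      · rcases h' with h' | h'
        · exact absurd (hX1 h) (dAXc x h')
        · exact absurd h' (dXYc x (hX1 h))
      · exact Or.inr h
      · rcases h' with h' | h'
        · exact absurd (hZ1 h) (dAZc x h')
        · exact absurd (hZ1 h) (dYZc x h')
    · rintro (h | h)
      · exact ⟨Or.inl (Or.inl (Or.inl h)), Or.inl (hA2 h)⟩
      · exact ⟨Or.inl (Or.inr h), Or.inr (hY1 h)⟩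
  have m1 : Coll B c2 (A ∪ X) := by
    rw [hcoll c2k cAX, j1, card_union_of_disjoint dA2X1]
    omega
  have m2 : Coll B c2 (A ∪ Y) := by
    rw [hcoll c2k cAY, j2, card_union_of_disjoint dA2Y1]
    omega
  have hA2ne : ¬ A ⊆ c2 := by
    intro h
    have h5 : A ⊆ A2 := by
      intro x hx
      have := h hx
      simp only [hc2, mem_union] at this
      rcases this with ((h | h) | h) | h
      · exact h
      · exact absurd (hX1 h) (dAXc x hx)
      · exact absurd (hY1 h) (dAYc x hx)
      · exact absurd (hZ1 h) (dAZc x hx)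
    have := card_le_card h5
    omega
  have hnot2 : c2 ∉ ({A ∪ X, A ∪ Y, A ∪ Z} : Finset (Finset (Fin n))) := by
    rw [mem_insert, mem_insert, mem_singleton]
    rintro (h | h | h)
    · exact hA2ne (h ▸ subset_union_left)
    · exact hA2ne (h ▸ subset_union_left)
    · exact hA2ne (h ▸ subset_union_left)
  have n1 : A ∪ X ≠ A ∪ Y := by
    intro h
    rw [h, inter_self] at e1
    rw [e1] at cAY
    omega
  have hα2 : 2 ≤ α := alpha_ge_two hS (mem_pts c2k) hl hnot2 (x := A ∪ X) (y := A ∪ Y)
    (by simp) (by simp) n1 m1 m2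
  omega

/-- sunflowers occur only for `n = 6`, `k = 2` -/
theorem t4_excl (hn : 5 ≤ n) (hk2 : 2 ≤ k) (hkn : 2 * k ≤ n)
    (hG : alternatingGroup (Fin n) ≤ G) (hS : IsSPG (Pts n k) B α s t μ)
    (hF : FlagTransitive G B) {l : Finset (Finset (Fin n))} (hl : l ∈ B) (h4 : IsT4 k l) :
    n = 6 ∧ k = 2 := by
  obtain ⟨A, X, Y, Z, dAX, dAY, dAZ, dXY, dXZ, dYZ, hU, cY, cZ, hk, rfl⟩ := h4
  have hncard : #A + #X + #Y + #Z = n := by
    have h1 : #(A ∪ X ∪ Y ∪ Z) = n := by rw [hU, card_univ, Fintype.card_fin]
    rw [card_union_of_disjoint, card_union_of_disjoint, card_union_of_disjoint dAX] at h1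
    · exact h1
    · rw [disjoint_union_left]
      exact ⟨dAY, dXY⟩
    · rw [disjoint_union_left, disjoint_union_left]
      exact ⟨⟨dAZ, dXZ⟩, dYZ⟩
  have e1 : (A ∪ X) ∩ (A ∪ Y) = A := inter_union_union dXY
  have e2 : (A ∪ X) ∩ (A ∪ Z) = A := inter_union_union dXZ
  have e3 : (A ∪ Y) ∩ (A ∪ Z) = A := inter_union_union dYZ
  have hconst : ∀ a ∈ ({A ∪ X, A ∪ Y, A ∪ Z} : Finset (Finset (Fin n))),
      ∀ b ∈ ({A ∪ X, A ∪ Y, A ∪ Z} : Finset (Finset (Fin n))), a ≠ b → #(a ∩ b) = #A := by
    intro a ha b hb hab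
    rw [mem_insert, mem_insert, mem_singleton] at ha hb
    rcases ha with rfl | rfl | rfl <;> rcases hb with rfl | rfl | rfl
    · exact absurd rfl hab
    · rw [e1]
    · rw [e2]
    · rw [inter_comm, e1]
    · exact absurd rfl hab
    · rw [e3]
    · rw [inter_comm, e2]
    · rw [inter_comm, e3]
    · exact absurd rfl hab
  have hcoll : ∀ {a b : Finset (Fin n)}, #a = k → #b = k → (Coll B a b ↔ #(a ∩ b) = #A) :=
    fun ha hb => coll_iff hn hG hS hF hl hconst ha hb
  have cAX : #(A ∪ X) = k := by rw [card_union_of_disjoint dAX]; omega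
  have cAY : #(A ∪ Y) = k := by rw [card_union_of_disjoint dAY]; omega
  have cAZ : #(A ∪ Z) = k := by rw [card_union_of_disjoint dAZ]; omega
  by_cases hA0 : #A = 0
  · -- Kneser graph of 3k
    have hn3 : n = 3 * k := by omega
    have hc0 : ∀ a b : Finset (Fin n), #a = k → #b = k → (Coll B a b ↔ #(a ∩ b) = 0) := by
      intro a b ha hb
      rw [hcoll ha hb, hA0]
    by_contra hcon
    have hk3 : 3 ≤ k := by omega
    obtain ⟨a, c, ha, hc, hac⟩ := exists_inter (Ω := Fin n) (k := k) (j := 1)
      (by rw [Fintype.card_fin]; exact hkn) (by omega)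
    obtain ⟨a', c', ha', hc', hac'⟩ := exists_inter (Ω := Fin n) (k := k) (j := 2)
      (by rw [Fintype.card_fin]; exact hkn) (by omega)
    have hne : a ≠ c := by
      rintro rfl
      rw [inter_self] at hac
      omega
    have hne' : a' ≠ c' := by
      rintro rfl
      rw [inter_self] at hac'
      omega
    have h1 := kneser_count hS hc0 ha hc hne hac (by omega)
    have h2 := kneser_count hS hc0 ha' hc' hne' hac' (by omega)
    have e5 : n - (2 * k - 1) = k + 1 := by omega
    have e6 : n - (2 * k - 2) = k + 2 := by omega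
    rw [e5, Nat.choose_succ_self_right] at h1
    rw [e6] at h2
    have h7 := choose_two_lt (k := k) (by omega)
    rw [← h2, h1] at h7
    exact lt_irrefl _ h7
  · exact (t4_kernel hn hk2 hkn hS dAX dAY dAZ dXY dXZ dYZ hncard cY cZ hk hl hcoll hA0).elim

end Sub

end Pool.Agent.Helper29.FT
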