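import Pool.Agent.Helper29.FT.Excl2

/-!
# Lines with two points, the case `n = 6`, `k = 3`, and Fano planes
-/

open Finset Pointwise

set_option linter.unusedSectionVars false

namespace Pool.Agent.Helper29.FT

section Sub

variable {n k : ℕ} {α s t μ : ℕ} {B : Finset (Finset (Finset (Fin n)))}
  {G : Subgroup (Equiv.Perm (Fin n))}

theorem exists_tri {j : ℕ} (hkn : 2 * k ≤ n) (hjk : j < k) (h3 : 3 * (k - j) ≤ n) :
    ∃ a b d : Finset (Fin n), #a = k ∧ #b = k ∧ #d = k ∧ #(a ∩ b) = j ∧ #(a ∩ d) = j ∧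
      #(b ∩ d) = j := by
  by_cases h : 2 * j ≤ k
  · obtain ⟨a, b, d, hw⟩ := exists_triple (n := n)
      (fun c : Bool × Bool × Bool => match c with
        | (true, true, true) => 0
        | (true, true, false) => j
        | (true, false, true) => j
        | (false, true, true) => j
        | (true, false, false) => k - 2 * j
        | (false, true, false) => k - 2 * j
        | (false, false, true) => k - 2 * j
        | (false, false, false) => n - (3 * j + 3 * (k - 2 * j)))
      (by
        simp only [Fintype.sum_prod_type, Fintype.sum_bool]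
        omega)
    obtain ⟨ca, cb, cd, cn⟩ := card_col3 a b d
    obtain ⟨cab, cad, cbd⟩ := card_col3_inter a b d
    simp only [hw] at ca cb cd cab cad cbd
    exact ⟨a, b, d, by omega, by omega, by omega, by omega, by omega, by omega⟩
  · obtain ⟨a, b, d, hw⟩ := exists_triple (n := n)
      (fun c : Bool × Bool × Bool => match c with
        | (true, true, true) => 2 * j - k
        | (true, true, false) => k - j
        | (true, false, true) => k - j
        | (false, true, true) => k - j
        | (true, false, false) => 0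
        | (false, true, false) => 0
        | (false, false, true) => 0
        | (false, false, false) => n - (2 * j - k + 3 * (k - j)))
      (by
        simp only [Fintype.sum_prod_type, Fintype.sum_bool]
        omega)
    obtain ⟨ca, cb, cd, cn⟩ := card_col3 a b d
    obtain ⟨cab, cad, cbd⟩ := card_col3_inter a b d
    simp only [hw] at ca cb cd cab cad cbd
    exact ⟨a, b, d, by omega, by omega, by omega, by omega, by omega, by omega⟩

theorem ne_of_inter_lt {a b : Finset (Fin n)} (ha : #a = k) (h : #(a ∩ b) < k) : a ≠ b := by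
  rintro rfl
  rw [inter_self] at h
  omega

/-- lines with two points: only the Petersen graph -/
theorem s1_class (hn : 5 ≤ n) (hk2 : 2 ≤ k) (hkn : 2 * k ≤ n)
    (hG : alternatingGroup (Fin n) ≤ G) (hS : IsSPG (Pts n k) B α s t μ)
    (hF : FlagTransitive G B) (hNL : NonLinear (Pts n k) B) (hs : s = 1) :
    n = 5 ∧ k = 2 ∧ ∀ a b : Finset (Fin n), #a = 2 → #b = 2 → (Coll B a b ↔ #(a ∩ b) = 0) := by
  obtain ⟨a0, ha0, -⟩ := id hNL
  obtain ⟨l, hl, -⟩ := hS.exists_line ha0
  have hl2 : #l = 2 := by rw [hS.line_card l hl, hs]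
  obtain ⟨a, b, hab, rfl⟩ := card_eq_two.mp hl2
  have hak : #a = k := card_of_mem hS hl (by simp)
  have hbk : #b = k := card_of_mem hS hl (by simp)
  set j := #(a ∩ b) with hj
  have hjk : j < k := inter_card_lt hak hbk hab
  have hconst : ∀ a' ∈ ({a, b} : Finset (Finset (Fin n))),
      ∀ b' ∈ ({a, b} : Finset (Finset (Fin n))), a' ≠ b' → #(a' ∩ b') = j := by
    intro a' ha' b' hb' hab'
    rw [mem_insert, mem_singleton] at ha' hb'
    rcases ha' with rfl | rfl <;> rcases hb' with rfl | rfl
    · exact absurd rfl hab'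
    · rfl
    · rw [inter_comm]
    · exact absurd rfl hab'
  have hc : ∀ {x y : Finset (Fin n)}, #x = k → #y = k → (Coll B x y ↔ #(x ∩ y) = j) :=
    fun hx hy => coll_iff hn hG hS hF hl hconst hx hy
  have hbig : n < 3 * (k - j) := by
    by_contra h
    push Not at h
    obtain ⟨x, y, z, hx, hy, hz, hxy, hxz, hyz⟩ := exists_tri (n := n) (k := k) hkn hjk h
    exact no_triangle hS hs hNL ((hc hx hy).mpr hxy) ((hc hy hz).mpr hyz) ((hc hx hz).mpr hxz)
  by_cases hj0 : j = 0
  · rw [hj0] at hc hbig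
    have hc0 : ∀ x y : Finset (Fin n), #x = k → #y = k → (Coll B x y ↔ #(x ∩ y) = 0) :=
      fun x y hx hy => hc hx hy
    obtain ⟨x, y, hx, hy, hxy⟩ := exists_inter (Ω := Fin n) (k := k) (j := 1)
      (by rw [Fintype.card_fin]; exact hkn) (by omega)
    have h1 := kneser_count hS hc0 hx hy (ne_of_inter_lt hx (by omega)) hxy le_rfl
    have hμ := hS.μ_pos
    have h2 : k ≤ n - (2 * k - 1) := by
      by_contra h
      push Not at h
      rw [Nat.choose_eq_zero_of_lt h] at h1
      omega
    have hn3 : n - (2 * k - 1) = k := by omega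
    rw [hn3, Nat.choose_self] at h1
    have hk : k = 2 := by
      by_contra hk
      obtain ⟨x', y', hx', hy', hxy'⟩ := exists_inter (Ω := Fin n) (k := k) (j := 2)
        (by rw [Fintype.card_fin]; exact hkn) (by omega)
      have h3 := kneser_count hS hc0 hx' hy' (ne_of_inter_lt hx' (by omega)) hxy' (by omega)
      have hn4 : n - (2 * k - 2) = k + 1 := by omega
      rw [hn4, Nat.choose_succ_self_right] at h3
      omega
    refine ⟨by omega, hk, ?_⟩
    intro x y hx hy
    exact hc (by rw [hx, hk]) (by rw [hy, hk])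
  · exfalso
    obtain ⟨x, y, hx, hy, hxy⟩ := exists_inter (Ω := Fin n) (k := k) (j := 0)
      (by rw [Fintype.card_fin]; exact hkn) (by omega)
    have hnc : ¬ Coll B x y := by
      rw [hc hx hy]
      omega
    obtain ⟨z, hz, hxz, hyz⟩ := hS.exists_common (mem_pts hx) (mem_pts hy)
      (ne_of_inter_lt hx (by omega)) hnc
    have hzk : #z = k := (mem_powersetCard.mp hz).2
    rw [hc hx hzk] at hxz
    rw [hc hy hzk] at hyz
    obtain ⟨c1, c2, c3, c4⟩ := card_col3 x y z
    obtain ⟨c5, c6, c7⟩ := card_col3_inter x y z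
    rw [Fintype.card_fin] at c4
    omega

end Sub

/-- the case `n = 6`, `k = 3` does not occur -/
theorem n63_excl {α s t μ : ℕ} {B : Finset (Finset (Finset (Fin 6)))}
    {G : Subgroup (Equiv.Perm (Fin 6))}
    (hG : alternatingGroup (Fin 6) ≤ G) (hS : IsSPG (Pts 6 3) B α s t μ)
    (hF : FlagTransitive G B) (hNL : NonLinear (Pts 6 3) B) (hs : 2 ≤ s) : False := by
  obtain ⟨j, hj, hNC⟩ := exists_NC (by norm_num) hG hS hF hNL
  -- transport of collinearity
  have htr : ∀ {a b a' b' : Finset (Fin 6)}, #a = 3 → #b = 3 → #a' = 3 → #b' = 3 →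
      Coll B a b → #(a ∩ b) = #(a' ∩ b') → Coll B a' b' := by
    intro a b a' b' ha hb ha' hb' h he
    exact coll_transport (by norm_num) hG hF h (ha.trans ha'.symm) (hb.trans hb'.symm) he
  have hcompl : ∀ a : Finset (Fin 6), #a = 3 → #aᶜ = 3 := by
    intro a ha
    rw [card_compl, ha, Fintype.card_fin]
  have hsum : ∀ a b : Finset (Fin 6), #b = 3 → #(a ∩ b) + #(aᶜ ∩ b) = 3 := by
    intro a b hb
    have h1 := card_sdiff_add_card_inter b a
    have h2 : b \ a = aᶜ ∩ b := by
      ext x
      simp only [mem_sdiff, mem_inter, mem_compl]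
      tauto
    rw [h2, inter_comm b a] at h1
    omega
  have hne3 : ∀ a b : Finset (Fin 6), #a = 3 → #b = 3 → #(a ∩ b) = 3 → a = b := by
    intro a b ha hb h
    by_contra hne
    have := inter_card_lt ha hb hne
    omega
  have hne0 : ∀ a b : Finset (Fin 6), #a = 3 → #b = 3 → #(a ∩ b) = 0 → b = aᶜ := by
    intro a b ha hb h
    have h1 := hsum a b hb
    exact (hne3 aᶜ b (hcompl a ha) hb (by omega)).symm
  obtain ⟨a0, ha0, -⟩ := id hNL
  have ha03 : #a0 = 3 := (mem_powersetCard.mp ha0).2
  have hself : ∀ a : Finset (Fin 6), #a = 3 → a ≠ aᶜ := by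
    intro a ha h
    have : #(a ∩ aᶜ) = 0 := by rw [inter_compl, card_empty]
    rw [← h, inter_self] at this
    omega
  -- 1. `a` and its complement are not collinear
  have c1 : ∀ a : Finset (Fin 6), #a = 3 → ¬ Coll B a aᶜ := by
    intro a ha hcoll
    obtain ⟨hne, l, hl, hal, hacl⟩ := id hcoll
    obtain ⟨b, hb, hba, hbac⟩ : ∃ b ∈ l, b ≠ a ∧ b ≠ aᶜ := by
      by_contra hcon
      push Not at hcon
      have : l ⊆ {a, aᶜ} := by
        intro e he
        rw [mem_insert, mem_singleton]
        by_cases h : e = a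
        · exact Or.inl h
        · exact Or.inr (hcon e he h)
      have h1 := card_le_card this
      have h2 := Finset.card_le_two (a := a) (b := aᶜ)
      rw [hS.line_card l hl] at h1
      omega
    have hb3 : #b = 3 := card_of_mem hS hl hb
    have k1 : Coll B a b := ⟨hba.symm, l, hl, hal, hb⟩
    have k2 : Coll B aᶜ b := ⟨hbac.symm, l, hl, hacl, hb⟩
    have h1 := hsum a b hb3
    have h2 : #(a ∩ b) ≠ 3 := fun h => hba (hne3 a b ha hb3 h).symm
    have h3 : #(a ∩ b) ≠ 0 := fun h => hbac (hne0 a b ha hb3 h)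
    have n1 := hNC a b k1
    have n2 := hNC aᶜ b k2
    have n3 := hNC a aᶜ hcoll
    rw [inter_compl, card_empty] at n3
    omega
  -- 2. collinearity
  have c2 : ∀ a b : Finset (Fin 6), #a = 3 → #b = 3 → a ≠ b → b ≠ aᶜ → Coll B a b := by
    obtain ⟨z, hz, h1, h2⟩ := hS.exists_common ha0 (mem_pts (hcompl a0 ha03)) (hself a0 ha03)
      (c1 a0 ha03)
    have hz3 : #z = 3 := (mem_powersetCard.mp hz).2
    have h3 := hsum a0 z hz3
    have h4 : #(a0 ∩ z) ≠ 3 := fun h => h1.1 (hne3 a0 z ha03 hz3 h)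
    have h5 : #(a0 ∩ z) ≠ 0 := by
      intro h
      exact h2.1 (hne0 a0 z ha03 hz3 h).symm
    intro a b ha hb hab habc
    have h6 : #(a ∩ b) ≠ 3 := fun h => hab (hne3 a b ha hb h)
    have h7 : #(a ∩ b) ≠ 0 := fun h => habc (hne0 a b ha hb h)
    have h8 := inter_card_lt ha hb hab
    by_cases h9 : #(a ∩ b) = #(a0 ∩ z)
    · exact htr ha03 hz3 ha hb h1 h9.symm
    · exact htr (hcompl a0 ha03) hz3 ha hb h2 (by omega)
  -- 3. every line is a transversal
  have c3 : ∀ l ∈ B, ∀ d : Finset (Fin 6), #d = 3 → d ∈ l ∨ dᶜ ∈ l := by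
    intro l hl d hd
    by_contra hcon
    rw [not_or] at hcon
    have hlne : l.Nonempty := by
      rw [← card_pos, hS.line_card l hl]
      omega
    obtain ⟨c, hc⟩ := hlne
    have hc3 : #c = 3 := card_of_mem hS hl hc
    have hccl : cᶜ ∉ l := fun h => c1 c hc3 ⟨hself c hc3, l, hl, hc, h⟩
    -- count for `cᶜ`
    have e1 : {b ∈ l | Coll B cᶜ b} = l.erase c := by
      ext b
      rw [mem_filter, mem_erase]
      constructor
      · rintro ⟨hb, hcol⟩
        refine ⟨?_, hb⟩
        rintro rfl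
        exact c1 b hc3 hcol.symm
      · rintro ⟨hbc, hb⟩
        refine ⟨hb, c2 cᶜ b (hcompl c hc3) (card_of_mem hS hl hb) ?_ ?_⟩
        · rintro rfl
          exact hccl hb
        · rw [compl_compl]
          exact hbc
    have e2 : {b ∈ l | Coll B d b} = l := by
      rw [filter_eq_self]
      intro b hb
      refine c2 d b hd (card_of_mem hS hl hb) ?_ ?_
      · rintro rfl
        exact hcon.1 hb
      · rintro rfl
        exact hcon.2 hb
    have h1 := hS.antiflag' (mem_pts (hcompl c hc3)) hl hccl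
    have h2 := hS.antiflag' (mem_pts hd) hl hcon.1
    rw [e1, card_erase_of_mem hc, hS.line_card l hl] at h1
    rw [e2, hS.line_card l hl] at h2
    omega
  -- 4. size of a line
  obtain ⟨l, hl, ha0l⟩ := hS.exists_line ha0
  have c4 : 9 ≤ s := by
    have hsub : Pts 6 3 ⊆ l ∪ l.image (fun a => aᶜ) := by
      intro d hd
      rw [mem_powersetCard] at hd
      rw [mem_union, mem_image]
      rcases c3 l hl d hd.2 with h | h
      · exact Or.inl h
      · exact Or.inr ⟨dᶜ, h, compl_compl d⟩
    have h1 := card_le_card hsub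
    have h2 := card_union_le l (l.image (fun a => aᶜ))
    have h3 := card_image_le (s := l) (f := fun a : Finset (Fin 6) => aᶜ)
    rw [hS.line_card l hl] at h2 h3
    have h4 : #(Pts 6 3) = 20 := by
      rw [card_powersetCard, card_univ, Fintype.card_fin]
      decide
    omega
  -- 5. second lines
  have c5 : ∀ a ∈ l, ∀ M ∈ B, a ∈ M → M ≠ l → ∀ d ∈ l, d ≠ a → dᶜ ∈ M := by
    intro a ha M hM haM hMl d hd hda
    rcases c3 M hM d (card_of_mem hS hl hd) with h | h
    · exact absurd (hS.two_points M hM l hl a d hda.symm haM h ha hd) hMl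
    · exact h
  obtain ⟨M, hM, ha0M, hMl⟩ := hS.exists_line' ha0 l
  obtain ⟨a1, ha1, ha10⟩ : ∃ a1 ∈ l, a1 ≠ a0 := by
    have : 1 < #l := by rw [hS.line_card l hl]; omega
    exact exists_mem_ne this a0
  obtain ⟨M', hM', ha1M', hM'l⟩ := hS.exists_line' (hS.lines_sub l hl ha1) l
  obtain ⟨d, hd, e, he, hde⟩ : ∃ d ∈ (l.erase a0).erase a1, ∃ e ∈ (l.erase a0).erase a1, d ≠ e := by
    have h1 : a1 ∈ l.erase a0 := mem_erase.mpr ⟨ha10, ha1⟩
    have : 1 < #((l.erase a0).erase a1) := by
      rw [card_erase_of_mem h1, card_erase_of_mem ha0l, hS.line_card l hl]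
      omega
    obtain ⟨d, hd, e, he, hde⟩ := one_lt_card.mp this
    exact ⟨d, hd, e, he, hde⟩
  rw [mem_erase, mem_erase] at hd he
  have hMM' : M = M' := by
    refine hS.two_points M hM M' hM' dᶜ eᶜ (fun h => hde (compl_injective h)) ?_ ?_ ?_ ?_
    · exact c5 a0 ha0l M hM ha0M hMl d hd.2.2 hd.2.1
    · exact c5 a0 ha0l M hM ha0M hMl e he.2.2 he.2.1
    · exact c5 a1 ha1 M' hM' ha1M' hM'l d hd.2.2 hd.1
    · exact c5 a1 ha1 M' hM' ha1M' hM'l e he.2.2 he.1
  rw [← hMM'] at ha1M'
  exact hMl (hS.two_points M hM l hl a0 a1 ha10.symm ha0M ha1M' ha0l ha1)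

/-- Fano planes: the group is the alternating group -/
theorem fano_group {α s t μ k : ℕ} {B : Finset (Finset (Finset (Fin 7)))}
    {G : Subgroup (Equiv.Perm (Fin 7))}
    (hG : alternatingGroup (Fin 7) ≤ G) (hS : IsSPG (Pts 7 k) B α s t μ)
    (hF : FlagTransitive G B) {l : Finset (Finset (Fin 7))} (hl : l ∈ B) (hf : IsFano l) :
    G = alternatingGroup (Fin 7) := by
  apply le_antisymm _ hG
  intro g hg
  rw [Equiv.Perm.mem_alternatingGroup]
  by_contra hsg
  have hs1 : Equiv.Perm.sign g = -1 := by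
    rcases Int.units_eq_one_or (Equiv.Perm.sign g) with h | h
    · exact absurd h hsg
    · exact h
  obtain ⟨e, he⟩ := hf
  have hle : l = (e : Equiv.Perm (Fin 7)) • fano := he
  set τ : Equiv.Perm (Fin 7) := e * Equiv.swap 5 6 * e⁻¹ with hτ
  have hsτ : Equiv.Perm.sign τ = -1 := by
    rw [hτ, map_mul, map_mul, map_inv, Equiv.Perm.sign_swap (by decide)]
    simp
  have hτG : τ ∈ G := by
    have h1 : τ * g⁻¹ ∈ G := by
      apply hG
      rw [Equiv.Perm.mem_alternatingGroup, map_mul, map_inv, hsτ, hs1]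
      decide
    have h2 := G.mul_mem h1 hg
    rwa [inv_mul_cancel_right] at h2
  have hm1 : (e : Equiv.Perm (Fin 7)) • ({0, 1, 2} : Finset (Fin 7)) ∈ l := by
    rw [hle]
    exact smul_mem_smul_finset (by decide)
  have hm2 : (e : Equiv.Perm (Fin 7)) • ({0, 3, 4} : Finset (Fin 7)) ∈ l := by
    rw [hle]
    exact smul_mem_smul_finset (by decide)
  have hfix : ∀ a : Finset (Fin 7), Equiv.swap (5 : Fin 7) 6 • a = a →
      τ • ((e : Equiv.Perm (Fin 7)) • a) = (e : Equiv.Perm (Fin 7)) • a := by
    intro a ha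
    rw [hτ, mul_smul, mul_smul, inv_smul_smul, ha]
  have h1 := hfix {0, 1, 2} (by decide)
  have h2 := hfix {0, 3, 4} (by decide)
  have hne : (e : Equiv.Perm (Fin 7)) • ({0, 1, 2} : Finset (Fin 7)) ≠
      (e : Equiv.Perm (Fin 7)) • ({0, 3, 4} : Finset (Fin 7)) := by
    intro h
    exact absurd (smul_left_cancel _ h) (by decide)
  have hτl : τ • l = l := by
    refine hS.two_points (τ • l) (hF.aut τ hτG l hl) l hl _ _ hne ?_ ?_ hm1 hm2
    · rw [← h1]
      exact smul_mem_smul_finset hm1
    · rw [← h2]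
      exact smul_mem_smul_finset hm2
  rw [hle, hτ, mul_smul, mul_smul, inv_smul_smul] at hτl
  have h3 := smul_left_cancel _ hτl
  exact absurd h3 (by decide)

end Pool.Agent.Helper29.FT
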