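import Pool.Agent.Helper29.FT.Conv2

/-!
# The examples: the dual of `PG(3,2)` for the alternating group of degree seven
-/

open Finset Pointwise

set_option linter.unusedSectionVars false

namespace Pool.Agent.Helper29.FT

/-- even automorphisms of the Fano plane -/
def EvenAut (h : Equiv.Perm (Fin 7)) : Prop := Equiv.Perm.sign h = 1 ∧ h • fano = fano

theorem EvenAut.mul {g h : Equiv.Perm (Fin 7)} (hg : EvenAut g) (hh : EvenAut h) :
    EvenAut (g * h) :=
  ⟨by rw [map_mul, hg.1, hh.1]; rfl, by rw [mul_smul, hh.2, hg.2]⟩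

theorem EvenAut.inv {g : Equiv.Perm (Fin 7)} (hg : EvenAut g) : EvenAut g⁻¹ :=
  ⟨by rw [map_inv, hg.1]; rfl, by
    have := congrArg (fun M => g⁻¹ • M) hg.2
    simp only [inv_smul_smul] at this
    exact this.symm⟩

theorem fano_trans (a : Finset (Fin 7)) (ha : a ∈ fano) :
    ∃ h, EvenAut h ∧ h • ({0, 1, 2} : Finset (Fin 7)) = a := by
  simp only [fano, mem_insert, mem_singleton] at ha
  rcases ha with rfl | rfl | rfl | rfl | rfl | rfl | rfl
  · exact ⟨1, ⟨by decide, by decide⟩, by decide⟩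
  · exact ⟨Equiv.swap 1 3 * Equiv.swap 2 4, ⟨by decide, by decide⟩, by decide⟩
  · exact ⟨Equiv.swap 1 5 * Equiv.swap 2 6, ⟨by decide, by decide⟩, by decide⟩
  · exact ⟨Equiv.swap 0 3 * Equiv.swap 2 5, ⟨by decide, by decide⟩, by decide⟩
  · exact ⟨Equiv.swap 0 4 * Equiv.swap 2 6, ⟨by decide, by decide⟩, by decide⟩
  · exact ⟨Equiv.swap 0 3 * Equiv.swap 1 6, ⟨by decide, by decide⟩, by decide⟩
  · exact ⟨Equiv.swap 0 4 * Equiv.swap 1 5, ⟨by decide, by decide⟩, by decide⟩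

theorem fano_trans' (b : Finset (Fin 7)) (hb : b ∈ fano) (hne : b ≠ {0, 1, 2}) :
    ∃ h, EvenAut h ∧ h • ({0, 1, 2} : Finset (Fin 7)) = {0, 1, 2} ∧
      h • ({0, 3, 4} : Finset (Fin 7)) = b := by
  simp only [fano, mem_insert, mem_singleton] at hb
  rcases hb with rfl | rfl | rfl | rfl | rfl | rfl | rfl
  · exact absurd rfl hne
  · exact ⟨1, ⟨by decide, by decide⟩, by decide, by decide⟩
  · exact ⟨Equiv.swap 3 5 * Equiv.swap 4 6, ⟨by decide, by decide⟩, by decide, by decide⟩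
  · exact ⟨Equiv.swap 0 1 * Equiv.swap 4 5, ⟨by decide, by decide⟩, by decide, by decide⟩
  · exact ⟨Equiv.swap 0 1 * Equiv.swap 3 6, ⟨by decide, by decide⟩, by decide, by decide⟩
  · exact ⟨Equiv.swap 0 2 * Equiv.swap 4 6, ⟨by decide, by decide⟩, by decide, by decide⟩
  · exact ⟨Equiv.swap 0 2 * Equiv.swap 3 5, ⟨by decide, by decide⟩, by decide, by decide⟩

theorem fano_two_trans {a b : Finset (Fin 7)} (ha : a ∈ fano) (hb : b ∈ fano) (hab : a ≠ b) :
    ∃ h, EvenAut h ∧ h • ({0, 1, 2} : Finset (Fin 7)) = a ∧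
      h • ({0, 3, 4} : Finset (Fin 7)) = b := by
  obtain ⟨g, hg, hga⟩ := fano_trans a ha
  have h1 : g⁻¹ • b ∈ fano := by
    rw [← hg.inv.2]
    exact smul_mem_smul_finset hb
  have h2 : g⁻¹ • b ≠ {0, 1, 2} := by
    intro h
    apply hab
    rw [← hga, ← h, smul_inv_smul]
  obtain ⟨h, hh, h3, h4⟩ := fano_trans' _ h1 h2
  refine ⟨g * h, hg.mul hh, ?_, ?_⟩
  · rw [mul_smul, h3, hga]
  · rw [mul_smul, h4, smul_inv_smul]

theorem fano_fix {g : Equiv.Perm (Fin 7)} (hs : Equiv.Perm.sign g = 1)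
    (h1 : g • ({0, 1, 2} : Finset (Fin 7)) = {0, 1, 2})
    (h2 : g • ({0, 3, 4} : Finset (Fin 7)) = {0, 3, 4}) : g • fano = fano := by
  rw [smul_eq_iff] at h1 h2
  have key : ∀ x y : Fin 7, (y ∈ ({0, 1, 2} : Finset (Fin 7)) ↔ x ∈ ({0, 1, 2} : Finset (Fin 7))) →
      (y ∈ ({0, 3, 4} : Finset (Fin 7)) ↔ x ∈ ({0, 3, 4} : Finset (Fin 7))) →
      (x = 0 → y = 0) ∧ (x = 1 → y = 1 ∨ y = 2) ∧ (x = 2 → y = 1 ∨ y = 2) ∧
      (x = 3 → y = 3 ∨ y = 4) ∧ (x = 4 → y = 3 ∨ y = 4) ∧ (x = 5 → y = 5 ∨ y = 6) ∧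
      (x = 6 → y = 5 ∨ y = 6) := by decide
  have k := fun x => key x (g x) (h1 x) (h2 x)
  have e0 : g 0 = 0 := (k 0).1 rfl
  have e1 := (k 1).2.1 rfl
  have e2 := (k 2).2.2.1 rfl
  have e3 := (k 3).2.2.2.1 rfl
  have e4 := (k 4).2.2.2.2.1 rfl
  have e5 := (k 5).2.2.2.2.2.1 rfl
  have e6 := (k 6).2.2.2.2.2.2 rfl
  have d12 : g 1 ≠ g 2 := fun h => absurd (g.injective h) (by decide)
  have d34 : g 3 ≠ g 4 := fun h => absurd (g.injective h) (by decide)
  have d56 : g 5 ≠ g 6 := fun h => absurd (g.injective h) (by decide)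
  have f1 : (g 1 = 1 ∧ g 2 = 2) ∨ (g 1 = 2 ∧ g 2 = 1) := by
    rcases e1 with h | h <;> rcases e2 with h' | h'
    · exact absurd (h.trans h'.symm) d12
    · exact Or.inl ⟨h, h'⟩
    · exact Or.inr ⟨h, h'⟩
    · exact absurd (h.trans h'.symm) d12
  have f3 : (g 3 = 3 ∧ g 4 = 4) ∨ (g 3 = 4 ∧ g 4 = 3) := by
    rcases e3 with h | h <;> rcases e4 with h' | h'
    · exact absurd (h.trans h'.symm) d34
    · exact Or.inl ⟨h, h'⟩
    · exact Or.inr ⟨h, h'⟩
    · exact absurd (h.trans h'.symm) d34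
  have f5 : (g 5 = 5 ∧ g 6 = 6) ∨ (g 5 = 6 ∧ g 6 = 5) := by
    rcases e5 with h | h <;> rcases e6 with h' | h'
    · exact absurd (h.trans h'.symm) d56
    · exact Or.inl ⟨h, h'⟩
    · exact Or.inr ⟨h, h'⟩
    · exact absurd (h.trans h'.symm) d56
  have mk : ∀ E : Equiv.Perm (Fin 7), E 0 = g 0 → E 1 = g 1 → E 2 = g 2 → E 3 = g 3 →
      E 4 = g 4 → E 5 = g 5 → E 6 = g 6 → g = E := by
    intro E c0 c1 c2 c3 c4 c5 c6
    apply Equiv.ext
    intro i
    fin_cases i
    · exact c0.symm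
    · exact c1.symm
    · exact c2.symm
    · exact c3.symm
    · exact c4.symm
    · exact c5.symm
    · exact c6.symm
  rcases f1 with ⟨a1, a2⟩ | ⟨a1, a2⟩ <;> rcases f3 with ⟨a3, a4⟩ | ⟨a3, a4⟩ <;>
    rcases f5 with ⟨a5, a6⟩ | ⟨a5, a6⟩
  · have hg := mk (1)
      (by rw [e0]; decide) (by rw [a1]; decide) (by rw [a2]; decide) (by rw [a3]; decide)
      (by rw [a4]; decide) (by rw [a5]; decide) (by rw [a6]; decide)
    rw [hg]
    decide
  · have hg := mk (Equiv.swap 5 6)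
      (by rw [e0]; decide) (by rw [a1]; decide) (by rw [a2]; decide) (by rw [a3]; decide)
      (by rw [a4]; decide) (by rw [a5]; decide) (by rw [a6]; decide)
    rw [hg] at hs
    exact absurd hs (by decide)
  · have hg := mk (Equiv.swap 3 4)
      (by rw [e0]; decide) (by rw [a1]; decide) (by rw [a2]; decide) (by rw [a3]; decide)
      (by rw [a4]; decide) (by rw [a5]; decide) (by rw [a6]; decide)
    rw [hg] at hs
    exact absurd hs (by decide)
  · have hg := mk (Equiv.swap 3 4 * Equiv.swap 5 6)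
      (by rw [e0]; decide) (by rw [a1]; decide) (by rw [a2]; decide) (by rw [a3]; decide)
      (by rw [a4]; decide) (by rw [a5]; decide) (by rw [a6]; decide)
    rw [hg]
    decide
  · have hg := mk (Equiv.swap 1 2)
      (by rw [e0]; decide) (by rw [a1]; decide) (by rw [a2]; decide) (by rw [a3]; decide)
      (by rw [a4]; decide) (by rw [a5]; decide) (by rw [a6]; decide)
    rw [hg] at hs
    exact absurd hs (by decide)
  · have hg := mk (Equiv.swap 1 2 * Equiv.swap 5 6)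
      (by rw [e0]; decide) (by rw [a1]; decide) (by rw [a2]; decide) (by rw [a3]; decide)
      (by rw [a4]; decide) (by rw [a5]; decide) (by rw [a6]; decide)
    rw [hg]
    decide
  · have hg := mk (Equiv.swap 1 2 * Equiv.swap 3 4)
      (by rw [e0]; decide) (by rw [a1]; decide) (by rw [a2]; decide) (by rw [a3]; decide)
      (by rw [a4]; decide) (by rw [a5]; decide) (by rw [a6]; decide)
    rw [hg]
    decide
  · have hg := mk (Equiv.swap 1 2 * Equiv.swap 3 4 * Equiv.swap 5 6)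
      (by rw [e0]; decide) (by rw [a1]; decide) (by rw [a2]; decide) (by rw [a3]; decide)
      (by rw [a4]; decide) (by rw [a5]; decide) (by rw [a6]; decide)
    rw [hg] at hs
    exact absurd hs (by decide)

theorem fano_pl : PL fano := by
  intro g hg a ha b hb hab hga hgb
  rw [Equiv.Perm.mem_alternatingGroup] at hg
  obtain ⟨h1, hh1, h1a, h1b⟩ := fano_two_trans ha hb hab
  obtain ⟨h2, hh2, h2a, h2b⟩ := fano_two_trans hga hgb (fun h => hab (smul_left_cancel g h))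
  have hfix := fano_fix (g := h2⁻¹ * g * h1)
    (by rw [map_mul, map_mul, hg, hh1.1, map_inv, hh2.1]; rfl)
    (by rw [mul_smul, mul_smul, h1a, ← h2a, inv_smul_smul])
    (by rw [mul_smul, mul_smul, h1b, ← h2b, inv_smul_smul])
  rw [mul_smul, mul_smul, hh1.2] at hfix
  have := congrArg (fun M => h2 • M) hfix
  simp only [smul_inv_smul] at this
  rw [this, hh2.2]

end Pool.Agent.Helper29.FT
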