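import Pool.Agent.Helper29.FT.Fano

/-!
# The examples: the dual of `PG(3,2)` for the alternating group of degree seven, continued
-/

open Finset Pointwise

set_option linter.unusedSectionVars false
set_option maxRecDepth 100000

namespace Pool.Agent.Helper29.FT

/-- the lines of the geometry: images of the standard Fano plane of the parity of `e` -/
theorem mem_B {L : Finset (Finset (Fin 7))} {B : Finset (Finset (Finset (Fin 7)))}
    (hB : ∀ m, m ∈ B ↔ ∃ g ∈ alternatingGroup (Fin 7), m = g • L) {e : Equiv.Perm (Fin 7)}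
    (hL : L = e • fano) (m : Finset (Finset (Fin 7))) :
    m ∈ B ↔ ∃ σ : Equiv.Perm (Fin 7), Equiv.Perm.sign σ = Equiv.Perm.sign e ∧ m = σ • fano := by
  rw [hB]
  constructor
  · rintro ⟨g, hg, rfl⟩
    rw [Equiv.Perm.mem_alternatingGroup] at hg
    exact ⟨g * e, by rw [map_mul, hg, one_mul], by rw [hL, mul_smul]⟩
  · rintro ⟨σ, hσ, rfl⟩
    refine ⟨σ * e⁻¹, ?_, ?_⟩
    · rw [Equiv.Perm.mem_alternatingGroup, map_mul, map_inv, hσ, mul_inv_cancel]
    · rw [hL, mul_smul, inv_smul_smul]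

theorem fano_card3 : ∀ a ∈ fano, #a = 3 := by decide

theorem fano_card : fano.card = 7 := by decide

theorem fano_inter : ∀ a ∈ fano, ∀ b ∈ fano, a ≠ b → #(a ∩ b) = 1 := by decide

theorem fano_anti : ∀ a ∈ powersetCard 3 (univ : Finset (Fin 7)), a ∉ fano →
    #{b ∈ fano | #(a ∩ b) = 1} = 3 := by decide +kernel

theorem fano_nbr : #{b ∈ Pts 7 3 | #(({0, 1, 2} : Finset (Fin 7)) ∩ b) = 1} = 18 := by
  decide +kernel

theorem fano_non : ∀ b ∈ powersetCard 3 (univ : Finset (Fin 7)), b ≠ {0, 1, 2} →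
    #(({0, 1, 2} : Finset (Fin 7)) ∩ b) ≠ 1 →
    #{c ∈ Pts 7 3 | #(({0, 1, 2} : Finset (Fin 7)) ∩ c) = 1 ∧ #(b ∩ c) = 1} = 9 := by
  decide +kernel

theorem smul_pts {n k : ℕ} (g : Equiv.Perm (Fin n)) : g • Pts n k = Pts n k := by
  ext a
  rw [mem_smul_L, mem_powersetCard, mem_powersetCard, card_smul_finset]
  simp

theorem smul_filter {n : ℕ} (g : Equiv.Perm (Fin n)) (L : Finset (Finset (Fin n)))
    (p q : Finset (Fin n) → Prop) [DecidablePred p] [DecidablePred q]
    (hpq : ∀ a, q (g • a) ↔ p a) : #{a ∈ g • L | q a} = #{a ∈ L | p a} := by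
  symm
  apply card_bij (fun a _ => g • a)
  · intro a ha
    rw [mem_filter] at ha ⊢
    exact ⟨smul_mem_smul_finset ha.1, (hpq a).mpr ha.2⟩
  · intro a _ b _ h
    exact smul_left_cancel g h
  · intro a ha
    rw [mem_filter, mem_smul_L] at ha
    refine ⟨g⁻¹ • a, mem_filter.mpr ⟨ha.1, ?_⟩, smul_inv_smul g a⟩
    rw [← hpq, smul_inv_smul]
    exact ha.2

/-- the even permutations are transitive on pairs -/
theorem pt7 (a : Finset (Fin 7)) (ha : #a = 3) :
    ∃ g : Equiv.Perm (Fin 7), g • ({0, 1, 2} : Finset (Fin 7)) = a := by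
  obtain ⟨g, -, h, -⟩ := pair_transitive (by rw [Fintype.card_fin]; norm_num)
    ({0, 1, 2} : Finset (Fin 7)) {0, 1, 2} a a (by rw [ha]; decide) (by rw [ha]; decide)
    (by rw [inter_self, inter_self, ha]; decide)
  exact ⟨g, h⟩

section

variable {L : Finset (Finset (Fin 7))} {B : Finset (Finset (Finset (Fin 7)))}

theorem fano_coll (hB : ∀ m, m ∈ B ↔ ∃ g ∈ alternatingGroup (Fin 7), m = g • L)
    (hF : IsFano L) (a b : Finset (Fin 7)) (ha : #a = 3) (hb : #b = 3) :
    Coll B a b ↔ #(a ∩ b) = 1 := by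
  obtain ⟨e, he⟩ := hF
  have hL : L = (e : Equiv.Perm (Fin 7)) • fano := he
  have hm := mem_B hB hL
  constructor
  · rintro ⟨hab, l, hl, hal, hbl⟩
    obtain ⟨σ, -, rfl⟩ := (hm l).mp hl
    rw [mem_smul_L] at hal hbl
    rw [← card_smul_inter σ⁻¹]
    exact fano_inter _ hal _ hbl (fun h => hab (smul_left_cancel _ h))
  · intro h
    obtain ⟨g, hg, h1, h2⟩ := pair_transitive (by rw [Fintype.card_fin]; norm_num)
      ((e : Equiv.Perm (Fin 7)) • ({0, 1, 2} : Finset (Fin 7)))
      ((e : Equiv.Perm (Fin 7)) • ({0, 3, 4} : Finset (Fin 7))) a b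
      (by rw [card_smul_finset, ha]; decide) (by rw [card_smul_finset, hb]; decide)
      (by rw [card_smul_inter, h]; decide)
    rw [Equiv.Perm.mem_alternatingGroup] at hg
    refine ⟨ne_of_inter_lt ha (by omega), (g * e) • fano, ?_, ?_, ?_⟩
    · rw [hm]
      exact ⟨g * e, by rw [map_mul, hg, one_mul], rfl⟩
    · rw [← h1, mul_smul]
      exact smul_mem_smul_finset (smul_mem_smul_finset (by decide))
    · rw [← h2, mul_smul]
      exact smul_mem_smul_finset (smul_mem_smul_finset (by decide))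

/-- the geometry of the alternating group of degree seven is a semipartial geometry -/
theorem fano_spg (hB : ∀ m, m ∈ B ↔ ∃ g ∈ alternatingGroup (Fin 7), m = g • L)
    (hF : IsFano L) : IsSPG (Pts 7 3) B 3 6 2 9 := by
  have hcoll := fano_coll hB hF
  obtain ⟨e, he⟩ := hF
  have hL : L = (e : Equiv.Perm (Fin 7)) • fano := he
  have hm := mem_B hB hL
  apply mk_spg (j := 1) (by norm_num) (by norm_num) (by norm_num) (by norm_num)
  · intro l hl a ha
    obtain ⟨σ, -, rfl⟩ := (hm l).mp hl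
    rw [mem_smul_L] at ha
    rw [← card_smul_finset σ⁻¹]
    exact fano_card3 _ ha
  · intro l hl
    obtain ⟨σ, -, rfl⟩ := (hm l).mp hl
    rw [card_smul_finset, fano_card]
  · intro l hl m hm' a b hab hal hbl ham hbm
    obtain ⟨σ, hσ, rfl⟩ := (hm l).mp hl
    obtain ⟨τ, hτ, rfl⟩ := (hm m).mp hm'
    have h1 := fano_pl.smul σ (σ * τ⁻¹)
      (by rw [Equiv.Perm.mem_alternatingGroup, map_mul, map_inv, hσ, hτ, mul_inv_cancel])
      a hal b hbl hab
      (by
        rw [mul_smul]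
        apply smul_mem_smul_finset
        rwa [← mem_smul_L])
      (by
        rw [mul_smul]
        apply smul_mem_smul_finset
        rwa [← mem_smul_L])
    rw [mul_smul] at h1
    have h2 := smul_left_cancel σ h1
    rw [inv_smul_eq_iff] at h2
    exact h2
  · exact hcoll
  · intro a ha
    obtain ⟨g, rfl⟩ := pt7 a ha
    have h1 := smul_filter g (Pts 7 3) (fun b => #(({0, 1, 2} : Finset (Fin 7)) ∩ b) = 1)
      (fun b => #(g • ({0, 1, 2} : Finset (Fin 7)) ∩ b) = 1)
      (fun b => by rw [card_smul_inter])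
    rw [smul_pts, fano_nbr] at h1
    exact h1
  · intro a ha l hl hal
    right
    obtain ⟨σ, -, rfl⟩ := (hm l).mp hl
    have h1 := smul_filter σ fano (fun b => #((σ⁻¹ • a) ∩ b) = 1)
      (fun b => #(a ∩ b) = 1)
      (fun b => by
        rw [← card_smul_inter σ⁻¹, inv_smul_smul])
    rw [h1]
    apply fano_anti
    · rw [mem_powersetCard, card_smul_finset]
      exact ⟨subset_univ _, ha⟩
    · rwa [← mem_smul_L]
  · intro a b ha hb hab h
    obtain ⟨g, rfl⟩ := pt7 a ha
    have hb' : b = g • (g⁻¹ • b) := (smul_inv_smul g b).symm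
    have h1 := smul_filter g (Pts 7 3)
      (fun c => #(({0, 1, 2} : Finset (Fin 7)) ∩ c) = 1 ∧ #((g⁻¹ • b) ∩ c) = 1)
      (fun c => #((g • ({0, 1, 2} : Finset (Fin 7))) ∩ c) = 1 ∧ #(b ∩ c) = 1)
      (fun c => by
        rw [card_smul_inter]
        constructor
        · rintro ⟨h1, h2⟩
          refine ⟨h1, ?_⟩
          rwa [← card_smul_inter g, smul_inv_smul]
        · rintro ⟨h1, h2⟩
          refine ⟨h1, ?_⟩
          rwa [← card_smul_inter g⁻¹, inv_smul_smul])
    rw [smul_pts] at h1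
    rw [h1]
    apply fano_non
    · rw [mem_powersetCard, card_smul_finset]
      exact ⟨subset_univ _, hb⟩
    · intro h2
      apply hab
      rw [hb', h2]
    · rw [← card_smul_inter g, smul_inv_smul]
      exact h

theorem fano_flag (hB : ∀ m, m ∈ B ↔ ∃ g ∈ alternatingGroup (Fin 7), m = g • L)
    (hF : IsFano L) : FlagTransitive (alternatingGroup (Fin 7)) B := by
  obtain ⟨e, he⟩ := hF
  have hL : L = (e : Equiv.Perm (Fin 7)) • fano := he
  have hm := mem_B hB hL
  constructor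
  · intro g hg l hl
    obtain ⟨σ, hσ, rfl⟩ := (hm l).mp hl
    rw [Equiv.Perm.mem_alternatingGroup] at hg
    rw [hm, ← mul_smul]
    exact ⟨g * σ, by rw [map_mul, hg, one_mul, hσ], rfl⟩
  · intro l hl a ha m hm' b hb
    obtain ⟨σ, hσ, rfl⟩ := (hm l).mp hl
    obtain ⟨τ, hτ, rfl⟩ := (hm m).mp hm'
    rw [mem_smul_L] at ha hb
    obtain ⟨h1, hh1, e1⟩ := fano_trans _ ha
    obtain ⟨h2, hh2, e2⟩ := fano_trans _ hb
    refine ⟨τ * h2 * h1⁻¹ * σ⁻¹, ?_, ?_, ?_⟩
    · rw [Equiv.Perm.mem_alternatingGroup, map_mul, map_mul, map_mul, map_inv, map_inv, hh1.1,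
        hh2.1, hσ, hτ]
      simp
    · rw [mul_smul, ← e1, mul_smul, inv_smul_smul, mul_smul, e2, smul_inv_smul]
    · rw [mul_smul, inv_smul_smul, mul_smul, hh1.inv.2, mul_smul, hh2.2]

theorem fano_nonlinear (hB : ∀ m, m ∈ B ↔ ∃ g ∈ alternatingGroup (Fin 7), m = g • L)
    (hF : IsFano L) : NonLinear (Pts 7 3) B :=
  nonlinear_of (j := 1) (j' := 0) (by norm_num) (by norm_num) (by norm_num) (fano_coll hB hF)

end

end Pool.Agent.Helper29.FT
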