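import Pool.Agent.Helper29.FT.Types

/-!
# Semipartial geometries on `k`-subsets: basic facts
-/

open Finset Pointwise

set_option linter.unusedSectionVars false

namespace Pool.Agent.Helper29.FT

section General

variable {V : Type*} [DecidableEq V] {P : Finset V} {B : Finset (Finset V)} {α s t μ : ℕ}

theorem Coll.symm {a b : V} (h : Coll B a b) : Coll B b a := by
  obtain ⟨hab, l, hl, ha, hb⟩ := h
  exact ⟨hab.symm, l, hl, hb, ha⟩

theorem IsSPG.card_coll (hS : IsSPG P B α s t μ) {a : V} {l : Finset V} (hl : l ∈ B)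
    (hal : a ∉ l) : #{m ∈ B | a ∈ m ∧ (m ∩ l).Nonempty} = #{b ∈ l | Coll B a b} := by
  symm
  have hex : ∀ b ∈ ({b ∈ l | Coll B a b} : Finset V), ∃ m ∈ B, a ∈ m ∧ b ∈ m := by
    intro b hb
    rw [mem_filter] at hb
    obtain ⟨-, m, hm, ham, hbm⟩ := hb.2
    exact ⟨m, hm, ham, hbm⟩
  choose! f hf using hex
  apply card_bij (fun b _ => f b)
  · intro b hb
    have h1 := hf b hb
    rw [mem_filter] at hb ⊢
    exact ⟨h1.1, h1.2.1, b, mem_inter.mpr ⟨h1.2.2, hb.1⟩⟩
  · intro b hb b' hb' heq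
    have h1 := hf b hb
    have h2 := hf b' hb'
    rw [mem_filter] at hb hb'
    by_contra hne
    have heq' : f b = f b' := heq
    have h3 := hS.two_points (f b) h1.1 l hl b b' hne h1.2.2 (by rw [heq']; exact h2.2.2)
      hb.1 hb'.1
    rw [h3] at h1
    exact hal h1.2.1
  · intro m hm
    rw [mem_filter] at hm
    obtain ⟨hmB, ham, b, hb⟩ := hm
    rw [mem_inter] at hb
    have hab : a ≠ b := by
      rintro rfl
      exact hal hb.2
    have hmem : b ∈ ({b ∈ l | Coll B a b} : Finset V) := by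
      rw [mem_filter]
      exact ⟨hb.2, hab, m, hmB, ham, hb.1⟩
    refine ⟨b, hmem, ?_⟩
    have h1 := hf b hmem
    exact hS.two_points (f b) h1.1 m hmB a b hab h1.2.1 h1.2.2 ham hb.1

theorem IsSPG.antiflag' (hS : IsSPG P B α s t μ) {a : V} (ha : a ∈ P) {l : Finset V}
    (hl : l ∈ B) (hal : a ∉ l) :
    #{b ∈ l | Coll B a b} = 0 ∨ #{b ∈ l | Coll B a b} = α := by
  rw [← hS.card_coll hl hal]
  exact hS.antiflag a ha l hl hal

theorem IsSPG.exists_common (hS : IsSPG P B α s t μ) {a b : V} (ha : a ∈ P) (hb : b ∈ P)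
    (hab : a ≠ b) (hn : ¬ Coll B a b) : ∃ c ∈ P, Coll B a c ∧ Coll B b c := by
  have h := hS.noncoll a ha b hb hab hn
  have h1 : 0 < #{c ∈ P | Coll B a c ∧ Coll B b c} := by
    rw [h]
    exact hS.μ_pos
  obtain ⟨c, hc⟩ := card_pos.mp h1
  rw [mem_filter] at hc
  exact ⟨c, hc.1, hc.2⟩

theorem IsSPG.exists_line (hS : IsSPG P B α s t μ) {a : V} (ha : a ∈ P) :
    ∃ l ∈ B, a ∈ l := by
  have h := hS.point_deg a ha
  have h1 : 0 < #{l ∈ B | a ∈ l} := by
    rw [h]
    omega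
  obtain ⟨l, hl⟩ := card_pos.mp h1
  rw [mem_filter] at hl
  exact ⟨l, hl.1, hl.2⟩

/-- a second line through a point -/
theorem IsSPG.exists_line' (hS : IsSPG P B α s t μ) {a : V} (ha : a ∈ P) (l : Finset V) :
    ∃ m ∈ B, a ∈ m ∧ m ≠ l := by
  have h := hS.point_deg a ha
  have ht := hS.t_pos
  have h1 : 1 < #{l ∈ B | a ∈ l} := by
    rw [h]
    omega
  obtain ⟨m, hm, m', hm', hne⟩ := one_lt_card.mp h1
  rw [mem_filter] at hm hm'
  by_cases hml : m = l
  · refine ⟨m', hm'.1, hm'.2, ?_⟩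
    rw [← hml]
    exact hne.symm
  · exact ⟨m, hm.1, hm.2, hml⟩

theorem coll_mem (hS : IsSPG P B α s t μ) {a b : V} (h : Coll B a b) : a ∈ P ∧ b ∈ P := by
  obtain ⟨-, l, hl, ha, hb⟩ := h
  exact ⟨hS.lines_sub l hl ha, hS.lines_sub l hl hb⟩

end General

section Sub

variable {n k : ℕ} {α s t μ : ℕ} {B : Finset (Finset (Finset (Fin n)))}
  {G : Subgroup (Equiv.Perm (Fin n))}

theorem card_of_mem (hS : IsSPG (Pts n k) B α s t μ) {l : Finset (Finset (Fin n))}
    (hl : l ∈ B) {a : Finset (Fin n)} (ha : a ∈ l) : #a = k :=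
  (mem_powersetCard.mp (hS.lines_sub l hl ha)).2

theorem mem_pts {a : Finset (Fin n)} (h : #a = k) : a ∈ Pts n k :=
  mem_powersetCard.mpr ⟨subset_univ _, h⟩

theorem line_pl (hG : alternatingGroup (Fin n) ≤ G) (hS : IsSPG (Pts n k) B α s t μ)
    (hF : FlagTransitive G B) {l : Finset (Finset (Fin n))} (hl : l ∈ B) : PL l := by
  intro g hg a ha b hb hab hga hgb
  refine hS.two_points (g • l) (hF.aut g (hG hg) l hl) l hl (g • a) (g • b) ?_ ?_ ?_ hga hgb
  · exact fun h => hab (smul_left_cancel g h)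
  · exact smul_mem_smul_finset ha
  · exact smul_mem_smul_finset hb

theorem line_hom (hF : FlagTransitive G B) {l : Finset (Finset (Fin n))} (hl : l ∈ B) :
    ∀ d ∈ l, ∀ e ∈ l, ∃ g : Equiv.Perm (Fin n), g • l = l ∧ g • d = e := by
  intro d hd e he
  obtain ⟨g, -, h1, h2⟩ := hF.flag l hl d hd l hl e he
  exact ⟨g, h2, h1⟩

theorem coll_smul (hF : FlagTransitive G B) {g : Equiv.Perm (Fin n)} (hg : g ∈ G)
    {a b : Finset (Fin n)} (h : Coll B a b) : Coll B (g • a) (g • b) := by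
  obtain ⟨hab, l, hl, ha, hb⟩ := h
  exact ⟨fun h => hab (smul_left_cancel g h), g • l, hF.aut g hg l hl,
    smul_mem_smul_finset ha, smul_mem_smul_finset hb⟩

theorem coll_transport (hn : 5 ≤ n) (hG : alternatingGroup (Fin n) ≤ G)
    (hF : FlagTransitive G B)
    {a b a' b' : Finset (Fin n)} (h : Coll B a b) (ha : #a = #a') (hb : #b = #b')
    (hab : #(a ∩ b) = #(a' ∩ b')) : Coll B a' b' := by
  obtain ⟨g, hg, rfl, rfl⟩ := pair_transitive (by rw [Fintype.card_fin]; exact hn) a b a' b'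
    ha hb hab
  exact coll_smul hF (hG hg) h

theorem exists_NC (hn : 5 ≤ n) (hG : alternatingGroup (Fin n) ≤ G)
    (hS : IsSPG (Pts n k) B α s t μ)
    (hF : FlagTransitive G B) (hNL : NonLinear (Pts n k) B) :
    ∃ j < k, ∀ a b : Finset (Fin n), Coll B a b → #(a ∩ b) ≠ j := by
  obtain ⟨a, ha, b, hb, hab, hnc⟩ := hNL
  rw [mem_powersetCard] at ha hb
  refine ⟨#(a ∩ b), inter_card_lt ha.2 hb.2 hab, ?_⟩
  intro a' b' h heq
  apply hnc
  obtain ⟨h1, h2⟩ := coll_mem hS h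
  rw [mem_powersetCard] at h1 h2
  exact coll_transport hn hG hF h (h1.2.trans ha.2.symm) (h2.2.trans hb.2.symm) heq

/-- all lines are images of one line -/
theorem line_orbit (hS : IsSPG (Pts n k) B α s t μ) (hF : FlagTransitive G B)
    {l m : Finset (Finset (Fin n))} (hl : l ∈ B) (hm : m ∈ B) : ∃ g ∈ G, g • l = m := by
  have h1 : l.Nonempty := by
    rw [← card_pos, hS.line_card l hl]
    omega
  have h2 : m.Nonempty := by
    rw [← card_pos, hS.line_card m hm]
    omega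
  obtain ⟨a, ha⟩ := h1
  obtain ⟨b, hb⟩ := h2
  obtain ⟨g, hg, -, h⟩ := hF.flag l hl a ha m hm b hb
  exact ⟨g, hg, h⟩

/-- if the line `l` has constant intersection numbers `j`, then `j` describes collinearity -/
theorem coll_iff (hn : 5 ≤ n) (hG : alternatingGroup (Fin n) ≤ G)
    (hS : IsSPG (Pts n k) B α s t μ) (hF : FlagTransitive G B)
    {l : Finset (Finset (Fin n))} (hl : l ∈ B) {j : ℕ}
    (hj : ∀ a ∈ l, ∀ b ∈ l, a ≠ b → #(a ∩ b) = j) {a b : Finset (Fin n)} (ha : #a = k)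
    (hb : #b = k) : Coll B a b ↔ #(a ∩ b) = j := by
  constructor
  · rintro ⟨hab, m, hm, ham, hbm⟩
    obtain ⟨g, hg, rfl⟩ := line_orbit hS hF hl hm
    rw [mem_smul_L] at ham hbm
    have h := hj _ ham _ hbm (fun h => hab (smul_left_cancel _ h))
    rwa [card_smul_inter] at h
  · intro h
    have h1 : 1 < #l := by
      rw [hS.line_card l hl]
      have := hS.s_pos
      omega
    obtain ⟨c, hc, d, hd, hcd⟩ := one_lt_card.mp h1
    have hcol : Coll B c d := ⟨hcd, l, hl, hc, hd⟩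
    exact coll_transport hn hG hF hcol ((card_of_mem hS hl hc).trans ha.symm)
      ((card_of_mem hS hl hd).trans hb.symm) ((hj c hc d hd hcd).trans h.symm)

end Sub

end Pool.Agent.Helper29.FT
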