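import Pool.Agent.Helper29.FT.Col

/-!
# Classification of closed lines of `k`-subsets
-/

open Finset Pointwise

set_option linter.unusedSectionVars false

namespace Pool.Agent.Helper29.FT

variable {Ω : Type*} [Fintype Ω] [DecidableEq Ω]

/-- The partial linear space property of a single line with respect to the alternating group. -/
def PL (L : Finset (Finset Ω)) : Prop :=
  ∀ g ∈ alternatingGroup Ω, ∀ a ∈ L, ∀ b ∈ L, a ≠ b → g • a ∈ L → g • b ∈ L → g • L = L

/-- Closure under transpositions inside the cells of two members. -/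
def ClosedL (L : Finset (Finset Ω)) : Prop :=
  ∀ a ∈ L, ∀ b ∈ L, a ≠ b → ∀ x y, (x ∈ a ↔ y ∈ a) → (x ∈ b ↔ y ∈ b) →
    ∀ d ∈ L, Equiv.swap x y • d ∈ L

/-- `x` and `y` may be exchanged. -/
def Rel (L : Finset (Finset Ω)) (x y : Ω) : Prop := ∀ d ∈ L, Equiv.swap x y • d ∈ L

theorem swap_smul_eq (x y : Ω) (a : Finset Ω) (h : x ∈ a ↔ y ∈ a) :
    Equiv.swap x y • a = a := by
  rw [smul_eq_iff]
  intro z
  rcases eq_or_ne z x with rfl | hzx
  · rw [Equiv.swap_apply_left]
    exact h.symm
  · rcases eq_or_ne z y with rfl | hzy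
    · rw [Equiv.swap_apply_right]
      exact h
    · rw [Equiv.swap_apply_of_ne_of_ne hzx hzy]

theorem closed_of_nonexc {L : Finset (Finset Ω)} (hPL : PL L)
    (hne : ∀ a ∈ L, ∀ b ∈ L, ∀ d ∈ L, a ≠ b →
      ∃ x y, x ≠ y ∧ (x ∈ a ↔ y ∈ a) ∧ (x ∈ b ↔ y ∈ b) ∧ (x ∈ d ↔ y ∈ d)) :
    ClosedL L := by
  intro a ha b hb hab x y hxa hxb d hd
  by_cases hxd : x ∈ d ↔ y ∈ d
  · rw [swap_smul_eq x y d hxd]
    exact hd
  · have hxy : x ≠ y := by
      rintro rfl
      exact hxd Iff.rfl
    obtain ⟨u, v, huv, hua, hub, hud⟩ := hne a ha b hb d hd hab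
    have hg : Equiv.swap x y * Equiv.swap u v ∈ alternatingGroup Ω := by
      rw [Equiv.Perm.mem_alternatingGroup, map_mul, Equiv.Perm.sign_swap hxy,
        Equiv.Perm.sign_swap huv]
      decide
    have hga : (Equiv.swap x y * Equiv.swap u v) • a = a := by
      rw [mul_smul, swap_smul_eq u v a hua, swap_smul_eq x y a hxa]
    have hgb : (Equiv.swap x y * Equiv.swap u v) • b = b := by
      rw [mul_smul, swap_smul_eq u v b hub, swap_smul_eq x y b hxb]
    have hL := hPL _ hg a ha b hb hab (by rw [hga]; exact ha) (by rw [hgb]; exact hb)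
    have hgd : (Equiv.swap x y * Equiv.swap u v) • d = Equiv.swap x y • d := by
      rw [mul_smul, swap_smul_eq u v d hud]
    rw [← hgd]
    have : (Equiv.swap x y * Equiv.swap u v) • d ∈
        (Equiv.swap x y * Equiv.swap u v) • L := Finset.smul_mem_smul_finset hd
    rw [hL] at this
    exact this

theorem Rel.refl (L : Finset (Finset Ω)) (x : Ω) : Rel L x x := by
  intro d hd
  rw [swap_smul_eq x x d Iff.rfl]
  exact hd

theorem Rel.symm {L : Finset (Finset Ω)} {x y : Ω} (h : Rel L x y) : Rel L y x := by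
  intro d hd
  rw [Equiv.swap_comm]
  exact h d hd

theorem Rel.trans {L : Finset (Finset Ω)} {x y z : Ω} (h : Rel L x y) (h' : Rel L y z) :
    Rel L x z := by
  rcases eq_or_ne x y with rfl | hxy
  · exact h'
  rcases eq_or_ne x z with rfl | hxz
  · exact Rel.refl L x
  intro d hd
  rw [Equiv.swap_comm x z, ← Equiv.swap_mul_swap_mul_swap hxy hxz, mul_smul, mul_smul]
  exact h' _ (h _ (h' _ hd))

theorem swap_smul_of_mem {x y : Ω} {d : Finset Ω} (hx : x ∈ d) (hy : y ∉ d) :
    Equiv.swap x y • d = insert y (d.erase x) := by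
  ext z
  rw [mem_swap_smul]
  rcases eq_or_ne z x with rfl | hzx
  · rw [Equiv.swap_apply_left]
    have : z ≠ y := fun h => hy (h ▸ hx)
    simp [hy, this]
  · rcases eq_or_ne z y with rfl | hzy
    · rw [Equiv.swap_apply_right]
      simp [hx]
    · rw [Equiv.swap_apply_of_ne_of_ne hzx hzy]
      simp [hzx, hzy]

/-- Moving inside related elements. -/
theorem move {L : Finset (Finset Ω)} (e : Finset Ω) :
    ∀ m : ℕ, ∀ d ∈ L, #(d \ e) = m → #d = #e →
      (∀ x ∈ d, x ∉ e → ∀ y ∈ e, y ∉ d → Rel L x y) → e ∈ L := by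
  intro m
  induction m with
  | zero =>
    intro d hd h0 hc _
    rw [card_eq_zero, sdiff_eq_empty_iff_subset] at h0
    rw [← eq_of_subset_of_card_le h0 hc.ge]
    exact hd
  | succ m ih =>
    intro d hd hm hc hR
    have hne : (d \ e).Nonempty := by
      rw [← card_pos, hm]
      omega
    have hne' : (e \ d).Nonempty := by
      rw [← card_pos]
      have h1 := card_sdiff_add_card_inter d e
      have h2 := card_sdiff_add_card_inter e d
      rw [inter_comm] at h2
      omega
    obtain ⟨x, hx⟩ := hne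
    obtain ⟨y, hy⟩ := hne'
    rw [mem_sdiff] at hx hy
    have hd1 := hR x hx.1 hx.2 y hy.1 hy.2 d hd
    rw [swap_smul_of_mem hx.1 hy.2] at hd1
    apply ih _ hd1
    · have : (insert y (d.erase x)) \ e = (d \ e).erase x := by
        ext z
        simp only [mem_sdiff, mem_insert, mem_erase]
        constructor
        · rintro ⟨rfl | h, h'⟩
          · exact absurd hy.1 h'
          · exact ⟨h.1, h.2, h'⟩
        · rintro ⟨h, h', h''⟩
          exact ⟨Or.inr ⟨h, h'⟩, h''⟩
      rw [this, card_erase_of_mem (mem_sdiff.mpr hx), hm]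
      rfl
    · rw [card_insert_of_notMem (by simp [hy.2]), card_erase_of_mem hx.1, ← hc]
      have : 0 < #d := card_pos.mpr ⟨x, hx.1⟩
      omega
    · intro u hu hue v hv hvd
      simp only [mem_insert, mem_erase, not_or, not_and] at hu hvd
      rcases hu with rfl | hu
      · exact absurd hy.1 hue
      · apply hR u hu.2 hue v hv
        intro hvd'
        rcases eq_or_ne v x with rfl | hvx
        · exact hx.2 hv
        · exact hvd.2 hvx hvd'

end Pool.Agent.Helper29.FT
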