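import Pool.Agent.Helper29.FT.Line

/-!
# Classification of closed lines of `k`-subsets: the case of a cut class
-/

open Finset Pointwise

set_option linter.unusedSectionVars false

namespace Pool.Agent.Helper29.FT

variable {Ω : Type*} [Fintype Ω] [DecidableEq Ω]

theorem caseI {k : ℕ} (hn5 : 5 ≤ Fintype.card Ω) (hk2 : 2 ≤ k)
    (hkn : 2 * k ≤ Fintype.card Ω) (L : Finset (Finset Ω)) (hL : ∀ a ∈ L, #a = k)
    (h3 : 3 ≤ #L) (hC : ClosedL L)
    (hhom : ∀ d ∈ L, ∀ e ∈ L, ∃ g : Equiv.Perm Ω, g • L = L ∧ g • d = e)
    (d : Finset Ω) (hd : d ∈ L) (x y : Ω) (hxy : Rel L x y) (hx : x ∈ d) (hy : y ∉ d) :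
    (L = powersetCard k univ) ∨
    (∃ K : Finset Ω, #K = k - 1 ∧ ∀ e, e ∈ L ↔ ∃ z ∉ K, e = insert z K) ∨
    (∃ Y : Finset Ω, #Y = k + 1 ∧ L = powersetCard k Y) := by
  set K : Finset Ω := d.erase x with hK
  have hdk : #d = k := hL d hd
  have hKc : #K = k - 1 := by rw [hK, card_erase_of_mem hx, hdk]
  have hxK : x ∉ K := by simp [hK]
  have hyK : y ∉ K := by simp [hK, hy]
  have hne : x ≠ y := fun h => hy (h ▸ hx)
  have hdx : d = insert x K := (insert_erase hx).symm
  set d' : Finset Ω := insert y K with hd'
  have hd'L : d' ∈ L := by
    have := hxy d hd
    rw [swap_smul_of_mem hx hy] at this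
    exact this
  have hdd' : d ≠ d' := by
    intro h
    apply hy
    rw [h, hd']
    exact mem_insert_self _ _
  -- related elements
  have relK : ∀ p ∈ K, ∀ q ∈ K, Rel L p q := by
    intro p hp q hq
    exact hC d hd d' hd'L hdd' p q (by simp [hdx, hp, hq]) (by simp [hd', hp, hq])
  have relR : ∀ p, p ∉ d → p ≠ y → ∀ q, q ∉ d → q ≠ y → Rel L p q := by
    intro p hp hpy q hq hqy
    apply hC d hd d' hd'L hdd' p q (by simp [hp, hq])
    have h1 : p ∉ K := fun h => hp (by rw [hdx]; exact mem_insert_of_mem h)
    have h2 : q ∉ K := fun h => hq (by rw [hdx]; exact mem_insert_of_mem h)
    simp [hd', h1, h2, hpy, hqy]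
  obtain ⟨p0, hp0⟩ : K.Nonempty := by
    rw [← card_pos, hKc]
    omega
  have hp0d : p0 ∈ d := by rw [hdx]; exact mem_insert_of_mem hp0
  have hRcard : #(insert y d)ᶜ = Fintype.card Ω - (k + 1) := by
    rw [card_compl, card_insert_of_notMem hy, hdk]
  obtain ⟨r0, hr0, r1, hr1, hr01⟩ : ∃ r0 ∈ (insert y d)ᶜ, ∃ r1 ∈ (insert y d)ᶜ, r0 ≠ r1 := by
    have : 1 < #(insert y d)ᶜ := by rw [hRcard]; omega
    obtain ⟨a, ha, b, hb, hab⟩ := one_lt_card.mp this
    exact ⟨a, ha, b, hb, hab⟩
  simp only [mem_compl, mem_insert, not_or] at hr0 hr1
  have hr0K : r0 ∉ K := fun h => hr0.2 (by rw [hdx]; exact mem_insert_of_mem h)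
  by_cases hpx : Rel L p0 x
  · -- `K`, `x`, `y` related
    have relY : ∀ p ∈ insert y d, Rel L p x := by
      intro p hp
      rw [mem_insert, hdx, mem_insert] at hp
      rcases hp with rfl | rfl | hp
      · exact hxy.symm
      · exact Rel.refl _ _
      · exact (relK p hp p0 hp0).trans hpx
    by_cases hrx : Rel L r0 x
    · left
      have relall : ∀ p, Rel L p x := by
        intro p
        by_cases hp : p ∈ insert y d
        · exact relY p hp
        · rw [mem_insert, not_or] at hp
          exact (relR p hp.2 hp.1 r0 hr0.2 hr0.1).trans hrx
      ext e
      rw [mem_powersetCard]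
      constructor
      · intro he
        exact ⟨subset_univ _, hL e he⟩
      · rintro ⟨-, he⟩
        exact move e _ d hd rfl (by rw [hdk, he])
          (fun u _ _ v _ _ => (relall u).trans (relall v).symm)
    · right; right
      have notrel : ∀ r, r ∉ insert y d → ∀ p ∈ insert y d, ¬ Rel L p r := by
        intro r hr p hp hrel
        rw [mem_insert, not_or] at hr
        exact hrx ((relR r0 hr0.2 hr0.1 r hr.2 hr.1).trans (hrel.symm.trans (relY p hp)))
      have hcY : ∀ z ∈ insert y d, (insert y d).erase z ∈ L := by
        intro z hz
        apply move _ _ d hd rfl
        · rw [hdk, card_erase_of_mem hz, card_insert_of_notMem hy, hdk]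
          rfl
        · intro u hu _ v hv _
          exact (relY u (mem_insert_of_mem hu)).trans (relY v (mem_of_mem_erase hv)).symm
      have key : ∀ e ∈ L, (¬ e ⊆ insert y d) → e = (insert y d)ᶜ := by
        intro e he hne'
        obtain ⟨r, hre, hrY⟩ := not_subset.mp hne'
        have hdisj : ∀ z ∈ insert y d, z ∉ e := by
          intro z hz hze
          have hce : (insert y d).erase z ≠ e := by
            intro h
            rw [← h] at hze
            exact notMem_erase _ _ hze
          have hr' : r ∉ (insert y d).erase z := fun h => hrY (mem_of_mem_erase h)
          exact notrel r hrY z hz (hC _ (hcY z hz) e he hce z r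
            (by simp only [mem_erase, ne_eq, not_true_eq_false, false_and, false_iff]
                exact fun h => hrY h.2) (by simp [hze, hre]))
        ext r'
        rw [mem_compl]
        constructor
        · intro h h'
          exact hdisj r' h' h
        · intro h
          by_contra hr'e
          have hxY : x ∈ insert y d := mem_insert_of_mem hx
          have hce : (insert y d).erase x ≠ e := by
            intro h2
            have : y ∈ e := by
              rw [← h2, mem_erase]
              exact ⟨hne.symm, mem_insert_self _ _⟩
            exact hdisj y (mem_insert_self _ _) this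
          exact notrel r' h x hxY (hC _ (hcY x hxY) e he hce x r'
            (by simp only [mem_erase, ne_eq, not_true_eq_false, false_and, false_iff]
                exact fun h3 => h h3.2)
            (by simp only [hr'e, iff_false]
                exact hdisj x hxY))
      refine ⟨insert y d, by rw [card_insert_of_notMem hy, hdk], ?_⟩
      ext e
      rw [mem_powersetCard]
      constructor
      · intro he
        refine ⟨?_, hL e he⟩
        by_contra hsub
        have heq := key e he hsub
        obtain ⟨g, hgL, hgd⟩ := hhom d hd e he
        have hg' : g • d' ∈ L := by
          rw [← hgL]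
          exact Finset.smul_mem_smul_finset hd'L
        have hp' : g p0 ∈ g • d' := by
          rw [mem_smul_perm]
          exact mem_insert_of_mem hp0
        have hp : g p0 ∈ e := by
          rw [← hgd, mem_smul_perm]
          exact hp0d
        have : g • d' = (insert y d)ᶜ := by
          apply key _ hg'
          intro hs
          have h1 := hs hp'
          rw [heq, mem_compl] at hp
          exact hp h1
        rw [← heq, ← hgd] at this
        exact hdd' (smul_left_cancel g this).symm
      · rintro ⟨hsub, he⟩
        exact move e _ d hd rfl (by rw [hdk, he])
          (fun u hu _ v hv _ => (relY u (mem_insert_of_mem hu)).trans (relY v (hsub hv)).symm)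
  · by_cases hrx : Rel L r0 x
    · right; left
      have relZ : ∀ z, z ∉ K → Rel L z x := by
        intro z hz
        rcases eq_or_ne z x with rfl | hzx
        · exact Rel.refl _ _
        · rcases eq_or_ne z y with rfl | hzy
          · exact hxy.symm
          · have hzd : z ∉ d := by
              rw [hdx, mem_insert, not_or]
              exact ⟨hzx, hz⟩
            exact (relR z hzd hzy r0 hr0.2 hr0.1).trans hrx
      have notrel : ∀ p ∈ K, ∀ z, z ∉ K → ¬ Rel L p z := by
        intro p hp z hz hrel
        exact hpx ((relK p0 hp0 p hp).trans (hrel.trans (relZ z hz)))
      have hstar : ∀ z, z ∉ K → insert z K ∈ L := by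
        intro z hz
        apply move _ _ d hd rfl
        · rw [hdk, card_insert_of_notMem hz, hKc]
          omega
        · intro u hu hue v hv hvd
          rw [hdx, mem_insert] at hu
          rw [mem_insert] at hue hv
          rw [hdx, mem_insert] at hvd
          have hu' : u ∉ K := fun h => hue (Or.inr h)
          have hv' : v ∉ K := fun h => hvd (Or.inr h)
          exact (relZ u hu').trans (relZ v hv').symm
      refine ⟨K, hKc, ?_⟩
      intro e
      constructor
      · intro he
        have hKe : K ⊆ e := by
          intro u hu
          by_contra hue
          have hall : Kᶜ ⊆ e := by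
            intro z hz
            rw [mem_compl] at hz
            by_contra hze
            have hce : insert z K ≠ e := by
              intro h
              apply hue
              rw [← h]
              exact mem_insert_of_mem hu
            exact notrel u hu z hz (hC _ (hstar z hz) e he hce u z
              (by simp [hu]) (by simp [hue, hze]))
          have h1 := card_le_card hall
          rw [card_compl, hKc, hL e he] at h1
          omega
        have h2 : #(e \ K) = 1 := by
          rw [card_sdiff_of_subset hKe, hL e he, hKc]
          omega
        obtain ⟨z, hz⟩ := card_eq_one.mp h2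
        have hz' : z ∈ e \ K := by rw [hz]; exact mem_singleton_self _
        rw [mem_sdiff] at hz'
        refine ⟨z, hz'.2, ?_⟩
        rw [← sdiff_union_of_subset hKe, hz]
        rfl
      · rintro ⟨z, hz, rfl⟩
        exact hstar z hz
    · by_cases hpr : Rel L p0 r0
      · exfalso
        have hd'' := hpr d hd
        have hne'' : d ≠ Equiv.swap p0 r0 • d := by
          intro h
          have : r0 ∈ Equiv.swap p0 r0 • d := by
            rw [mem_swap_smul, Equiv.swap_apply_right]
            exact hp0d
          rw [← h] at this
          exact hr0.2 this
        have h1 : y ∉ Equiv.swap p0 r0 • d := by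
          rw [mem_swap_smul, Equiv.swap_apply_of_ne_of_ne]
          · exact hy
          · rintro rfl
            exact hyK hp0
          · exact fun h => hr0.1 h.symm
        have h2 : r1 ∉ Equiv.swap p0 r0 • d := by
          rw [mem_swap_smul, Equiv.swap_apply_of_ne_of_ne]
          · exact hr1.2
          · rintro rfl
            exact hr1.2 hp0d
          · exact hr01.symm
        have h3 : Rel L y r1 := hC d hd _ hd'' hne'' y r1 (by simp [hy, hr1.2])
          (by simp only [h1, h2])
        exact hrx ((relR r0 hr0.2 hr0.1 r1 hr1.2 hr1.1).trans (h3.symm.trans hxy.symm))
      · right; right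
        have nKx : ∀ p ∈ K, ¬ Rel L p x := fun p hp h => hpx ((relK p0 hp0 p hp).trans h)
        have nKy : ∀ p ∈ K, ¬ Rel L p y := fun p hp h => nKx p hp (h.trans hxy.symm)
        have nRx : ∀ r, r ∉ d → r ≠ y → ¬ Rel L r x := fun r hr hry h =>
          hrx ((relR r0 hr0.2 hr0.1 r hr hry).trans h)
        have nRy : ∀ r, r ∉ d → r ≠ y → ¬ Rel L r y := fun r hr hry h =>
          nRx r hr hry (h.trans hxy.symm)
        have hbig : ∀ e ∈ L, K ⊆ e → (∀ r, r ∉ d → r ≠ y → r ∈ e) → False := by
          intro e he h1 h2
          have h3 : K ∪ (insert y d)ᶜ ⊆ e := by
            apply union_subset h1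
            intro r hr
            rw [mem_compl, mem_insert, not_or] at hr
            exact h2 r hr.2 hr.1
          have h4 := card_le_card h3
          rw [card_union_of_disjoint, hRcard, hKc, hL e he] at h4
          · have : k + 1 ≤ Fintype.card Ω := by omega
            omega
          · rw [disjoint_left]
            intro p hp hp'
            rw [mem_compl, mem_insert, not_or, hdx, mem_insert, not_or] at hp'
            exact hp'.2.2 hp
        have main : ∀ e ∈ L, e ≠ d → e ≠ d' → e = {x, y} := by
          intro e he hed hed'
          have hyd : y ∈ d' := mem_insert_self _ _
          have hxd' : x ∉ d' := by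
            rw [hd', mem_insert, not_or]
            exact ⟨hne, hxK⟩
          by_cases hxe : x ∈ e <;> by_cases hye : y ∈ e
          · -- both
            ext z
            simp only [mem_insert, mem_singleton]
            constructor
            · intro hz
              by_contra hcon
              push Not at hcon
              by_cases hzK : z ∈ K
              · exact nKx z hzK (hC d hd e he hed.symm z x
                  (by simp [hx, hdx, hzK]) (by simp [hz, hxe]))
              · have hzd : z ∉ d := by
                  rw [hdx, mem_insert, not_or]
                  exact ⟨hcon.1, hzK⟩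
                exact nRy z hzd hcon.2 (hC d hd e he hed.symm z y
                  (by simp [hy, hzd]) (by simp [hz, hye]))
            · rintro (rfl | rfl)
              · exact hxe
              · exact hye
          · -- x only
            exfalso
            refine hbig e he ?_ ?_
            · intro p hp
              by_contra hpe
              exact nKy p hp (hC d' hd'L e he hed'.symm p y
                (by simp [hd', hp]) (by simp [hpe, hye]))
            · intro r hr hry
              by_contra hre
              exact nRy r hr hry (hC d hd e he hed.symm r y
                (by simp [hr, hy]) (by simp [hre, hye]))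
          · -- y only
            exfalso
            refine hbig e he ?_ ?_
            · intro p hp
              by_contra hpe
              have hpd : p ∈ d := by rw [hdx]; exact mem_insert_of_mem hp
              exact nKx p hp (hC d hd e he hed.symm p x
                (by simp [hpd, hx]) (by simp [hpe, hxe]))
            · intro r hr hry
              by_contra hre
              have hrd' : r ∉ d' := by
                rw [hd', mem_insert, not_or]
                refine ⟨hry, fun h => hr ?_⟩
                rw [hdx]
                exact mem_insert_of_mem h
              exact nRx r hr hry (hC d' hd'L e he hed'.symm r x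
                (by simp [hrd', hxd']) (by simp [hre, hxe]))
          · -- none
            exfalso
            refine hbig e he ?_ ?_
            · intro p hp
              by_contra hpe
              have hpd : p ∈ d := by rw [hdx]; exact mem_insert_of_mem hp
              exact nKx p hp (hC d hd e he hed.symm p x
                (by simp [hpd, hx]) (by simp [hpe, hxe]))
            · intro r hr hry
              by_contra hre
              exact nRy r hr hry (hC d hd e he hed.symm r y
                (by simp [hr, hy]) (by simp [hre, hye]))
        -- third element
        obtain ⟨e, he, hed, hed'⟩ : ∃ e ∈ L, e ≠ d ∧ e ≠ d' := by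
          by_contra hcon
          push Not at hcon
          have : L ⊆ {d, d'} := by
            intro e he
            rw [mem_insert, mem_singleton]
            by_cases h : e = d
            · exact Or.inl h
            · exact Or.inr (hcon e he h)
          have h1 := card_le_card this
          have h2 := Finset.card_le_two (a := d) (b := d')
          omega
        have hexy := main e he hed hed'
        have hk : k = 2 := by
          rw [← hL e he, hexy, card_pair hne]
        refine ⟨insert y d, by rw [card_insert_of_notMem hy, hdk], ?_⟩
        apply eq_of_subset_of_card_le
        · intro f hf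
          rw [mem_powersetCard]
          refine ⟨?_, hL f hf⟩
          by_cases h1 : f = d
          · rw [h1]
            exact subset_insert _ _
          · by_cases h2 : f = d'
            · rw [h2, hd']
              apply insert_subset_insert
              rw [hdx]
              exact subset_insert _ _
            · rw [main f hf h1 h2]
              intro z hz
              rw [mem_insert, mem_singleton] at hz
              rcases hz with rfl | rfl
              · exact mem_insert_of_mem hx
              · exact mem_insert_self _ _
        · rw [card_powersetCard, card_insert_of_notMem hy, hdk, hk]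
          have : Nat.choose (2 + 1) 2 = 3 := by decide
          omega

end Pool.Agent.Helper29.FT
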