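import Pool.Agent.Helper29.FT.Line2

/-!
# Classification of closed lines of `k`-subsets: no cut class, and the final classification
-/

open Finset Pointwise

set_option linter.unusedSectionVars false

namespace Pool.Agent.Helper29.FT

variable {Ω : Type*} [Fintype Ω] [DecidableEq Ω]

/-- Blown up triangle. -/
def IsT3 (k : ℕ) (L : Finset (Finset Ω)) : Prop :=
  ∃ A B C : Finset Ω, Disjoint A B ∧ Disjoint A C ∧ Disjoint B C ∧ #B = #A ∧ #C = #A ∧
    k = 2 * #A ∧ L = {A ∪ B, A ∪ C, B ∪ C}

/-- Sunflower with three petals covering everything. -/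
def IsT4 (k : ℕ) (L : Finset (Finset Ω)) : Prop :=
  ∃ A B C D : Finset Ω, Disjoint A B ∧ Disjoint A C ∧ Disjoint A D ∧ Disjoint B C ∧
    Disjoint B D ∧ Disjoint C D ∧ A ∪ B ∪ C ∪ D = univ ∧ #C = #B ∧ #D = #B ∧
    k = #A + #B ∧ L = {A ∪ B, A ∪ C, A ∪ D}

theorem caseII {k : ℕ} (hk2 : 2 ≤ k)
    (L : Finset (Finset Ω)) (hL : ∀ a ∈ L, #a = k)
    (h3 : 3 ≤ #L) (hC : ClosedL L)
    (hun : ∀ d ∈ L, ∀ x y, Rel L x y → (x ∈ d ↔ y ∈ d)) :
    IsT3 k L ∨ IsT4 k L := by
  have star : ∀ a ∈ L, ∀ b ∈ L, a ≠ b → ∀ d ∈ L, ∀ x y, (x ∈ a ↔ y ∈ a) →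
      (x ∈ b ↔ y ∈ b) → (x ∈ d ↔ y ∈ d) := by
    intro a ha b hb hab d hd x y h1 h2
    exact hun d hd x y (fun e he => hC a ha b hb hab x y h1 h2 e he)
  obtain ⟨a, ha, b, hb, d0, hd0, hab, had0, hbd0⟩ := two_lt_card.mp (by omega : 2 < #L)
  have hak := hL a ha
  have hbk := hL b hb
  have hAB := card_sdiff_add_card_inter a b
  have hBA := card_sdiff_add_card_inter b a
  rw [inter_comm] at hBA
  have hAne : (a \ b).Nonempty := by
    rw [sdiff_nonempty]
    intro h
    exact hab (eq_of_subset_of_card_le h (by omega))
  have hBne : (b \ a).Nonempty := by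
    rw [sdiff_nonempty]
    intro h
    exact hab (eq_of_subset_of_card_le h (by omega)).symm
  obtain ⟨z1, hz1⟩ := hAne
  obtain ⟨z2, hz2⟩ := hBne
  rw [mem_sdiff] at hz1 hz2
  by_cases hA : (a ∩ b).Nonempty
  · obtain ⟨x0, hx0⟩ := hA
    rw [mem_inter] at hx0
    -- membership of any third element
    have third : ∀ d ∈ L, a ≠ d → b ≠ d →
        (x0 ∈ d ∧ ∀ z, z ∈ d ↔ (z ∈ a ↔ z ∈ b)) ∨ (x0 ∉ d ∧ ∀ z, z ∈ d ↔ ¬ (z ∈ a ↔ z ∈ b)) := by
      intro d hd had hbd
      have e1 : ∀ z, z ∈ a → z ∉ b → (z ∈ d ↔ x0 ∉ d) := by
        intro z hza hzb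
        have := star a ha d hd had b hb x0 z (by simp [hx0.1, hza])
        simp only [hx0.2, hzb] at this
        tauto
      have e2 : ∀ z, z ∉ a → z ∈ b → (z ∈ d ↔ x0 ∉ d) := by
        intro z hza hzb
        have := star b hb d hd hbd a ha x0 z (by simp [hx0.2, hzb])
        simp only [hx0.1, hza] at this
        tauto
      have e3 : ∀ z, z ∈ a → z ∈ b → (z ∈ d ↔ x0 ∈ d) := by
        intro z hza hzb
        exact star a ha b hb hab d hd z x0 (by simp [hx0.1, hza]) (by simp [hx0.2, hzb])
      have e4 : ∀ z, z ∉ a → z ∉ b → (z ∈ d ↔ x0 ∈ d) := by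
        intro z hza hzb
        have := star a ha d hd had b hb z2 z (by simp [hz2.2, hza])
        simp only [hz2.1, hzb] at this
        have h2 := e2 z2 hz2.2 hz2.1
        tauto
      by_cases hx : x0 ∈ d
      · left
        refine ⟨hx, fun z => ?_⟩
        by_cases hza : z ∈ a <;> by_cases hzb : z ∈ b
        · simp [hza, hzb, e3 z hza hzb, hx]
        · simp [hza, hzb, e1 z hza hzb, hx]
        · simp [hza, hzb, e2 z hza hzb, hx]
        · simp [hza, hzb, e4 z hza hzb, hx]
      · right
        refine ⟨hx, fun z => ?_⟩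
        by_cases hza : z ∈ a <;> by_cases hzb : z ∈ b
        · simp [hza, hzb, e3 z hza hzb, hx]
        · simp [hza, hzb, e1 z hza hzb, hx]
        · simp [hza, hzb, e2 z hza hzb, hx]
        · simp [hza, hzb, e4 z hza hzb, hx]
    have eqthird : ∀ d ∈ L, a ≠ d → b ≠ d → d = d0 := by
      intro d hd had hbd
      rcases third d hd had hbd with ⟨hx, h⟩ | ⟨hx, h⟩ <;>
        rcases third d0 hd0 had0 hbd0 with ⟨hx', h'⟩ | ⟨hx', h'⟩
      · ext z
        rw [h, h']
      · exfalso
        -- d and d0 complementary
        have hdd0 : d ≠ d0 := by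
          rintro rfl
          exact hx' hx
        have hw : ∃ w, w ∉ a ∧ w ∉ b := by
          by_contra hcon
          push Not at hcon
          have : d ⊆ a := by
            intro z hz
            by_contra hza
            exact hza (((h z).mp hz).mpr (hcon z hza))
          have h5 := eq_of_subset_of_card_le this (by rw [hak, hL d hd])
          exact had h5.symm
        obtain ⟨w, hwa, hwb⟩ := hw
        have := star d hd d0 hd0 hdd0 a ha x0 w
          (by rw [h, h]; simp [hx0.1, hx0.2, hwa, hwb])
          (by rw [h', h']; simp [hx0.1, hx0.2, hwa, hwb])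
        exact hwa (this.mp hx0.1)
      · exfalso
        have hdd0 : d0 ≠ d := by
          rintro rfl
          exact hx hx'
        have hw : ∃ w, w ∉ a ∧ w ∉ b := by
          by_contra hcon
          push Not at hcon
          have : d0 ⊆ a := by
            intro z hz
            by_contra hza
            exact hza (((h' z).mp hz).mpr (hcon z hza))
          have h5 := eq_of_subset_of_card_le this (by rw [hak, hL d0 hd0])
          exact had0 h5.symm
        obtain ⟨w, hwa, hwb⟩ := hw
        have := star d0 hd0 d hd hdd0 a ha x0 w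
          (by rw [h', h']; simp [hx0.1, hx0.2, hwa, hwb])
          (by rw [h, h]; simp [hx0.1, hx0.2, hwa, hwb])
        exact hwa (this.mp hx0.1)
      · ext z
        rw [h, h']
    have hLeq : L = {a, b, d0} := by
      ext e
      simp only [mem_insert, mem_singleton]
      constructor
      · intro he
        by_cases h1 : e = a
        · exact Or.inl h1
        · by_cases h2 : e = b
          · exact Or.inr (Or.inl h2)
          · exact Or.inr (Or.inr (eqthird e he (Ne.symm h1) (Ne.symm h2)))
      · rintro (rfl | rfl | rfl)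
        · exact ha
        · exact hb
        · exact hd0
    rcases third d0 hd0 had0 hbd0 with ⟨hx', h'⟩ | ⟨hx', h'⟩
    · right
      have hd0eq : d0 = (a ∩ b) ∪ (a ∪ b)ᶜ := by
        ext z
        rw [h']
        simp only [mem_union, mem_inter, mem_compl]
        tauto
      have hdisj : Disjoint (a ∩ b) (a ∪ b)ᶜ := by
        rw [disjoint_left]
        intro z hz hz'
        simp only [mem_union, mem_inter, mem_compl] at hz hz'
        tauto
      have hcd : #d0 = #(a ∩ b) + #(a ∪ b)ᶜ := by
        rw [← card_union_of_disjoint hdisj, ← hd0eq]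
      have hd0k := hL d0 hd0
      refine ⟨a ∩ b, a \ b, b \ a, (a ∪ b)ᶜ, ?_, ?_, ?_, ?_, ?_, ?_, ?_, ?_, ?_, ?_, ?_⟩
      · rw [disjoint_left]; intro z hz hz'; simp only [mem_inter, mem_sdiff] at hz hz'; tauto
      · rw [disjoint_left]; intro z hz hz'; simp only [mem_inter, mem_sdiff] at hz hz'; tauto
      · exact hdisj
      · rw [disjoint_left]; intro z hz hz'; simp only [mem_sdiff] at hz hz'; tauto
      · rw [disjoint_left]; intro z hz hz'
        simp only [mem_union, mem_compl, mem_sdiff] at hz hz'; tauto
      · rw [disjoint_left]; intro z hz hz'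
        simp only [mem_union, mem_compl, mem_sdiff] at hz hz'; tauto
      · ext z
        simp only [mem_union, mem_compl, mem_sdiff, mem_inter, mem_univ, iff_true]
        tauto
      · omega
      · omega
      · omega
      · rw [hLeq, hd0eq]
        congr 1
        · ext z
          simp only [mem_union, mem_sdiff, mem_inter]
          tauto
        · congr 1
          ext z
          simp only [mem_union, mem_sdiff, mem_inter]
          tauto
    · left
      have hd0eq : d0 = (a \ b) ∪ (b \ a) := by
        ext z
        rw [h']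
        simp only [mem_union, mem_sdiff]
        tauto
      have hdisj : Disjoint (a \ b) (b \ a) := by
        rw [disjoint_left]
        intro z hz hz'
        simp only [mem_sdiff] at hz hz'
        tauto
      have hcd : #d0 = #(a \ b) + #(b \ a) := by
        rw [← card_union_of_disjoint hdisj, ← hd0eq]
      have hd0k := hL d0 hd0
      refine ⟨a ∩ b, a \ b, b \ a, ?_, ?_, hdisj, ?_, ?_, ?_, ?_⟩
      · rw [disjoint_left]; intro z hz hz'; simp only [mem_inter, mem_sdiff] at hz hz'; tauto
      · rw [disjoint_left]; intro z hz hz'; simp only [mem_inter, mem_sdiff] at hz hz'; tauto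
      · omega
      · omega
      · omega
      · rw [hLeq, hd0eq]
        congr 1
        · ext z
          simp only [mem_union, mem_sdiff, mem_inter]
          tauto
        · congr 1
          ext z
          simp only [mem_union, mem_sdiff, mem_inter]
          tauto
  · -- disjoint a, b
    right
    rw [not_nonempty_iff_eq_empty] at hA
    have hdisj : ∀ z, z ∈ a → z ∉ b := by
      intro z hz hz'
      have : z ∈ a ∩ b := mem_inter.mpr ⟨hz, hz'⟩
      rw [hA] at this
      exact notMem_empty _ this
    have third : ∀ d ∈ L, a ≠ d → b ≠ d → d = (a ∪ b)ᶜ := by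
      intro d hd had hbd
      have hda : ∀ z ∈ d, z ∉ a := by
        intro z hz hza
        apply had
        apply eq_of_subset_of_card_le
        · intro w hw
          exact (star a ha b hb hab d hd z w (by simp [hza, hw])
            (by simp [hdisj z hza, hdisj w hw])).mp hz
        · rw [hL d hd, hak]
      have hdb : ∀ z ∈ d, z ∉ b := by
        intro z hz hzb
        apply hbd
        apply eq_of_subset_of_card_le
        · intro w hw
          exact (star a ha b hb hab d hd z w
            (by
              have h1 : z ∉ a := fun h => hdisj z h hzb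
              have h2 : w ∉ a := fun h => hdisj w h hw
              simp [h1, h2])
            (by simp [hzb, hw])).mp hz
        · rw [hL d hd, hbk]
      obtain ⟨z0, hz0⟩ : d.Nonempty := by
        rw [← card_pos, hL d hd]
        omega
      ext w
      simp only [mem_compl, mem_union, not_or]
      constructor
      · intro hw
        exact ⟨hda w hw, hdb w hw⟩
      · rintro ⟨h1, h2⟩
        exact (star a ha b hb hab d hd z0 w (by simp [hda z0 hz0, h1])
          (by simp [hdb z0 hz0, h2])).mp hz0
    have hd0eq := third d0 hd0 had0 hbd0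
    have hLeq : L = {a, b, d0} := by
      ext e
      simp only [mem_insert, mem_singleton]
      constructor
      · intro he
        by_cases h1 : e = a
        · exact Or.inl h1
        · by_cases h2 : e = b
          · exact Or.inr (Or.inl h2)
          · right; right
            rw [third e he (Ne.symm h1) (Ne.symm h2), hd0eq]
      · rintro (rfl | rfl | rfl)
        · exact ha
        · exact hb
        · exact hd0
    refine ⟨∅, a, b, d0, disjoint_empty_left _, disjoint_empty_left _, disjoint_empty_left _,
      ?_, ?_, ?_, ?_, ?_, ?_, ?_, ?_⟩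
    · rw [disjoint_left]; exact hdisj
    · rw [disjoint_left]
      intro z hz hz'
      rw [hd0eq] at hz'
      simp only [mem_compl, mem_union, not_or] at hz'
      exact hz'.1 hz
    · rw [disjoint_left]
      intro z hz hz'
      rw [hd0eq] at hz'
      simp only [mem_compl, mem_union, not_or] at hz'
      exact hz'.2 hz
    · rw [hd0eq]
      ext z
      simp only [mem_union, mem_compl, mem_univ, iff_true, notMem_empty, false_or]
      tauto
    · omega
    · rw [hL d0 hd0, hak]
    · rw [hak, card_empty]
      omega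
    · rw [hLeq, empty_union, empty_union, empty_union]

/-- The classification of closed lines. -/
theorem line_class {k : ℕ} (hn5 : 5 ≤ Fintype.card Ω) (hk2 : 2 ≤ k)
    (hkn : 2 * k ≤ Fintype.card Ω) (L : Finset (Finset Ω)) (hL : ∀ a ∈ L, #a = k)
    (h3 : 3 ≤ #L) (hC : ClosedL L)
    (hhom : ∀ d ∈ L, ∀ e ∈ L, ∃ g : Equiv.Perm Ω, g • L = L ∧ g • d = e) :
    (L = powersetCard k univ) ∨
    (∃ K : Finset Ω, #K = k - 1 ∧ ∀ e, e ∈ L ↔ ∃ z ∉ K, e = insert z K) ∨
    (∃ Y : Finset Ω, #Y = k + 1 ∧ L = powersetCard k Y) ∨ IsT3 k L ∨ IsT4 k L := by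
  by_cases hcut : ∃ d ∈ L, ∃ x y, Rel L x y ∧ x ∈ d ∧ y ∉ d
  · obtain ⟨d, hd, x, y, hxy, hx, hy⟩ := hcut
    rcases caseI hn5 hk2 hkn L hL h3 hC hhom d hd x y hxy hx hy with h | h | h
    · exact Or.inl h
    · exact Or.inr (Or.inl h)
    · exact Or.inr (Or.inr (Or.inl h))
  · push Not at hcut
    right; right; right
    apply caseII hk2 L hL h3 hC
    intro d hd x y hxy
    constructor
    · exact hcut d hd x y hxy
    · exact hcut d hd y x hxy.symm

end Pool.Agent.Helper29.FT
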