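import Pool.Agent.Helper29.FT.Line3

/-!
# Exceptional triples (`n ≤ 8`)
-/

open Finset Pointwise

set_option linter.unusedSectionVars false

namespace Pool.Agent.Helper29.FT

variable {Ω : Type*} [Fintype Ω] [DecidableEq Ω]

/-- The Fano plane on `Fin 7`. -/
def fano : Finset (Finset (Fin 7)) :=
  {{0, 1, 2}, {0, 3, 4}, {0, 5, 6}, {1, 3, 5}, {1, 4, 6}, {2, 3, 6}, {2, 4, 5}}

/-- `L` is the line set of a Fano plane with point set `Ω`. -/
def IsFano (L : Finset (Finset Ω)) : Prop :=
  ∃ e : Fin 7 ≃ Ω, L = fano.image (fun a => a.image e)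

/-- membership coloring of a triple of sets -/
def col3 (a b d : Finset Ω) (x : Ω) : Bool × Bool × Bool :=
  (decide (x ∈ a), decide (x ∈ b), decide (x ∈ d))

theorem PL.smul {L : Finset (Finset Ω)} (h : PL L) (σ : Equiv.Perm Ω) : PL (σ • L) := by
  intro g hg a ha b hb hab hga hgb
  have h1 : σ⁻¹ * g * σ ∈ alternatingGroup Ω := by
    rw [Equiv.Perm.mem_alternatingGroup] at hg ⊢
    rw [map_mul, map_mul, hg, map_inv]
    simp
  have memiff : ∀ c : Finset Ω, c ∈ σ • L ↔ σ⁻¹ • c ∈ L := by
    intro c
    constructor
    · intro hc
      have := Finset.smul_mem_smul_finset (a := σ⁻¹) hc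
      rwa [inv_smul_smul] at this
    · intro hc
      have := Finset.smul_mem_smul_finset (a := σ) hc
      rwa [smul_inv_smul] at this
  have h2 := h _ h1 (σ⁻¹ • a) ((memiff a).mp ha) (σ⁻¹ • b) ((memiff b).mp hb)
    (fun h => hab (smul_left_cancel _ h))
    (by rw [mul_smul, smul_inv_smul, mul_smul]; exact (memiff _).mp hga)
    (by rw [mul_smul, smul_inv_smul, mul_smul]; exact (memiff _).mp hgb)
  rw [mul_smul, mul_smul] at h2
  have h3 := congrArg (fun M => σ • M) h2
  simp only [smul_inv_smul] at h3
  exact h3

theorem mem_smul_L (σ : Equiv.Perm Ω) (L : Finset (Finset Ω)) (c : Finset Ω) :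
    c ∈ σ • L ↔ σ⁻¹ • c ∈ L := by
  constructor
  · intro hc
    have := Finset.smul_mem_smul_finset (a := σ⁻¹) hc
    rwa [inv_smul_smul] at this
  · intro hc
    have := Finset.smul_mem_smul_finset (a := σ) hc
    rwa [smul_inv_smul] at this

theorem card_smul_inter (σ : Equiv.Perm Ω) (a b : Finset Ω) :
    #((σ • a) ∩ (σ • b)) = #(a ∩ b) := by
  rw [← Finset.smul_finset_inter, card_smul_finset]

/-- Cardinalities of the three sets and of `Ω` in terms of the fibres of `col3`. -/
theorem card_col3 (a b d : Finset Ω) :
    #a = #{x | col3 a b d x = (true, true, true)} + #{x | col3 a b d x = (true, true, false)} +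
      #{x | col3 a b d x = (true, false, true)} + #{x | col3 a b d x = (true, false, false)} ∧
    #b = #{x | col3 a b d x = (true, true, true)} + #{x | col3 a b d x = (true, true, false)} +
      #{x | col3 a b d x = (false, true, true)} + #{x | col3 a b d x = (false, true, false)} ∧
    #d = #{x | col3 a b d x = (true, true, true)} + #{x | col3 a b d x = (true, false, true)} +
      #{x | col3 a b d x = (false, true, true)} + #{x | col3 a b d x = (false, false, true)} ∧
    Fintype.card Ω = #{x | col3 a b d x = (true, true, true)} +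
      #{x | col3 a b d x = (true, true, false)} +
      #{x | col3 a b d x = (true, false, true)} + #{x | col3 a b d x = (true, false, false)} +
      #{x | col3 a b d x = (false, true, true)} + #{x | col3 a b d x = (false, true, false)} +
      #{x | col3 a b d x = (false, false, true)} + #{x | col3 a b d x = (false, false, false)} := by
  have key : ∀ e : Finset Ω, #e = ∑ c : Bool × Bool × Bool, #{x ∈ e | col3 a b d x = c} :=
    fun e => card_eq_sum_card_fiberwise (fun x _ => mem_univ _)
  have hsub : ∀ (e : Finset Ω) (c : Bool × Bool × Bool) (P : Prop) [Decidable P],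
      (∀ x, col3 a b d x = c → (x ∈ e ↔ P)) →
      #{x ∈ e | col3 a b d x = c} = if P then #{x | col3 a b d x = c} else 0 := by
    intro e c P _ h
    split_ifs with hP
    · congr 1
      ext x
      simp only [mem_filter, mem_univ, true_and]
      constructor
      · exact fun h' => h'.2
      · exact fun h' => ⟨(h x h').mpr hP, h'⟩
    · rw [card_eq_zero, filter_eq_empty_iff]
      intro x hx h'
      exact hP ((h x h').mp hx)
  have ha : ∀ c : Bool × Bool × Bool, #{x ∈ a | col3 a b d x = c} =
      if c.1 = true then #{x | col3 a b d x = c} else 0 := by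
    intro c
    apply hsub a c (c.1 = true)
    rintro x rfl
    simp [col3]
  have hb : ∀ c : Bool × Bool × Bool, #{x ∈ b | col3 a b d x = c} =
      if c.2.1 = true then #{x | col3 a b d x = c} else 0 := by
    intro c
    apply hsub b c (c.2.1 = true)
    rintro x rfl
    simp [col3]
  have hd : ∀ c : Bool × Bool × Bool, #{x ∈ d | col3 a b d x = c} =
      if c.2.2 = true then #{x | col3 a b d x = c} else 0 := by
    intro c
    apply hsub d c (c.2.2 = true)
    rintro x rfl
    simp [col3]
  have hu : Fintype.card Ω = ∑ c : Bool × Bool × Bool, #{x | col3 a b d x = c} := by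
    have := key univ
    rw [card_univ] at this
    exact this
  refine ⟨?_, ?_, ?_, ?_⟩
  · rw [key a]
    simp only [ha, Fintype.sum_prod_type, Fintype.sum_bool]
    simp
    omega
  · rw [key b]
    simp only [hb, Fintype.sum_prod_type, Fintype.sum_bool]
    simp
    omega
  · rw [key d]
    simp only [hd, Fintype.sum_prod_type, Fintype.sum_bool]
    simp
    omega
  · rw [hu]
    simp only [Fintype.sum_prod_type, Fintype.sum_bool]
    omega

/-- pairwise intersections in terms of the fibres -/
theorem card_col3_inter (a b d : Finset Ω) :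
    #(a ∩ b) = #{x | col3 a b d x = (true, true, true)} +
      #{x | col3 a b d x = (true, true, false)} ∧
    #(a ∩ d) = #{x | col3 a b d x = (true, true, true)} +
      #{x | col3 a b d x = (true, false, true)} ∧
    #(b ∩ d) = #{x | col3 a b d x = (true, true, true)} +
      #{x | col3 a b d x = (false, true, true)} := by
  refine ⟨?_, ?_, ?_⟩
  · rw [← card_union_of_disjoint]
    · congr 1
      ext x
      simp only [mem_inter, mem_union, mem_filter, mem_univ, true_and, col3, Prod.mk.injEq,
        decide_eq_true_eq, decide_eq_false_iff_not]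
      tauto
    · rw [disjoint_filter]
      intro x _ h h'
      rw [h] at h'
      simp at h'
  · rw [← card_union_of_disjoint]
    · congr 1
      ext x
      simp only [mem_inter, mem_union, mem_filter, mem_univ, true_and, col3, Prod.mk.injEq,
        decide_eq_true_eq, decide_eq_false_iff_not]
      tauto
    · rw [disjoint_filter]
      intro x _ h h'
      rw [h] at h'
      simp at h'
  · rw [← card_union_of_disjoint]
    · congr 1
      ext x
      simp only [mem_inter, mem_union, mem_filter, mem_univ, true_and, col3, Prod.mk.injEq,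
        decide_eq_true_eq, decide_eq_false_iff_not]
      tauto
    · rw [disjoint_filter]
      intro x _ h h'
      rw [h] at h'
      simp at h'

theorem exists_perm_col3 (a b d a' b' d' : Finset Ω)
    (h : ∀ c, #{x | col3 a b d x = c} = #{x | col3 a' b' d' x = c}) :
    ∃ σ : Equiv.Perm Ω, σ • a = a' ∧ σ • b = b' ∧ σ • d = d' := by
  obtain ⟨σ, hσ⟩ := exists_perm_of_fiber _ _ h
  refine ⟨σ, ?_, ?_, ?_⟩ <;>
  · rw [smul_eq_iff]
    intro x
    have := hσ x
    simp only [col3, Prod.mk.injEq, decide_eq_decide] at this
    tauto

end Pool.Agent.Helper29.FT
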