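import Pool.Agent.Helper29.FT.Small

/-!
# Exceptional triples (`n ≤ 8`), explicit cases
-/

open Finset Pointwise

set_option linter.unusedSectionVars false

namespace Pool.Agent.Helper29.FT

set_option maxRecDepth 100000 in
theorem fano_spec : ∀ e ∈ powersetCard 3 (univ : Finset (Fin 7)), e ∉ fano →
    (∀ j : Fin 3, ∃ f ∈ fano, #(e ∩ f) = j.1) := by
  decide

theorem smul_mem_of_fix {Ω : Type*} [Fintype Ω] [DecidableEq Ω] {L : Finset (Finset Ω)}
    (hPL : PL L) (g : Equiv.Perm Ω) (hg : Equiv.Perm.sign g = 1) (a b c : Finset Ω)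
    (ha : a ∈ L) (hb : b ∈ L) (hab : a ≠ b) (hga : g • a ∈ L) (hgb : g • b ∈ L)
    (hc : c ∈ L) : g • c ∈ L := by
  have h := hPL g (Equiv.Perm.mem_alternatingGroup.mpr hg) a ha b hb hab hga hgb
  have h2 := Finset.smul_mem_smul_finset (a := g) hc
  rw [h] at h2
  exact h2

theorem exc7_std (L : Finset (Finset (Fin 7))) (hL : ∀ a ∈ L, #a = 3) (hPL : PL L)
    (hNC : ∃ j < 3, ∀ a ∈ L, ∀ b ∈ L, a ≠ b → #(a ∩ b) ≠ j)
    (h1 : {0, 1, 2} ∈ L) (h2 : {0, 3, 4} ∈ L) (h3 : {1, 3, 5} ∈ L) : L = fano := by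
  have e1 : ({2, 4, 5} : Finset (Fin 7)) ∈ L := by
    have := smul_mem_of_fix hPL (Equiv.swap 1 2 * Equiv.swap 3 4) (by decide)
      {0, 1, 2} {0, 3, 4} {1, 3, 5} h1 h2 (by decide)
      (by have : (Equiv.swap (1 : Fin 7) 2 * Equiv.swap 3 4) • ({0, 1, 2} : Finset (Fin 7)) =
            {0, 1, 2} := by decide
          rw [this]; exact h1)
      (by have : (Equiv.swap (1 : Fin 7) 2 * Equiv.swap 3 4) • ({0, 3, 4} : Finset (Fin 7)) =
            {0, 3, 4} := by decide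
          rw [this]; exact h2) h3
    have h : (Equiv.swap (1 : Fin 7) 2 * Equiv.swap 3 4) • ({1, 3, 5} : Finset (Fin 7)) =
            {2, 4, 5} := by decide
    rwa [h] at this
  have e2 : ({2, 3, 6} : Finset (Fin 7)) ∈ L := by
    have := smul_mem_of_fix hPL (Equiv.swap 1 2 * Equiv.swap 5 6) (by decide)
      {0, 1, 2} {0, 3, 4} {1, 3, 5} h1 h2 (by decide)
      (by have : (Equiv.swap (1 : Fin 7) 2 * Equiv.swap 5 6) • ({0, 1, 2} : Finset (Fin 7)) =
            {0, 1, 2} := by decide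
          rw [this]; exact h1)
      (by have : (Equiv.swap (1 : Fin 7) 2 * Equiv.swap 5 6) • ({0, 3, 4} : Finset (Fin 7)) =
            {0, 3, 4} := by decide
          rw [this]; exact h2) h3
    have h : (Equiv.swap (1 : Fin 7) 2 * Equiv.swap 5 6) • ({1, 3, 5} : Finset (Fin 7)) =
            {2, 3, 6} := by decide
    rwa [h] at this
  have e3 : ({1, 4, 6} : Finset (Fin 7)) ∈ L := by
    have := smul_mem_of_fix hPL (Equiv.swap 3 4 * Equiv.swap 5 6) (by decide)
      {0, 1, 2} {0, 3, 4} {1, 3, 5} h1 h2 (by decide)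
      (by have : (Equiv.swap (3 : Fin 7) 4 * Equiv.swap 5 6) • ({0, 1, 2} : Finset (Fin 7)) =
            {0, 1, 2} := by decide
          rw [this]; exact h1)
      (by have : (Equiv.swap (3 : Fin 7) 4 * Equiv.swap 5 6) • ({0, 3, 4} : Finset (Fin 7)) =
            {0, 3, 4} := by decide
          rw [this]; exact h2) h3
    have h : (Equiv.swap (3 : Fin 7) 4 * Equiv.swap 5 6) • ({1, 3, 5} : Finset (Fin 7)) =
            {1, 4, 6} := by decide
    rwa [h] at this
  have e4 : ({0, 5, 6} : Finset (Fin 7)) ∈ L := by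
    have := smul_mem_of_fix hPL (Equiv.swap 3 5 * Equiv.swap 4 6) (by decide)
      {0, 1, 2} {1, 3, 5} {0, 3, 4} h1 h3 (by decide)
      (by have : (Equiv.swap (3 : Fin 7) 5 * Equiv.swap 4 6) • ({0, 1, 2} : Finset (Fin 7)) =
            {0, 1, 2} := by decide
          rw [this]; exact h1)
      (by have : (Equiv.swap (3 : Fin 7) 5 * Equiv.swap 4 6) • ({1, 3, 5} : Finset (Fin 7)) =
            {1, 3, 5} := by decide
          rw [this]; exact h3) h2
    have h : (Equiv.swap (3 : Fin 7) 5 * Equiv.swap 4 6) • ({0, 3, 4} : Finset (Fin 7)) =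
            {0, 5, 6} := by decide
    rwa [h] at this
  have hsub : fano ⊆ L := by
    intro f hf
    simp only [fano, mem_insert, mem_singleton] at hf
    rcases hf with rfl | rfl | rfl | rfl | rfl | rfl | rfl <;> assumption
  apply Finset.Subset.antisymm _ hsub
  intro e he
  by_contra hne
  obtain ⟨j, hj, hj'⟩ := hNC
  obtain ⟨f, hf, hef⟩ := fano_spec e (by rw [mem_powersetCard]; exact ⟨subset_univ _, hL e he⟩)
    hne ⟨j, hj⟩
  exact hj' e he f (hsub hf) (fun h => hne (h ▸ hf)) hef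

theorem exc8_std (L : Finset (Finset (Fin 8))) (hPL : PL L)
    (h1 : {0, 1, 2, 3} ∈ L) (h2 : {0, 1, 4, 5} ∈ L) (h3 : {0, 2, 4, 6} ∈ L) :
    ∀ j < 4, ∃ a ∈ L, ∃ b ∈ L, a ≠ b ∧ #(a ∩ b) = j := by
  have e1 : ({1, 3, 5, 7} : Finset (Fin 8)) ∈ L := by
    have := smul_mem_of_fix hPL
      (Equiv.swap 0 1 * Equiv.swap 2 3 * Equiv.swap 4 5 * Equiv.swap 6 7) (by decide)
      {0, 1, 2, 3} {0, 1, 4, 5} {0, 2, 4, 6} h1 h2 (by decide)
      (by have : (Equiv.swap (0 : Fin 8) 1 * Equiv.swap 2 3 * Equiv.swap 4 5 *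
            Equiv.swap 6 7) • ({0, 1, 2, 3} : Finset (Fin 8)) = {0, 1, 2, 3} := by decide
          rw [this]; exact h1)
      (by have : (Equiv.swap (0 : Fin 8) 1 * Equiv.swap 2 3 * Equiv.swap 4 5 *
            Equiv.swap 6 7) • ({0, 1, 4, 5} : Finset (Fin 8)) = {0, 1, 4, 5} := by decide
          rw [this]; exact h2) h3
    have h : (Equiv.swap (0 : Fin 8) 1 * Equiv.swap 2 3 * Equiv.swap 4 5 *
            Equiv.swap 6 7) • ({0, 2, 4, 6} : Finset (Fin 8)) = {1, 3, 5, 7} := by decide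
    rwa [h] at this
  have e2 : ({1, 2, 3, 4} : Finset (Fin 8)) ∈ L := by
    have := smul_mem_of_fix hPL (Equiv.swap 0 2 * Equiv.swap 2 4) (by decide)
      {0, 2, 4, 6} {1, 3, 5, 7} {0, 1, 2, 3} h3 e1 (by decide)
      (by have : (Equiv.swap (0 : Fin 8) 2 * Equiv.swap 2 4) •
            ({0, 2, 4, 6} : Finset (Fin 8)) = {0, 2, 4, 6} := by decide
          rw [this]; exact h3)
      (by have : (Equiv.swap (0 : Fin 8) 2 * Equiv.swap 2 4) •
            ({1, 3, 5, 7} : Finset (Fin 8)) = {1, 3, 5, 7} := by decide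
          rw [this]; exact e1) h1
    have h : (Equiv.swap (0 : Fin 8) 2 * Equiv.swap 2 4) •
            ({0, 1, 2, 3} : Finset (Fin 8)) = {1, 2, 3, 4} := by decide
    rwa [h] at this
  have e3 : ({1, 4, 5, 6} : Finset (Fin 8)) ∈ L := by
    have := smul_mem_of_fix hPL (Equiv.swap 0 4 * Equiv.swap 2 6 * (Equiv.swap 3 5 *
        Equiv.swap 1 3)) (by decide)
      {0, 2, 4, 6} {1, 3, 5, 7} {0, 1, 2, 3} h3 e1 (by decide)
      (by have : (Equiv.swap (0 : Fin 8) 4 * Equiv.swap 2 6 * (Equiv.swap 3 5 *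
            Equiv.swap 1 3)) • ({0, 2, 4, 6} : Finset (Fin 8)) = {0, 2, 4, 6} := by decide
          rw [this]; exact h3)
      (by have : (Equiv.swap (0 : Fin 8) 4 * Equiv.swap 2 6 * (Equiv.swap 3 5 *
            Equiv.swap 1 3)) • ({1, 3, 5, 7} : Finset (Fin 8)) = {1, 3, 5, 7} := by decide
          rw [this]; exact e1) h1
    have h : (Equiv.swap (0 : Fin 8) 4 * Equiv.swap 2 6 * (Equiv.swap 3 5 *
            Equiv.swap 1 3)) • ({0, 1, 2, 3} : Finset (Fin 8)) = {1, 4, 5, 6} := by decide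
    rwa [h] at this
  intro j hj
  interval_cases j
  · exact ⟨_, h3, _, e1, by decide, by decide⟩
  · exact ⟨_, h1, _, e3, by decide, by decide⟩
  · exact ⟨_, h1, _, h2, by decide, by decide⟩
  · exact ⟨_, h1, _, e2, by decide, by decide⟩

theorem exc5_std (L : Finset (Finset (Fin 5))) (hL : ∀ a ∈ L, #a = 2) (hPL : PL L)
    (hI : ∀ a ∈ L, ∀ b ∈ L, a ≠ b → #(a ∩ b) = 1)
    (h1 : {0, 1} ∈ L) (h2 : {0, 2} ∈ L) (h3 : {0, 3} ∈ L) :
    ∀ e, e ∈ L ↔ ∃ z ∉ ({0} : Finset (Fin 5)), e = insert z {0} := by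
  have e1 : ({0, 4} : Finset (Fin 5)) ∈ L := by
    have := smul_mem_of_fix hPL (Equiv.swap 1 2 * Equiv.swap 3 4) (by decide)
      {0, 1} {0, 2} {0, 3} h1 h2 (by decide)
      (by have : (Equiv.swap (1 : Fin 5) 2 * Equiv.swap 3 4) • ({0, 1} : Finset (Fin 5)) =
            {0, 2} := by decide
          rw [this]; exact h2)
      (by have : (Equiv.swap (1 : Fin 5) 2 * Equiv.swap 3 4) • ({0, 2} : Finset (Fin 5)) =
            {0, 1} := by decide
          rw [this]; exact h1) h3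
    have h : (Equiv.swap (1 : Fin 5) 2 * Equiv.swap 3 4) • ({0, 3} : Finset (Fin 5)) =
            {0, 4} := by decide
    rwa [h] at this
  intro e
  constructor
  · intro he
    have fin : ∀ e ∈ powersetCard 2 (univ : Finset (Fin 5)),
        (e ≠ {0, 1} → #(e ∩ {0, 1}) = 1) → (e ≠ {0, 2} → #(e ∩ {0, 2}) = 1) →
        (e ≠ {0, 3} → #(e ∩ {0, 3}) = 1) → (e ≠ {0, 4} → #(e ∩ {0, 4}) = 1) →
        ∃ z ∉ ({0} : Finset (Fin 5)), e = insert z {0} := by decide
    exact fin e (by rw [mem_powersetCard]; exact ⟨subset_univ _, hL e he⟩)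
      (fun h => hI e he _ h1 h) (fun h => hI e he _ h2 h) (fun h => hI e he _ h3 h)
      (fun h => hI e he _ e1 h)
  · rintro ⟨z, hz, rfl⟩
    have : z = 1 ∨ z = 2 ∨ z = 3 ∨ z = 4 := by
      revert z
      decide
    rcases this with rfl | rfl | rfl | rfl
    · rw [pair_comm]; exact h1
    · rw [pair_comm]; exact h2
    · rw [pair_comm]; exact h3
    · rw [pair_comm]; exact e1

end Pool.Agent.Helper29.FT
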