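import Pool.Agent.Helper29.FT.Small2

/-!
# The possible lines with at least three points
-/

open Finset Pointwise

set_option linter.unusedSectionVars false

namespace Pool.Agent.Helper29.FT

theorem exists_inter {Ω : Type*} [Fintype Ω] [DecidableEq Ω] {k j : ℕ}
    (hkn : 2 * k ≤ Fintype.card Ω) (hj : j ≤ k) :
    ∃ a b : Finset Ω, #a = k ∧ #b = k ∧ #(a ∩ b) = j := by
  obtain ⟨a, -, ha⟩ := exists_subset_card_eq (s := (univ : Finset Ω)) (n := k)
    (by rw [card_univ]; omega)
  obtain ⟨a1, ha1, hc1⟩ := exists_subset_card_eq (s := a) (n := j) (by omega)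
  obtain ⟨b1, hb1, hc2⟩ := exists_subset_card_eq (s := aᶜ) (n := k - j)
    (by rw [card_compl]; omega)
  have hdis : Disjoint a1 b1 :=
    disjoint_of_subset_left ha1 (disjoint_of_subset_right hb1 disjoint_compl_right)
  refine ⟨a, a1 ∪ b1, ha, ?_, ?_⟩
  · rw [card_union_of_disjoint hdis]
    omega
  · rw [inter_union_distrib_left]
    have h1 : a ∩ a1 = a1 := inter_eq_right.mpr ha1
    have h2 : a ∩ b1 = ∅ := by
      rw [← disjoint_iff_inter_eq_empty]
      exact disjoint_of_subset_right hb1 disjoint_compl_right
    rw [h1, h2, union_empty, hc1]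

theorem inter_card_lt {Ω : Type*} [Fintype Ω] [DecidableEq Ω] {k : ℕ} {a b : Finset Ω}
    (ha : #a = k) (hb : #b = k) (hab : a ≠ b) : #(a ∩ b) < k := by
  by_contra h
  push Not at h
  have h1 : a ∩ b = a := eq_of_subset_of_card_le inter_subset_left (by omega)
  have h2 : a ∩ b = b := eq_of_subset_of_card_le inter_subset_right (by omega)
  exact hab (h1.symm.trans h2)

set_option maxRecDepth 10000 in
theorem line_types {n k : ℕ} (hn5 : 5 ≤ n) (hk2 : 2 ≤ k) (hkn : 2 * k ≤ n)
    (L : Finset (Finset (Fin n))) (hL : ∀ a ∈ L, #a = k) (h3 : 3 ≤ #L) (hPL : PL L)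
    (hNC : ∃ j < k, ∀ a ∈ L, ∀ b ∈ L, a ≠ b → #(a ∩ b) ≠ j)
    (h63 : ¬ (n = 6 ∧ k = 3))
    (hhom : ∀ d ∈ L, ∀ e ∈ L, ∃ g : Equiv.Perm (Fin n), g • L = L ∧ g • d = e) :
    (∃ K : Finset (Fin n), #K = k - 1 ∧ ∀ e, e ∈ L ↔ ∃ z ∉ K, e = insert z K) ∨
    (∃ Y : Finset (Fin n), #Y = k + 1 ∧ L = powersetCard k Y) ∨ IsT3 k L ∨ IsT4 k L ∨
    (n = 7 ∧ k = 3 ∧ IsFano L) := by
  by_cases hexc : ∀ a ∈ L, ∀ b ∈ L, ∀ d ∈ L, a ≠ b →
      ∃ x y, x ≠ y ∧ (x ∈ a ↔ y ∈ a) ∧ (x ∈ b ↔ y ∈ b) ∧ (x ∈ d ↔ y ∈ d)
  · have hC := closed_of_nonexc hPL hexc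
    rcases line_class (by rw [Fintype.card_fin]; exact hn5) hk2
      (by rw [Fintype.card_fin]; exact hkn) L hL h3 hC hhom with h | h | h | h | h
    · exfalso
      obtain ⟨j, hj, hj'⟩ := hNC
      obtain ⟨a, b, ha, hb, hab⟩ := exists_inter (Ω := Fin n) (k := k) (j := j)
        (by rw [Fintype.card_fin]; exact hkn) hj.le
      apply hj' a (by rw [h, mem_powersetCard]; exact ⟨subset_univ _, ha⟩) b
        (by rw [h, mem_powersetCard]; exact ⟨subset_univ _, hb⟩) _ hab
      rintro rfl
      rw [inter_self] at hab
      omega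
    · exact Or.inl h
    · exact Or.inr (Or.inl h)
    · exact Or.inr (Or.inr (Or.inl h))
    · exact Or.inr (Or.inr (Or.inr (Or.inl h)))
  · push Not at hexc
    obtain ⟨a, ha, b, hb, d, hd, hab, hinj⟩ := hexc
    have hle : ∀ c, #{x | col3 a b d x = c} ≤ 1 := by
      intro c
      rw [card_le_one]
      intro x hx y hy
      simp only [mem_filter, mem_univ, true_and] at hx hy
      by_contra hne
      have hxy : col3 a b d x = col3 a b d y := by rw [hx, hy]
      simp only [col3, Prod.mk.injEq, decide_eq_decide] at hxy
      obtain ⟨h1, h2, h3'⟩ := hxy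
      have := hinj x y hne h1 h2
      rcases this with h | h
      · exact h.2 (h3'.mp h.1)
      · exact h.1 (h3'.mpr h.2)
    obtain ⟨ca, cb, cd, cn⟩ := card_col3 a b d
    obtain ⟨cab, cad, cbd⟩ := card_col3_inter a b d
    have hak := hL a ha
    have hbk := hL b hb
    have hdk := hL d hd
    rw [Fintype.card_fin] at cn
    have l1 := hle (true, true, true)
    have l2 := hle (true, true, false)
    have l3 := hle (true, false, true)
    have l4 := hle (true, false, false)
    have l5 := hle (false, true, true)
    have l6 := hle (false, true, false)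
    have l7 := hle (false, false, true)
    have l8 := hle (false, false, false)
    have hcases : n = 5 ∨ n = 6 ∨ n = 7 ∨ n = 8 := by omega
    rcases hcases with rfl | rfl | rfl | rfl
    · -- n = 5
      obtain rfl : k = 2 := by omega
      left
      have had : a ≠ d := by
        rintro rfl
        rw [inter_self] at cad
        omega
      have hbd : b ≠ d := by
        rintro rfl
        rw [inter_self] at cbd
        omega
      have iab := inter_card_lt hak hbk hab
      have iad := inter_card_lt hak hdk had
      have ibd := inter_card_lt hbk hdk hbd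
      obtain ⟨j, hj, hj'⟩ := hNC
      have hj0 : j = 0 := by
        by_contra hj0
        have hj1 : j = 1 := by omega
        subst hj1
        have h1 := hj' a ha b hb hab
        have h2 := hj' a ha d hd had
        have h3 := hj' b hb d hd hbd
        omega
      subst hj0
      have hI : ∀ a ∈ L, ∀ b ∈ L, a ≠ b → #(a ∩ b) = 1 := by
        intro a ha b hb hab
        have h1 := hj' a ha b hb hab
        have h2 := inter_card_lt (hL a ha) (hL b hb) hab
        omega
      have h1 := hI a ha b hb hab
      have h2 := hI a ha d hd had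
      have h3 := hI b hb d hd hbd
      have hcount : ∀ c, #{x | col3 a b d x = c} =
          #{x | col3 ({0, 1} : Finset (Fin 5)) {0, 2} {0, 3} x = c} := by
        have g1 : #{x | col3 ({0, 1} : Finset (Fin 5)) {0, 2} {0, 3} x = (true, true, true)} = 1 :=
          by decide
        have g2 : #{x | col3 ({0, 1} : Finset (Fin 5)) {0, 2} {0, 3} x = (true, true, false)} = 0 :=
          by decide
        have g3 : #{x | col3 ({0, 1} : Finset (Fin 5)) {0, 2} {0, 3} x = (true, false, true)} = 0 :=
          by decide
        have g4 : #{x | col3 ({0, 1} : Finset (Fin 5)) {0, 2} {0, 3} x = (true, false, false)} = 1 :=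
          by decide
        have g5 : #{x | col3 ({0, 1} : Finset (Fin 5)) {0, 2} {0, 3} x = (false, true, true)} = 0 :=
          by decide
        have g6 : #{x | col3 ({0, 1} : Finset (Fin 5)) {0, 2} {0, 3} x = (false, true, false)} = 1 :=
          by decide
        have g7 : #{x | col3 ({0, 1} : Finset (Fin 5)) {0, 2} {0, 3} x = (false, false, true)} = 1 :=
          by decide
        have g8 : #{x | col3 ({0, 1} : Finset (Fin 5)) {0, 2} {0, 3} x = (false, false, false)} = 1
          := by decide
        rintro ⟨_ | _, _ | _, _ | _⟩ <;> omega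
      obtain ⟨σ, hσa, hσb, hσd⟩ := exists_perm_col3 _ _ _ _ _ _ hcount
      have key := exc5_std (σ • L)
        (by
          intro e he
          rw [mem_smul_L] at he
          rw [← hL _ he, card_smul_finset])
        (hPL.smul σ)
        (by
          intro e he f hf hef
          rw [mem_smul_L] at he hf
          have := hI _ he _ hf (fun h => hef (smul_left_cancel _ h))
          rwa [card_smul_inter] at this)
        (by rw [← hσa]; exact smul_mem_smul_finset ha)
        (by rw [← hσb]; exact smul_mem_smul_finset hb)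
        (by rw [← hσd]; exact smul_mem_smul_finset hd)
      refine ⟨σ⁻¹ • {0}, by rw [card_smul_finset]; rfl, ?_⟩
      intro e
      have h4 := key (σ • e)
      rw [mem_smul_L, inv_smul_smul] at h4
      rw [h4]
      constructor
      · rintro ⟨z, hz, he⟩
        refine ⟨σ⁻¹ • z, ?_, ?_⟩
        · rw [smul_mem_smul_finset_iff]
          exact hz
        · have := congrArg (fun M => σ⁻¹ • M) he
          simp only [inv_smul_smul, smul_finset_insert] at this
          exact this
      · rintro ⟨z, hz, rfl⟩
        refine ⟨σ • z, ?_, ?_⟩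
        · intro h
          apply hz
          have := smul_mem_smul_finset (a := σ⁻¹) h
          rwa [inv_smul_smul] at this
        · rw [smul_finset_insert, smul_inv_smul]
    · -- n = 6
      exfalso
      have : k = 2 ∨ k = 3 := by omega
      rcases this with rfl | rfl
      · omega
      · exact h63 ⟨rfl, rfl⟩
    · -- n = 7
      obtain rfl : k = 3 := by omega
      right; right; right; right
      refine ⟨rfl, rfl, ?_⟩
      have hcount : ∀ c, #{x | col3 a b d x = c} =
          #{x | col3 ({0, 1, 2} : Finset (Fin 7)) {0, 3, 4} {1, 3, 5} x = c} := by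
        have g1 : #{x | col3 ({0, 1, 2} : Finset (Fin 7)) {0, 3, 4} {1, 3, 5} x =
          (true, true, true)} = 0 := by decide
        have g2 : #{x | col3 ({0, 1, 2} : Finset (Fin 7)) {0, 3, 4} {1, 3, 5} x =
          (true, true, false)} = 1 := by decide
        have g3 : #{x | col3 ({0, 1, 2} : Finset (Fin 7)) {0, 3, 4} {1, 3, 5} x =
          (true, false, true)} = 1 := by decide
        have g4 : #{x | col3 ({0, 1, 2} : Finset (Fin 7)) {0, 3, 4} {1, 3, 5} x =
          (true, false, false)} = 1 := by decide
        have g5 : #{x | col3 ({0, 1, 2} : Finset (Fin 7)) {0, 3, 4} {1, 3, 5} x =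
          (false, true, true)} = 1 := by decide
        have g6 : #{x | col3 ({0, 1, 2} : Finset (Fin 7)) {0, 3, 4} {1, 3, 5} x =
          (false, true, false)} = 1 := by decide
        have g7 : #{x | col3 ({0, 1, 2} : Finset (Fin 7)) {0, 3, 4} {1, 3, 5} x =
          (false, false, true)} = 1 := by decide
        have g8 : #{x | col3 ({0, 1, 2} : Finset (Fin 7)) {0, 3, 4} {1, 3, 5} x =
          (false, false, false)} = 1 := by decide
        rintro ⟨_ | _, _ | _, _ | _⟩ <;> omega
      obtain ⟨σ, hσa, hσb, hσd⟩ := exists_perm_col3 _ _ _ _ _ _ hcount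
      have key := exc7_std (σ • L)
        (by
          intro e he
          rw [mem_smul_L] at he
          rw [← hL _ he, card_smul_finset])
        (hPL.smul σ)
        (by
          obtain ⟨j, hj, hj'⟩ := hNC
          refine ⟨j, hj, ?_⟩
          intro e he f hf hef
          rw [mem_smul_L] at he hf
          have := hj' _ he _ hf (fun h => hef (smul_left_cancel _ h))
          rwa [card_smul_inter] at this)
        (by rw [← hσa]; exact smul_mem_smul_finset ha)
        (by rw [← hσb]; exact smul_mem_smul_finset hb)
        (by rw [← hσd]; exact smul_mem_smul_finset hd)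
      refine ⟨σ⁻¹, ?_⟩
      have h5 : L = σ⁻¹ • fano := by
        rw [← key, inv_smul_smul]
      rw [h5]
      rfl
    · -- n = 8
      exfalso
      obtain rfl : k = 4 := by omega
      have hcount : ∀ c, #{x | col3 a b d x = c} =
          #{x | col3 ({0, 1, 2, 3} : Finset (Fin 8)) {0, 1, 4, 5} {0, 2, 4, 6} x = c} := by
        have g : ∀ c, #{x | col3 ({0, 1, 2, 3} : Finset (Fin 8)) {0, 1, 4, 5} {0, 2, 4, 6} x =
          c} = 1 := by decide
        have g1 := g (true, true, true)
        have g2 := g (true, true, false)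
        have g3 := g (true, false, true)
        have g4 := g (true, false, false)
        have g5 := g (false, true, true)
        have g6 := g (false, true, false)
        have g7 := g (false, false, true)
        have g8 := g (false, false, false)
        rintro ⟨_ | _, _ | _, _ | _⟩ <;> omega
      obtain ⟨σ, hσa, hσb, hσd⟩ := exists_perm_col3 _ _ _ _ _ _ hcount
      obtain ⟨j, hj, hj'⟩ := hNC
      obtain ⟨e, he, f, hf, hef, hint⟩ := exc8_std (σ • L) (hPL.smul σ)
        (by rw [← hσa]; exact smul_mem_smul_finset ha)
        (by rw [← hσb]; exact smul_mem_smul_finset hb)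
        (by rw [← hσd]; exact smul_mem_smul_finset hd) j hj
      rw [mem_smul_L] at he hf
      have := hj' _ he _ hf (fun h => hef (smul_left_cancel _ h))
      rw [card_smul_inter] at this
      exact this hint

end Pool.Agent.Helper29.FT
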