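import Pool.Agent.Helper29.FT.Fano2

/-!
# Uniqueness of the parameters
-/

open Finset Pointwise

namespace Pool.Agent.Helper29.FT

theorem params_unique {V : Type*} [DecidableEq V] {P : Finset V} {B : Finset (Finset V)}
    {α s t μ α' s' t' μ' : ℕ} (hS : IsSPG P B α s t μ) (hS' : IsSPG P B α' s' t' μ')
    (hNL : NonLinear P B) : α = α' ∧ s = s' ∧ t = t' ∧ μ = μ' := by
  obtain ⟨a, ha, b, hb, hab, hn⟩ := hNL
  obtain ⟨l, hl, hal⟩ := hS.exists_line ha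
  have h1 := hS.line_card l hl
  have h2 := hS'.line_card l hl
  have h3 := hS.point_deg a ha
  have h4 := hS'.point_deg a ha
  have h5 := hS.noncoll a ha b hb hab hn
  have h6 := hS'.noncoll a ha b hb hab hn
  refine ⟨?_, by omega, by omega, by omega⟩
  obtain ⟨c, hc, hac, hbc, m, hm, hbm, hcm⟩ :
      ∃ c ∈ P, Coll B a c ∧ b ≠ c ∧ ∃ m ∈ B, b ∈ m ∧ c ∈ m := by
    have h7 : 0 < #{c ∈ P | Coll B a c ∧ Coll B b c} := by
      rw [h5]
      exact hS.μ_pos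
    obtain ⟨c, hc⟩ := card_pos.mp h7
    rw [mem_filter] at hc
    exact ⟨c, hc.1, hc.2.1, hc.2.2.1, hc.2.2.2⟩
  have ham : a ∉ m := fun h => hn ⟨hab, m, hm, h, hbm⟩
  have hpos : 0 < #{m' ∈ B | a ∈ m' ∧ (m' ∩ m).Nonempty} := by
    obtain ⟨-, m', hm', ham', hcm'⟩ := hac
    exact card_pos.mpr ⟨m', mem_filter.mpr ⟨hm', ham', c, mem_inter.mpr ⟨hcm', hcm⟩⟩⟩
  rcases hS.antiflag a ha m hm ham with h8 | h8
  · omega
  · rcases hS'.antiflag a ha m hm ham with h9 | h9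
    · omega
    · omega

end Pool.Agent.Helper29.FT
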